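import Pool.Statements.S07531
-- import your own Pool.Agent.* helpers here

set_option autoImplicit false
open Pool Pool.MP_bc0e65_co

namespace Pool.Agent.S07531

/-- basic pattern: `t` is the parity of the number of stars; the rest depends on `a - b` and parity -/
def W (t : ℕ) (x y : ℤ) (a b e : ℕ) : Prop :=
  e % 2 = t ∧ (((a + b + t) % 2 = 0 ∧ (a:ℤ) - b ≤ x) ∨ ((a + b + t) % 2 = 1 ∧ y ≤ (a:ℤ) - b))

/-- level zero -/
def Ini (a b e : ℕ) : Prop := W 0 (-2) 1 a b e ∨ (a = 0 ∧ b = 0 ∧ e % 2 = 1)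

/-- `S` is the set of P-positions obtained from the set `S'` one level below -/
def Key (u : ℕ) (S' S : ℕ → ℕ → ℕ → Prop) : Prop :=
  ∀ a b e, S a b e ↔
    ((∀ e', e = e' + 1 → ¬ S a b e') ∧
     (∀ b', b = b' + 1 → ¬ S a b' e ∧ ¬ S a b' (e + 1)) ∧
     (∀ a', a = a' + 1 → ¬ S a' b e ∧ ¬ S a' (b + 2) (e + 1) ∧ ¬ S a' (b + 3) (e + 1)) ∧
     (¬ S' (a + 3) b e ∧ ¬ S' a (b + 1) e ∧ ¬ S' a (b + u) (e + 1)))

theorem W_sound (u : ℕ) (hu : u % 2 = 0) (t : ℕ) (x y x' y' : ℤ) (t' : ℕ) (a b e : ℕ)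
    (h : W t x y a b e) (ht : t < 2) (hxy : x + 2 ≤ y) :
    ((∀ e', e = e' + 1 → ¬ W t x y a b e') ∧
     (∀ b', b = b' + 1 → ¬ W t x y a b' e ∧ ¬ W t x y a b' (e + 1)) ∧
     (∀ a', a = a' + 1 → ¬ W t x y a' b e ∧ ¬ W t x y a' (b + 2) (e + 1) ∧ ¬ W t x y a' (b + 3) (e + 1))) := by
  refine ⟨?_, ?_, ?_⟩
  · rintro e' rfl h'
    have h1 := h.1
    have h2 := h'.1
    omega
  · rintro b' rfl
    refine ⟨?_, ?_⟩
    · rintro ⟨h1, h2⟩
      obtain ⟨h3, h4⟩ := h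
      rcases h2 with ⟨h2, h5⟩ | ⟨h2, h5⟩ <;> rcases h4 with ⟨h4, h6⟩ | ⟨h4, h6⟩ <;> push_cast at * <;> omega
    · rintro ⟨h1, h2⟩
      have := h.1
      omega
  · rintro a' rfl
    refine ⟨?_, ?_, ?_⟩
    · rintro ⟨h1, h2⟩
      obtain ⟨h3, h4⟩ := h
      rcases h2 with ⟨h2, h5⟩ | ⟨h2, h5⟩ <;> rcases h4 with ⟨h4, h6⟩ | ⟨h4, h6⟩ <;> push_cast at * <;> omega
    · rintro ⟨h1, h2⟩
      have := h.1
      omega
    · rintro ⟨h1, h2⟩
      have := h.1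
      omega

theorem K1 (u : ℕ) (hu : u % 2 = 0) (hu4 : 4 ≤ u) (x : ℤ) (hx : x % 2 = 0) (hx2 : 2 ≤ x) :
    Key u (W 0 x (x + 3)) (W 0 (x - 2) (x + 3)) := by
  intro a b e
  constructor
  · intro h
    obtain ⟨s1, s2, s3⟩ := W_sound u hu 0 (x - 2) (x + 3) 0 0 0 a b e h (by omega) (by omega)
    refine ⟨s1, s2, s3, ?_, ?_, ?_⟩
    · rintro ⟨h1, h2⟩
      obtain ⟨h3, h4⟩ := h
      rcases h2 with ⟨h2, h5⟩ | ⟨h2, h5⟩ <;> rcases h4 with ⟨h4, h6⟩ | ⟨h4, h6⟩ <;> push_cast at * <;> omega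
    · rintro ⟨h1, h2⟩
      obtain ⟨h3, h4⟩ := h
      rcases h2 with ⟨h2, h5⟩ | ⟨h2, h5⟩ <;> rcases h4 with ⟨h4, h6⟩ | ⟨h4, h6⟩ <;> push_cast at * <;> omega
    · rintro ⟨h1, h2⟩
      have := h.1
      omega
  · rintro ⟨h1, h2, h3, h4, h5, h6⟩
    by_contra hS
    rcases Nat.mod_two_eq_zero_or_one (a + b) with hp | hp
    · -- even parity
      by_cases hd : (a:ℤ) - b ≤ x - 2
      · -- in the set, so `e` is odd
        have he : e % 2 = 1 := by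
          by_contra he
          exact hS ⟨by omega, Or.inl ⟨by omega, hd⟩⟩
        obtain ⟨e', rfl⟩ : ∃ e', e = e' + 1 := ⟨e - 1, by omega⟩
        exact h1 e' rfl ⟨by omega, Or.inl ⟨by omega, hd⟩⟩
      · rcases Nat.mod_two_eq_zero_or_one e with he | he
        · exact h4 ⟨he, Or.inr ⟨by omega, by push_cast; omega⟩⟩
        · by_cases hd2 : (a:ℤ) - b ≤ x + 4
          · exact h6 ⟨by omega, Or.inl ⟨by omega, by push_cast; omega⟩⟩
          · obtain ⟨a', rfl⟩ : ∃ a', a = a' + 1 := ⟨a - 1, by omega⟩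
            exact (h3 a' rfl).2.1 ⟨by omega, Or.inr ⟨by omega, by push_cast at *; omega⟩⟩
    · by_cases hd : x + 3 ≤ (a:ℤ) - b
      · have he : e % 2 = 1 := by
          by_contra he
          exact hS ⟨by omega, Or.inr ⟨by omega, hd⟩⟩
        obtain ⟨e', rfl⟩ : ∃ e', e = e' + 1 := ⟨e - 1, by omega⟩
        exact h1 e' rfl ⟨by omega, Or.inr ⟨by omega, hd⟩⟩
      · rcases Nat.mod_two_eq_zero_or_one e with he | he
        · exact h5 ⟨he, Or.inl ⟨by omega, by push_cast; omega⟩⟩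
        · rcases Nat.eq_zero_or_pos a with ha | ha
          · obtain ⟨b', rfl⟩ : ∃ b', b = b' + 1 := ⟨b - 1, by omega⟩
            exact (h2 b' rfl).2 ⟨by omega, Or.inl ⟨by omega, by push_cast at *; omega⟩⟩
          · obtain ⟨a', rfl⟩ : ∃ a', a = a' + 1 := ⟨a - 1, by omega⟩
            exact (h3 a' rfl).2.1 ⟨by omega, Or.inl ⟨by omega, by push_cast at *; omega⟩⟩

theorem K2 (u : ℕ) (hu : u % 2 = 0) (hu4 : 4 ≤ u) (x : ℤ) (hx : x % 2 = 0) (hx2 : 0 ≤ x) :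
    Key u (W 0 x (x + 5)) (W 0 x (x + 3)) := by
  intro a b e
  constructor
  · intro h
    obtain ⟨s1, s2, s3⟩ := W_sound u hu 0 x (x + 3) 0 0 0 a b e h (by omega) (by omega)
    refine ⟨s1, s2, s3, ?_, ?_, ?_⟩
    · rintro ⟨h1, h2⟩
      obtain ⟨h3, h4⟩ := h
      rcases h2 with ⟨h2, h5⟩ | ⟨h2, h5⟩ <;> rcases h4 with ⟨h4, h6⟩ | ⟨h4, h6⟩ <;> push_cast at * <;> omega
    · rintro ⟨h1, h2⟩
      obtain ⟨h3, h4⟩ := h
      rcases h2 with ⟨h2, h5⟩ | ⟨h2, h5⟩ <;> rcases h4 with ⟨h4, h6⟩ | ⟨h4, h6⟩ <;> push_cast at * <;> omega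
    · rintro ⟨h1, h2⟩
      have := h.1
      omega
  · rintro ⟨h1, h2, h3, h4, h5, h6⟩
    by_contra hS
    rcases Nat.mod_two_eq_zero_or_one (a + b) with hp | hp
    · by_cases hd : (a:ℤ) - b ≤ x
      · have he : e % 2 = 1 := by
          by_contra he
          exact hS ⟨by omega, Or.inl ⟨by omega, hd⟩⟩
        obtain ⟨e', rfl⟩ : ∃ e', e = e' + 1 := ⟨e - 1, by omega⟩
        exact h1 e' rfl ⟨by omega, Or.inl ⟨by omega, hd⟩⟩
      · rcases Nat.mod_two_eq_zero_or_one e with he | he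
        · exact h4 ⟨he, Or.inr ⟨by omega, by push_cast; omega⟩⟩
        · by_cases hd2 : (a:ℤ) - b ≤ x + 4
          · exact h6 ⟨by omega, Or.inl ⟨by omega, by push_cast; omega⟩⟩
          · obtain ⟨a', rfl⟩ : ∃ a', a = a' + 1 := ⟨a - 1, by omega⟩
            exact (h3 a' rfl).2.1 ⟨by omega, Or.inr ⟨by omega, by push_cast at *; omega⟩⟩
    · by_cases hd : x + 3 ≤ (a:ℤ) - b
      · have he : e % 2 = 1 := by
          by_contra he
          exact hS ⟨by omega, Or.inr ⟨by omega, hd⟩⟩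
        obtain ⟨e', rfl⟩ : ∃ e', e = e' + 1 := ⟨e - 1, by omega⟩
        exact h1 e' rfl ⟨by omega, Or.inr ⟨by omega, hd⟩⟩
      · rcases Nat.mod_two_eq_zero_or_one e with he | he
        · exact h5 ⟨he, Or.inl ⟨by omega, by push_cast; omega⟩⟩
        · rcases Nat.eq_zero_or_pos a with ha | ha
          · obtain ⟨b', rfl⟩ : ∃ b', b = b' + 1 := ⟨b - 1, by omega⟩
            exact (h2 b' rfl).2 ⟨by omega, Or.inl ⟨by omega, by push_cast at *; omega⟩⟩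
          · obtain ⟨a', rfl⟩ : ∃ a', a = a' + 1 := ⟨a - 1, by omega⟩
            exact (h3 a' rfl).2.1 ⟨by omega, Or.inl ⟨by omega, by push_cast at *; omega⟩⟩

theorem K3 (u : ℕ) (hu : u % 2 = 0) (hu4 : 4 ≤ u) :
    Key u (W 0 0 3) (W 1 (u + 1) (u + 4)) := by
  intro a b e
  constructor
  · intro h
    obtain ⟨s1, s2, s3⟩ := W_sound u hu 1 (u + 1) (u + 4) 0 0 0 a b e h (by omega) (by omega)
    refine ⟨s1, s2, s3, ?_, ?_, ?_⟩
    · rintro ⟨h1, h2⟩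
      have := h.1
      omega
    · rintro ⟨h1, h2⟩
      have := h.1
      omega
    · rintro ⟨h1, h2⟩
      obtain ⟨h3, h4⟩ := h
      rcases h2 with ⟨h2, h5⟩ | ⟨h2, h5⟩ <;> rcases h4 with ⟨h4, h6⟩ | ⟨h4, h6⟩ <;> push_cast at * <;> omega
  · rintro ⟨h1, h2, h3, h4, h5, h6⟩
    by_contra hS
    rcases Nat.mod_two_eq_zero_or_one (a + b) with hp | hp
    · rcases Nat.mod_two_eq_zero_or_one e with he | he
      · by_cases hd : 0 ≤ (a:ℤ) - b
        · exact h4 ⟨he, Or.inr ⟨by omega, by push_cast; omega⟩⟩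
        · obtain ⟨b', rfl⟩ : ∃ b', b = b' + 1 := ⟨b - 1, by omega⟩
          exact (h2 b' rfl).2 ⟨by omega, Or.inl ⟨by omega, by push_cast at *; omega⟩⟩
      · by_cases hd : (u:ℤ) + 4 ≤ (a:ℤ) - b
        · exact hS ⟨he, Or.inr ⟨by omega, hd⟩⟩
        · by_cases hd2 : (a:ℤ) - b ≤ u
          · exact h6 ⟨by omega, Or.inl ⟨by omega, by push_cast; omega⟩⟩
          · obtain ⟨a', rfl⟩ : ∃ a', a = a' + 1 := ⟨a - 1, by omega⟩
            exact (h3 a' rfl).1 ⟨by omega, Or.inl ⟨by omega, by push_cast at *; omega⟩⟩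
    · rcases Nat.mod_two_eq_zero_or_one e with he | he
      · by_cases hd : (a:ℤ) - b ≤ 1
        · exact h5 ⟨he, Or.inl ⟨by omega, by push_cast; omega⟩⟩
        · obtain ⟨a', rfl⟩ : ∃ a', a = a' + 1 := ⟨a - 1, by omega⟩
          by_cases hd2 : ((a' + 1 : ℕ):ℤ) - b ≤ u + 5
          · exact (h3 a' rfl).2.2 ⟨by omega, Or.inl ⟨by omega, by push_cast at *; omega⟩⟩
          · exact (h3 a' rfl).2.1 ⟨by omega, Or.inr ⟨by omega, by push_cast at *; omega⟩⟩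
      · by_cases hd : (a:ℤ) - b ≤ u + 1
        · exact hS ⟨he, Or.inl ⟨by omega, hd⟩⟩
        · exact h6 ⟨by omega, Or.inr ⟨by omega, by push_cast; omega⟩⟩

theorem K4 (u : ℕ) (hu : u % 2 = 0) (hu4 : 4 ≤ u) (z : ℤ) (hz : z % 2 = 1) (hz1 : 1 ≤ z) :
    Key u (W 1 z (z + 3)) (W 0 (z + u + 1) (z + u + 4)) := by
  intro a b e
  constructor
  · intro h
    obtain ⟨s1, s2, s3⟩ := W_sound u hu 0 (z + u + 1) (z + u + 4) 0 0 0 a b e h (by omega) (by omega)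
    refine ⟨s1, s2, s3, ?_, ?_, ?_⟩
    · rintro ⟨h1, h2⟩
      have := h.1
      omega
    · rintro ⟨h1, h2⟩
      have := h.1
      omega
    · rintro ⟨h1, h2⟩
      obtain ⟨h3, h4⟩ := h
      rcases h2 with ⟨h2, h5⟩ | ⟨h2, h5⟩ <;> rcases h4 with ⟨h4, h6⟩ | ⟨h4, h6⟩ <;> push_cast at * <;> omega
  · rintro ⟨h1, h2, h3, h4, h5, h6⟩
    by_contra hS
    rcases Nat.mod_two_eq_zero_or_one (a + b) with hp | hp
    · by_cases hd : (a:ℤ) - b ≤ z + u + 1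
      · have he : e % 2 = 1 := by
          by_contra he
          exact hS ⟨by omega, Or.inl ⟨by omega, hd⟩⟩
        obtain ⟨e', rfl⟩ : ∃ e', e = e' + 1 := ⟨e - 1, by omega⟩
        exact h1 e' rfl ⟨by omega, Or.inl ⟨by omega, hd⟩⟩
      · rcases Nat.mod_two_eq_zero_or_one e with he | he
        · exact h6 ⟨by omega, Or.inr ⟨by omega, by push_cast; omega⟩⟩
        · obtain ⟨a', rfl⟩ : ∃ a', a = a' + 1 := ⟨a - 1, by omega⟩
          by_cases hd2 : ((a' + 1 : ℕ):ℤ) - b ≤ z + u + 1 + 4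
          · exact (h3 a' rfl).2.2 ⟨by omega, Or.inl ⟨by omega, by push_cast at *; omega⟩⟩
          · exact (h3 a' rfl).2.1 ⟨by omega, Or.inr ⟨by omega, by push_cast at *; omega⟩⟩
    · by_cases hd : z + u + 4 ≤ (a:ℤ) - b
      · have he : e % 2 = 1 := by
          by_contra he
          exact hS ⟨by omega, Or.inr ⟨by omega, hd⟩⟩
        obtain ⟨e', rfl⟩ : ∃ e', e = e' + 1 := ⟨e - 1, by omega⟩
        exact h1 e' rfl ⟨by omega, Or.inr ⟨by omega, hd⟩⟩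
      · rcases Nat.mod_two_eq_zero_or_one e with he | he
        · rcases Nat.eq_zero_or_pos a with ha | ha
          · obtain ⟨b', rfl⟩ : ∃ b', b = b' + 1 := ⟨b - 1, by omega⟩
            exact (h2 b' rfl).1 ⟨by omega, Or.inl ⟨by omega, by push_cast at *; omega⟩⟩
          · obtain ⟨a', rfl⟩ : ∃ a', a = a' + 1 := ⟨a - 1, by omega⟩
            exact (h3 a' rfl).1 ⟨by omega, Or.inl ⟨by omega, by push_cast at *; omega⟩⟩
        · rcases Nat.eq_zero_or_pos a with ha | ha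
          · obtain ⟨b', rfl⟩ : ∃ b', b = b' + 1 := ⟨b - 1, by omega⟩
            exact (h2 b' rfl).2 ⟨by omega, Or.inl ⟨by omega, by push_cast at *; omega⟩⟩
          · obtain ⟨a', rfl⟩ : ∃ a', a = a' + 1 := ⟨a - 1, by omega⟩
            exact (h3 a' rfl).2.1 ⟨by omega, Or.inl ⟨by omega, by push_cast at *; omega⟩⟩

theorem K5 (u : ℕ) (hu : u % 2 = 0) (hu4 : 4 ≤ u) :
    Key u Ini (W 1 (u - 1) (u + 2)) := by
  intro a b e
  constructor
  · intro h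
    obtain ⟨s1, s2, s3⟩ := W_sound u hu 1 (u - 1) (u + 2) 0 0 0 a b e h (by omega) (by omega)
    refine ⟨s1, s2, s3, ?_, ?_, ?_⟩
    · rintro (⟨h1, h2⟩ | ⟨h1, h2⟩)
      · have := h.1
        omega
      · omega
    · rintro (⟨h1, h2⟩ | ⟨h1, h2, h3⟩)
      · have := h.1
        omega
      · omega
    · rintro (⟨h1, h2⟩ | ⟨h1, h2, h3⟩)
      · obtain ⟨h3, h4⟩ := h
        rcases h2 with ⟨h2, h5⟩ | ⟨h2, h5⟩ <;> rcases h4 with ⟨h4, h6⟩ | ⟨h4, h6⟩ <;> push_cast at * <;> omega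
      · omega
  · rintro ⟨h1, h2, h3, h4, h5, h6⟩
    by_contra hS
    rcases Nat.mod_two_eq_zero_or_one (a + b) with hp | hp
    · rcases Nat.mod_two_eq_zero_or_one e with he | he
      · by_cases hd : 0 ≤ (a:ℤ) - b
        · exact h4 (Or.inl ⟨he, Or.inr ⟨by omega, by push_cast; omega⟩⟩)
        · obtain ⟨b', rfl⟩ : ∃ b', b = b' + 1 := ⟨b - 1, by omega⟩
          exact (h2 b' rfl).2 ⟨by omega, Or.inl ⟨by omega, by push_cast at *; omega⟩⟩
      · by_cases hd : (u:ℤ) + 2 ≤ (a:ℤ) - b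
        · exact hS ⟨he, Or.inr ⟨by omega, hd⟩⟩
        · by_cases hd2 : (a:ℤ) - b ≤ u - 2
          · exact h6 (Or.inl ⟨by omega, Or.inl ⟨by omega, by push_cast; omega⟩⟩)
          · obtain ⟨a', rfl⟩ : ∃ a', a = a' + 1 := ⟨a - 1, by omega⟩
            exact (h3 a' rfl).1 ⟨by omega, Or.inl ⟨by omega, by push_cast at *; omega⟩⟩
    · rcases Nat.mod_two_eq_zero_or_one e with he | he
      · by_cases hd : (a:ℤ) - b ≤ -1
        · exact h5 (Or.inl ⟨he, Or.inl ⟨by omega, by push_cast; omega⟩⟩)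
        · obtain ⟨a', rfl⟩ : ∃ a', a = a' + 1 := ⟨a - 1, by omega⟩
          by_cases hd2 : ((a' + 1 : ℕ):ℤ) - b ≤ u + 3
          · exact (h3 a' rfl).2.2 ⟨by omega, Or.inl ⟨by omega, by push_cast at *; omega⟩⟩
          · exact (h3 a' rfl).2.1 ⟨by omega, Or.inr ⟨by omega, by push_cast at *; omega⟩⟩
      · by_cases hd : (a:ℤ) - b ≤ u - 1
        · exact hS ⟨he, Or.inl ⟨by omega, hd⟩⟩
        · exact h6 (Or.inl ⟨by omega, Or.inr ⟨by omega, by push_cast; omega⟩⟩)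

theorem K0 (a b e : ℕ) : Ini a b e ↔
    (¬ (a = 0 ∧ b = 0 ∧ e = 0) ∧
     (∀ e', e = e' + 1 → ¬ Ini a b e') ∧
     (∀ b', b = b' + 1 → ¬ Ini a b' e ∧ ¬ Ini a b' (e + 1)) ∧
     (∀ a', a = a' + 1 → ¬ Ini a' b e ∧ ¬ Ini a' (b + 2) (e + 1) ∧ ¬ Ini a' (b + 3) (e + 1))) := by
  constructor
  · intro h
    refine ⟨?_, ?_, ?_, ?_⟩
    · rintro ⟨rfl, rfl, rfl⟩
      unfold Ini W at h
      omega
    · rintro e' rfl h'
      unfold Ini W at h h'
      omega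
    · rintro b' rfl
      unfold Ini W at h
      refine ⟨?_, ?_⟩ <;> (intro h'; unfold Ini W at h'; omega)
    · rintro a' rfl
      unfold Ini W at h
      refine ⟨?_, ?_, ?_⟩ <;> (intro h'; unfold Ini W at h'; omega)
  · rintro ⟨h0, h1, h2, h3⟩
    by_contra hS
    rcases Nat.mod_two_eq_zero_or_one (a + b) with hp | hp
    · by_cases hd : (a:ℤ) - b ≤ -2
      · have he : e % 2 = 1 := by
          by_contra he
          exact hS (Or.inl ⟨by omega, Or.inl ⟨by omega, hd⟩⟩)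
        obtain ⟨e', rfl⟩ : ∃ e', e = e' + 1 := ⟨e - 1, by omega⟩
        exact h1 e' rfl (Or.inl ⟨by omega, Or.inl ⟨by omega, hd⟩⟩)
      · rcases Nat.eq_zero_or_pos b with hb | hb
        · subst hb
          rcases Nat.eq_zero_or_pos a with ha | ha
          · subst ha
            rcases Nat.mod_two_eq_zero_or_one e with he | he
            · obtain ⟨e', rfl⟩ : ∃ e', e = e' + 1 := ⟨e - 1, by omega⟩
              exact h1 e' rfl (Or.inr ⟨rfl, rfl, by omega⟩)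
            · exact hS (Or.inr ⟨rfl, rfl, he⟩)
          · obtain ⟨a', rfl⟩ : ∃ a', a = a' + 1 := ⟨a - 1, by omega⟩
            rcases Nat.mod_two_eq_zero_or_one e with he | he
            · exact (h3 a' rfl).1 (Or.inl ⟨by omega, Or.inr ⟨by omega, by push_cast at *; omega⟩⟩)
            · by_cases ha4 : 4 ≤ a' + 1
              · exact (h3 a' rfl).2.1 (Or.inl ⟨by omega, Or.inr ⟨by omega, by push_cast at *; omega⟩⟩)
              · exact (h3 a' rfl).2.2 (Or.inl ⟨by omega, Or.inl ⟨by omega, by push_cast at *; omega⟩⟩)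
        · obtain ⟨b', rfl⟩ : ∃ b', b = b' + 1 := ⟨b - 1, by omega⟩
          rcases Nat.mod_two_eq_zero_or_one e with he | he
          · exact (h2 b' rfl).1 (Or.inl ⟨by omega, Or.inr ⟨by omega, by push_cast at *; omega⟩⟩)
          · exact (h2 b' rfl).2 (Or.inl ⟨by omega, Or.inr ⟨by omega, by push_cast at *; omega⟩⟩)
    · by_cases hd : 1 ≤ (a:ℤ) - b
      · have he : e % 2 = 1 := by
          by_contra he
          exact hS (Or.inl ⟨by omega, Or.inr ⟨by omega, hd⟩⟩)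
        obtain ⟨e', rfl⟩ : ∃ e', e = e' + 1 := ⟨e - 1, by omega⟩
        exact h1 e' rfl (Or.inl ⟨by omega, Or.inr ⟨by omega, hd⟩⟩)
      · by_cases hd3 : (a:ℤ) - b ≤ -3
        · obtain ⟨b', rfl⟩ : ∃ b', b = b' + 1 := ⟨b - 1, by omega⟩
          rcases Nat.mod_two_eq_zero_or_one e with he | he
          · exact (h2 b' rfl).1 (Or.inl ⟨by omega, Or.inl ⟨by omega, by push_cast at *; omega⟩⟩)
          · exact (h2 b' rfl).2 (Or.inl ⟨by omega, Or.inl ⟨by omega, by push_cast at *; omega⟩⟩)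
        · rcases Nat.eq_zero_or_pos a with ha | ha
          · obtain ⟨b', rfl⟩ : ∃ b', b = b' + 1 := ⟨b - 1, by omega⟩
            rcases Nat.mod_two_eq_zero_or_one e with he | he
            · exact (h2 b' rfl).2 (Or.inr ⟨by omega, by omega, by omega⟩)
            · exact (h2 b' rfl).1 (Or.inr ⟨by omega, by omega, by omega⟩)
          · obtain ⟨a', rfl⟩ : ∃ a', a = a' + 1 := ⟨a - 1, by omega⟩
            rcases Nat.mod_two_eq_zero_or_one e with he | he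
            · exact (h3 a' rfl).1 (Or.inl ⟨by omega, Or.inl ⟨by omega, by push_cast at *; omega⟩⟩)
            · exact (h3 a' rfl).2.1 (Or.inl ⟨by omega, Or.inl ⟨by omega, by push_cast at *; omega⟩⟩)

/-- P-positions at level `n` (i.e. with `n` copies of `x`) -/
def F (u : ℕ) : ℕ → ℕ → ℕ → ℕ → Prop
  | 0 => Ini
  | 1 => W 1 ((u:ℤ) - 1) (u + 2)
  | (n + 2) =>
    if (n + 3) % (2 * u + 4) = 0 then W 1 ((u:ℤ) + 1) (u + 4)
    else W 0 (2 * (u:ℤ) + 2 - 2 * (((n + 3) % (2 * u + 4) / 2 : ℕ) : ℤ))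
      (2 * (u:ℤ) + 5 - 2 * ((((n + 3) % (2 * u + 4) - 1) / 2 : ℕ) : ℤ))

theorem F_key (u : ℕ) (hu : u % 2 = 0) (hu4 : 4 ≤ u) (n : ℕ) : Key u (F u n) (F u (n + 1)) := by
  match n with
  | 0 => exact K5 u hu hu4
  | 1 =>
    have h0 : F u (1 + 1) = (if (0 + 3) % (2 * u + 4) = 0 then W 1 ((u:ℤ) + 1) (u + 4)
      else W 0 (2 * (u:ℤ) + 2 - 2 * (((0 + 3) % (2 * u + 4) / 2 : ℕ) : ℤ))
      (2 * (u:ℤ) + 5 - 2 * ((((0 + 3) % (2 * u + 4) - 1) / 2 : ℕ) : ℤ))) := rfl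
    have h : F u (1 + 1) = W 0 (((u:ℤ) - 1) + u + 1) (((u:ℤ) - 1) + u + 4) := by
      rw [h0]
      have h3 : (0 + 3) % (2 * u + 4) = 3 := Nat.mod_eq_of_lt (by omega)
      rw [h3]
      rw [if_neg (by norm_num)]
      have e1 : 2 * (u:ℤ) + 2 - 2 * ((3 / 2 : ℕ) : ℤ) = ((u:ℤ) - 1) + u + 1 := by omega
      have e2 : 2 * (u:ℤ) + 5 - 2 * (((3 - 1) / 2 : ℕ) : ℤ) = ((u:ℤ) - 1) + u + 4 := by omega
      rw [e1, e2]
    rw [h]
    have := K4 u hu hu4 ((u:ℤ) - 1) (by omega) (by omega)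
    have e : (u:ℤ) - 1 + 3 = u + 2 := by ring
    rw [e] at this
    exact this
  | (n + 2) =>
    set Q := 2 * u + 4 with hQ
    have hlt : (n + 3) % Q < Q := Nat.mod_lt _ (by omega)
    have hS : F u (n + 2) = (if (n + 3) % Q = 0 then W 1 ((u:ℤ) + 1) (u + 4)
      else W 0 (2 * (u:ℤ) + 2 - 2 * (((n + 3) % Q / 2 : ℕ) : ℤ))
      (2 * (u:ℤ) + 5 - 2 * ((((n + 3) % Q - 1) / 2 : ℕ) : ℤ))) := rfl
    have hS' : F u (n + 2 + 1) = (if (n + 1 + 3) % Q = 0 then W 1 ((u:ℤ) + 1) (u + 4)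
      else W 0 (2 * (u:ℤ) + 2 - 2 * (((n + 1 + 3) % Q / 2 : ℕ) : ℤ))
      (2 * (u:ℤ) + 5 - 2 * ((((n + 1 + 3) % Q - 1) / 2 : ℕ) : ℤ))) := rfl
    have hstep : (n + 1 + 3) % Q = if (n + 3) % Q = Q - 1 then 0 else (n + 3) % Q + 1 := by
      have h1 : (n + 1 + 3) % Q = ((n + 3) % Q + 1) % Q := by
        rw [Nat.mod_add_mod]
      rw [h1]
      split_ifs with h
      · rw [h]
        have : Q - 1 + 1 = Q := by omega
        rw [this, Nat.mod_self]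
      · exact Nat.mod_eq_of_lt (by omega)
    rw [hS, hS', hstep]
    generalize hr : (n + 3) % Q = r at *
    rcases Nat.eq_zero_or_pos r with hr0 | hr0
    · subst hr0
      rw [if_pos rfl, if_neg (by omega : ¬ (0 = Q - 1)), if_neg (by omega)]
      have := K4 u hu hu4 ((u:ℤ) + 1) (by omega) (by omega)
      have e1 : (u:ℤ) + 1 + 3 = u + 4 := by ring
      rw [e1] at this
      convert this using 2 <;> norm_num <;> ring
    · rw [if_neg (by omega : ¬ (r = 0))]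
      by_cases hrQ : r = Q - 1
      · rw [if_pos hrQ, if_pos rfl]
        have e1 : 2 * (u:ℤ) + 2 - 2 * ((r / 2 : ℕ) : ℤ) = 0 := by omega
        have e2 : 2 * (u:ℤ) + 5 - 2 * (((r - 1) / 2 : ℕ) : ℤ) = 3 := by omega
        rw [e1, e2]
        exact K3 u hu hu4
      · rw [if_neg hrQ, if_neg (by omega)]
        rcases Nat.mod_two_eq_zero_or_one r with hp | hp
        · -- even r : K2
          have e0 : 2 * (u:ℤ) + 5 - 2 * (((r - 1) / 2 : ℕ) : ℤ) = (2 * (u:ℤ) + 2 - 2 * ((r / 2 : ℕ) : ℤ)) + 5 := by omega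
          have e1 : 2 * (u:ℤ) + 2 - 2 * (((r + 1) / 2 : ℕ) : ℤ) = 2 * (u:ℤ) + 2 - 2 * ((r / 2 : ℕ) : ℤ) := by omega
          have e2 : 2 * (u:ℤ) + 5 - 2 * (((r + 1 - 1) / 2 : ℕ) : ℤ) = (2 * (u:ℤ) + 2 - 2 * ((r / 2 : ℕ) : ℤ)) + 3 := by omega
          rw [e0, e1, e2]
          exact K2 u hu hu4 _ (by omega) (by omega)
        · have e0 : 2 * (u:ℤ) + 5 - 2 * (((r - 1) / 2 : ℕ) : ℤ) = (2 * (u:ℤ) + 2 - 2 * ((r / 2 : ℕ) : ℤ)) + 3 := by omega
          have e1 : 2 * (u:ℤ) + 2 - 2 * (((r + 1) / 2 : ℕ) : ℤ) = (2 * (u:ℤ) + 2 - 2 * ((r / 2 : ℕ) : ℤ)) - 2 := by omega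
          have e2 : 2 * (u:ℤ) + 5 - 2 * (((r + 1 - 1) / 2 : ℕ) : ℤ) = (2 * (u:ℤ) + 2 - 2 * ((r / 2 : ℕ) : ℤ)) + 3 := by omega
          rw [e0, e1, e2]
          exact K1 u hu hu4 _ (by omega) (by omega)

abbrev A4 := ℕ × ℕ × ℕ × ℕ

/-- options: `(n,a,b,e)` stands for the sum of `n` copies of `x = {3h, s, u s + *}`, `a` copies of
`h = {0, 2s+*, 3s+*}`, `b` copies of `s = {0, *}` and `e` copies of `*` -/
inductive Opt (u : ℕ) : A4 → A4 → Prop
  | e (n a b e : ℕ) : Opt u (n, a, b, e) (n, a, b, e + 1)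
  | s0 (n a b e : ℕ) : Opt u (n, a, b, e) (n, a, b + 1, e)
  | s1 (n a b e : ℕ) : Opt u (n, a, b, e + 1) (n, a, b + 1, e)
  | h0 (n a b e : ℕ) : Opt u (n, a, b, e) (n, a + 1, b, e)
  | h2 (n a b e : ℕ) : Opt u (n, a, b + 2, e + 1) (n, a + 1, b, e)
  | h3 (n a b e : ℕ) : Opt u (n, a, b + 3, e + 1) (n, a + 1, b, e)
  | x0 (n a b e : ℕ) : Opt u (n, a + 3, b, e) (n + 1, a, b, e)
  | x1 (n a b e : ℕ) : Opt u (n, a, b + 1, e) (n + 1, a, b, e)
  | x2 (n a b e : ℕ) : Opt u (n, a, b + u, e + 1) (n + 1, a, b, e)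

def FF (u : ℕ) (v : A4) : Prop := F u v.1 v.2.1 v.2.2.1 v.2.2.2

theorem FF_rec (u : ℕ) (hu : u % 2 = 0) (hu4 : 4 ≤ u) (v : A4) :
    FF u v ↔ ((∃ w, Opt u w v) ∧ ∀ w, Opt u w v → ¬ FF u w) := by
  obtain ⟨n, a, b, e⟩ := v
  match n with
  | 0 =>
    show Ini a b e ↔ _
    rw [K0]
    constructor
    · rintro ⟨h0, h1, h2, h3⟩
      refine ⟨?_, ?_⟩
      · rcases Nat.eq_zero_or_pos e with he | he
        · rcases Nat.eq_zero_or_pos b with hb | hb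
          · obtain ⟨a', rfl⟩ : ∃ a', a = a' + 1 := ⟨a - 1, by omega⟩
            exact ⟨_, Opt.h0 _ _ _ _⟩
          · obtain ⟨b', rfl⟩ : ∃ b', b = b' + 1 := ⟨b - 1, by omega⟩
            exact ⟨_, Opt.s0 _ _ _ _⟩
        · obtain ⟨e', rfl⟩ : ∃ e', e = e' + 1 := ⟨e - 1, by omega⟩
          exact ⟨_, Opt.e _ _ _ _⟩
      · intro w hw
        cases hw with
        | e n a b e => exact h1 _ rfl
        | s0 n a b e => exact (h2 _ rfl).1
        | s1 n a b e => exact (h2 _ rfl).2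
        | h0 n a b e => exact (h3 _ rfl).1
        | h2 n a b e => exact (h3 _ rfl).2.1
        | h3 n a b e => exact (h3 _ rfl).2.2
    · rintro ⟨⟨w0, hw0⟩, h⟩
      refine ⟨?_, ?_, ?_, ?_⟩
      · rintro ⟨rfl, rfl, rfl⟩
        cases hw0
      · rintro e' rfl
        exact h _ (Opt.e _ _ _ _)
      · rintro b' rfl
        exact ⟨h _ (Opt.s0 _ _ _ _), h _ (Opt.s1 _ _ _ _)⟩
      · rintro a' rfl
        exact ⟨h _ (Opt.h0 _ _ _ _), h _ (Opt.h2 _ _ _ _), h _ (Opt.h3 _ _ _ _)⟩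
  | (n + 1) =>
    show F u (n + 1) a b e ↔ _
    have key := F_key u hu hu4 n a b e
    rw [key]
    constructor
    · rintro ⟨h1, h2, h3, h4, h5, h6⟩
      refine ⟨⟨_, Opt.x0 _ _ _ _⟩, ?_⟩
      intro w hw
      cases hw with
      | e n a b e => exact h1 _ rfl
      | s0 n a b e => exact (h2 _ rfl).1
      | s1 n a b e => exact (h2 _ rfl).2
      | h0 n a b e => exact (h3 _ rfl).1
      | h2 n a b e => exact (h3 _ rfl).2.1
      | h3 n a b e => exact (h3 _ rfl).2.2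
      | x0 n a b e => exact h4
      | x1 n a b e => exact h5
      | x2 n a b e => exact h6
    · rintro ⟨-, h⟩
      refine ⟨?_, ?_, ?_, ?_, ?_, ?_⟩
      · rintro e' rfl
        exact h _ (Opt.e _ _ _ _)
      · rintro b' rfl
        exact ⟨h _ (Opt.s0 _ _ _ _), h _ (Opt.s1 _ _ _ _)⟩
      · rintro a' rfl
        exact ⟨h _ (Opt.h0 _ _ _ _), h _ (Opt.h2 _ _ _ _), h _ (Opt.h3 _ _ _ _)⟩
      · exact h _ (Opt.x0 _ _ _ _)
      · exact h _ (Opt.x1 _ _ _ _)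
      · exact h _ (Opt.x2 _ _ _ _)

theorem Opt_add (u : ℕ) {y x : A4} (h : Opt u y x) (t : A4) : Opt u (y + t) (x + t) := by
  obtain ⟨n', a', b', e'⟩ := t
  cases h with
  | e n a b e =>
    have := Opt.e (u := u) (n + n') (a + a') (b + b') (e + e')
    convert this using 1 <;> simp only [Prod.mk_add_mk, Prod.mk.injEq, and_true, true_and] <;> omega
  | s0 n a b e =>
    have := Opt.s0 (u := u) (n + n') (a + a') (b + b') (e + e')
    convert this using 1 <;> simp only [Prod.mk_add_mk, Prod.mk.injEq, and_true, true_and] <;> omega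
  | s1 n a b e =>
    have := Opt.s1 (u := u) (n + n') (a + a') (b + b') (e + e')
    convert this using 1 <;> simp only [Prod.mk_add_mk, Prod.mk.injEq, and_true, true_and] <;> omega
  | h0 n a b e =>
    have := Opt.h0 (u := u) (n + n') (a + a') (b + b') (e + e')
    convert this using 1 <;> simp only [Prod.mk_add_mk, Prod.mk.injEq, and_true, true_and] <;> omega
  | h2 n a b e =>
    have := Opt.h2 (u := u) (n + n') (a + a') (b + b') (e + e')
    convert this using 1 <;> simp only [Prod.mk_add_mk, Prod.mk.injEq, and_true, true_and] <;> omega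
  | h3 n a b e =>
    have := Opt.h3 (u := u) (n + n') (a + a') (b + b') (e + e')
    convert this using 1 <;> simp only [Prod.mk_add_mk, Prod.mk.injEq, and_true, true_and] <;> omega
  | x0 n a b e =>
    have := Opt.x0 (u := u) (n + n') (a + a') (b + b') (e + e')
    convert this using 1 <;> simp only [Prod.mk_add_mk, Prod.mk.injEq, and_true, true_and] <;> omega
  | x1 n a b e =>
    have := Opt.x1 (u := u) (n + n') (a + a') (b + b') (e + e')
    convert this using 1 <;> simp only [Prod.mk_add_mk, Prod.mk.injEq, and_true, true_and] <;> omega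
  | x2 n a b e =>
    have := Opt.x2 (u := u) (n + n') (a + a') (b + b') (e + e')
    convert this using 1 <;> simp only [Prod.mk_add_mk, Prod.mk.injEq, and_true, true_and] <;> omega

theorem Opt_split (u : ℕ) {w x t : A4} (h : Opt u w (x + t)) :
    (∃ y, Opt u y x ∧ w = y + t) ∨ (∃ t', Opt u t' t ∧ w = x + t') := by
  obtain ⟨n1, a1, b1, e1⟩ := x
  obtain ⟨n2, a2, b2, e2⟩ := t
  generalize hv : ((n1, a1, b1, e1) : A4) + (n2, a2, b2, e2) = v at h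
  cases h with
  | e n a b e =>
    simp only [Prod.mk_add_mk, Prod.mk.injEq] at hv
    obtain ⟨rfl, rfl, rfl, h4⟩ := hv
    rcases Nat.eq_zero_or_pos e1 with h0 | h0
    · obtain ⟨k, rfl⟩ : ∃ k, e2 = k + 1 := ⟨e2 - 1, by omega⟩
      exact Or.inr ⟨_, Opt.e _ _ _ k, by simp only [Prod.mk_add_mk, Prod.mk.injEq, true_and]; omega⟩
    · obtain ⟨k, rfl⟩ : ∃ k, e1 = k + 1 := ⟨e1 - 1, by omega⟩
      exact Or.inl ⟨_, Opt.e _ _ _ k, by simp only [Prod.mk_add_mk, Prod.mk.injEq, true_and]; omega⟩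
  | s0 n a b e =>
    simp only [Prod.mk_add_mk, Prod.mk.injEq] at hv
    obtain ⟨rfl, rfl, h4, rfl⟩ := hv
    rcases Nat.eq_zero_or_pos b1 with h0 | h0
    · obtain ⟨k, rfl⟩ : ∃ k, b2 = k + 1 := ⟨b2 - 1, by omega⟩
      exact Or.inr ⟨_, Opt.s0 _ _ k _, by simp only [Prod.mk_add_mk, Prod.mk.injEq, true_and, and_true]; omega⟩
    · obtain ⟨k, rfl⟩ : ∃ k, b1 = k + 1 := ⟨b1 - 1, by omega⟩
      exact Or.inl ⟨_, Opt.s0 _ _ k _, by simp only [Prod.mk_add_mk, Prod.mk.injEq, true_and, and_true]; omega⟩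
  | s1 n a b e =>
    simp only [Prod.mk_add_mk, Prod.mk.injEq] at hv
    obtain ⟨rfl, rfl, h4, rfl⟩ := hv
    rcases Nat.eq_zero_or_pos b1 with h0 | h0
    · obtain ⟨k, rfl⟩ : ∃ k, b2 = k + 1 := ⟨b2 - 1, by omega⟩
      exact Or.inr ⟨_, Opt.s1 _ _ k _, by simp only [Prod.mk_add_mk, Prod.mk.injEq, true_and]; omega⟩
    · obtain ⟨k, rfl⟩ : ∃ k, b1 = k + 1 := ⟨b1 - 1, by omega⟩
      exact Or.inl ⟨_, Opt.s1 _ _ k _, by simp only [Prod.mk_add_mk, Prod.mk.injEq, true_and]; omega⟩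
  | h0 n a b e =>
    simp only [Prod.mk_add_mk, Prod.mk.injEq] at hv
    obtain ⟨rfl, h4, rfl, rfl⟩ := hv
    rcases Nat.eq_zero_or_pos a1 with h0 | h0
    · obtain ⟨k, rfl⟩ : ∃ k, a2 = k + 1 := ⟨a2 - 1, by omega⟩
      exact Or.inr ⟨_, Opt.h0 _ k _ _, by simp only [Prod.mk_add_mk, Prod.mk.injEq, true_and, and_true]; omega⟩
    · obtain ⟨k, rfl⟩ : ∃ k, a1 = k + 1 := ⟨a1 - 1, by omega⟩
      exact Or.inl ⟨_, Opt.h0 _ k _ _, by simp only [Prod.mk_add_mk, Prod.mk.injEq, true_and, and_true]; omega⟩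
  | h2 n a b e =>
    simp only [Prod.mk_add_mk, Prod.mk.injEq] at hv
    obtain ⟨rfl, h4, rfl, rfl⟩ := hv
    rcases Nat.eq_zero_or_pos a1 with h0 | h0
    · obtain ⟨k, rfl⟩ : ∃ k, a2 = k + 1 := ⟨a2 - 1, by omega⟩
      exact Or.inr ⟨_, Opt.h2 _ k _ _, by simp only [Prod.mk_add_mk, Prod.mk.injEq, true_and]; omega⟩
    · obtain ⟨k, rfl⟩ : ∃ k, a1 = k + 1 := ⟨a1 - 1, by omega⟩
      exact Or.inl ⟨_, Opt.h2 _ k _ _, by simp only [Prod.mk_add_mk, Prod.mk.injEq, true_and]; omega⟩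
  | h3 n a b e =>
    simp only [Prod.mk_add_mk, Prod.mk.injEq] at hv
    obtain ⟨rfl, h4, rfl, rfl⟩ := hv
    rcases Nat.eq_zero_or_pos a1 with h0 | h0
    · obtain ⟨k, rfl⟩ : ∃ k, a2 = k + 1 := ⟨a2 - 1, by omega⟩
      exact Or.inr ⟨_, Opt.h3 _ k _ _, by simp only [Prod.mk_add_mk, Prod.mk.injEq, true_and]; omega⟩
    · obtain ⟨k, rfl⟩ : ∃ k, a1 = k + 1 := ⟨a1 - 1, by omega⟩
      exact Or.inl ⟨_, Opt.h3 _ k _ _, by simp only [Prod.mk_add_mk, Prod.mk.injEq, true_and]; omega⟩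
  | x0 n a b e =>
    simp only [Prod.mk_add_mk, Prod.mk.injEq] at hv
    obtain ⟨h4, rfl, rfl, rfl⟩ := hv
    rcases Nat.eq_zero_or_pos n1 with h0 | h0
    · obtain ⟨k, rfl⟩ : ∃ k, n2 = k + 1 := ⟨n2 - 1, by omega⟩
      exact Or.inr ⟨_, Opt.x0 k _ _ _, by simp only [Prod.mk_add_mk, Prod.mk.injEq, and_true]; omega⟩
    · obtain ⟨k, rfl⟩ : ∃ k, n1 = k + 1 := ⟨n1 - 1, by omega⟩
      exact Or.inl ⟨_, Opt.x0 k _ _ _, by simp only [Prod.mk_add_mk, Prod.mk.injEq, and_true]; omega⟩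
  | x1 n a b e =>
    simp only [Prod.mk_add_mk, Prod.mk.injEq] at hv
    obtain ⟨h4, rfl, rfl, rfl⟩ := hv
    rcases Nat.eq_zero_or_pos n1 with h0 | h0
    · obtain ⟨k, rfl⟩ : ∃ k, n2 = k + 1 := ⟨n2 - 1, by omega⟩
      exact Or.inr ⟨_, Opt.x1 k _ _ _, by simp only [Prod.mk_add_mk, Prod.mk.injEq, true_and, and_true]; omega⟩
    · obtain ⟨k, rfl⟩ : ∃ k, n1 = k + 1 := ⟨n1 - 1, by omega⟩
      exact Or.inl ⟨_, Opt.x1 k _ _ _, by simp only [Prod.mk_add_mk, Prod.mk.injEq, true_and, and_true]; omega⟩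
  | x2 n a b e =>
    simp only [Prod.mk_add_mk, Prod.mk.injEq] at hv
    obtain ⟨h4, rfl, rfl, rfl⟩ := hv
    rcases Nat.eq_zero_or_pos n1 with h0 | h0
    · obtain ⟨k, rfl⟩ : ∃ k, n2 = k + 1 := ⟨n2 - 1, by omega⟩
      exact Or.inr ⟨_, Opt.x2 k _ _ _, by simp only [Prod.mk_add_mk, Prod.mk.injEq, true_and]; omega⟩
    · obtain ⟨k, rfl⟩ : ∃ k, n1 = k + 1 := ⟨n1 - 1, by omega⟩
      exact Or.inl ⟨_, Opt.x2 k _ _ _, by simp only [Prod.mk_add_mk, Prod.mk.injEq, true_and]; omega⟩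

theorem Opt_sum (u : ℕ) (s : Multiset A4) : ∀ w, Opt u w s.sum →
    ∃ a t b, s = a ::ₘ t ∧ Opt u b a ∧ w = b + t.sum := by
  induction s using Multiset.induction with
  | empty =>
    intro w hw
    simp only [Multiset.sum_zero] at hw
    exfalso
    generalize hv : (0 : A4) = v at hw
    cases hw <;> (simp only [Prod.ext_iff, Prod.fst_zero, Prod.snd_zero] at hv; omega)
  | cons a s ih =>
    intro w hw
    rw [Multiset.sum_cons] at hw
    rcases Opt_split u hw with ⟨y, hy, rfl⟩ | ⟨t', ht', rfl⟩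
    · exact ⟨a, s, y, rfl, hy, rfl⟩
    · obtain ⟨a', t'', b', rfl, hb', rfl⟩ := ih t' ht'
      refine ⟨a', a ::ₘ t'', b', Multiset.cons_swap _ _ _, hb', ?_⟩
      rw [Multiset.sum_cons]
      rw [← add_assoc, ← add_assoc, add_comm a b']

theorem FF_per (u n k : ℕ) (hn : 2 ≤ n) (a b e : ℕ) :
    F u (n + k * (2 * u + 4)) a b e ↔ F u n a b e := by
  obtain ⟨m, rfl⟩ : ∃ m, n = m + 2 := ⟨n - 2, by omega⟩
  have h : m + 2 + k * (2 * u + 4) = (m + k * (2 * u + 4)) + 2 := by ring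
  rw [h]
  have h2 : (m + k * (2 * u + 4) + 3) % (2 * u + 4) = (m + 3) % (2 * u + 4) := by
    have : m + k * (2 * u + 4) + 3 = (m + 3) + k * (2 * u + 4) := by ring
    rw [this, Nat.add_mul_mod_self_right]
  show (if (m + k * (2 * u + 4) + 3) % (2 * u + 4) = 0 then W 1 ((u:ℤ) + 1) (u + 4)
      else W 0 (2 * (u:ℤ) + 2 - 2 * (((m + k * (2 * u + 4) + 3) % (2 * u + 4) / 2 : ℕ) : ℤ))
      (2 * (u:ℤ) + 5 - 2 * ((((m + k * (2 * u + 4) + 3) % (2 * u + 4) - 1) / 2 : ℕ) : ℤ))) a b e ↔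
    (if (m + 3) % (2 * u + 4) = 0 then W 1 ((u:ℤ) + 1) (u + 4)
      else W 0 (2 * (u:ℤ) + 2 - 2 * (((m + 3) % (2 * u + 4) / 2 : ℕ) : ℤ))
      (2 * (u:ℤ) + 5 - 2 * ((((m + 3) % (2 * u + 4) - 1) / 2 : ℕ) : ℤ))) a b e
  rw [h2]

theorem F_one (u n : ℕ) (hn : 2 ≤ n) (h : (n + 1) % (2 * u + 4) = 0) : F u n 0 1 1 := by
  obtain ⟨m, rfl⟩ : ∃ m, n = m + 2 := ⟨n - 2, by omega⟩
  show (if (m + 3) % (2 * u + 4) = 0 then W 1 ((u:ℤ) + 1) (u + 4)
      else W 0 (2 * (u:ℤ) + 2 - 2 * (((m + 3) % (2 * u + 4) / 2 : ℕ) : ℤ))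
      (2 * (u:ℤ) + 5 - 2 * ((((m + 3) % (2 * u + 4) - 1) / 2 : ℕ) : ℤ))) 0 1 1
  have h' : (m + 3) % (2 * u + 4) = 0 := h
  rw [if_pos h']
  exact ⟨by norm_num, Or.inl ⟨by norm_num, by push_cast; omega⟩⟩

theorem F_zero (u n : ℕ) (hn : 2 ≤ n) (h : (n + 1) % (2 * u + 4) ≠ 0) : ¬ F u n 0 1 1 := by
  obtain ⟨m, rfl⟩ : ∃ m, n = m + 2 := ⟨n - 2, by omega⟩
  show ¬ (if (m + 3) % (2 * u + 4) = 0 then W 1 ((u:ℤ) + 1) (u + 4)
      else W 0 (2 * (u:ℤ) + 2 - 2 * (((m + 3) % (2 * u + 4) / 2 : ℕ) : ℤ))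
      (2 * (u:ℤ) + 5 - 2 * ((((m + 3) % (2 * u + 4) - 1) / 2 : ℕ) : ℤ))) 0 1 1
  have h' : (m + 3) % (2 * u + 4) ≠ 0 := h
  rw [if_neg h']
  unfold W
  omega


theorem Opt_wt (u : ℕ) {y x : A4} (h : Opt u y x) :
    (2 * u + 26) * y.1 + 8 * y.2.1 + 2 * y.2.2.1 + y.2.2.2 <
      (2 * u + 26) * x.1 + 8 * x.2.1 + 2 * x.2.2.1 + x.2.2.2 := by
  cases h with
  | e n a b e => simp only; omega
  | s0 n a b e => simp only; omega
  | s1 n a b e => simp only; omega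
  | h0 n a b e => simp only; omega
  | h2 n a b e => simp only; omega
  | h3 n a b e => simp only; omega
  | x0 n a b e =>
    have : (2 * u + 26) * (n + 1) = (2 * u + 26) * n + (2 * u + 26) := by ring
    simp only; omega
  | x1 n a b e =>
    have : (2 * u + 26) * (n + 1) = (2 * u + 26) * n + (2 * u + 26) := by ring
    simp only; omega
  | x2 n a b e =>
    have : (2 * u + 26) * (n + 1) = (2 * u + 26) * n + (2 * u + 26) := by ring
    simp only; omega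


/-- For every p ≥ 1 there is a closed class of short games and a sum g of them whose misère-quotient element has period exactly p: g^n equals g^(n+p) for some n, and no smaller q ≥ 1 works. -/
theorem result :
  ∀ p : ℕ, 0 < p → ∃ (α : Type) (opt : α → α → Prop), WellFounded opt ∧
    (∀ a : α, {b : α | opt b a}.Finite) ∧
    ∃ P : Multiset α → Prop,
      (∀ s : Multiset α, P s ↔
        ((∃ a : α, ∃ t : Multiset α, ∃ b : α, s = a ::ₘ t ∧ opt b a) ∧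
          ∀ a : α, ∀ t : Multiset α, ∀ b : α, s = a ::ₘ t → opt b a → ¬ P (b ::ₘ t))) ∧
      ∃ g : Multiset α,
        (∃ n : ℕ, ∀ X : Multiset α, (P (n • g + X) ↔ P ((n + p) • g + X))) ∧
        ∀ q : ℕ, 0 < q → q < p →
          ¬ ∃ n : ℕ, ∀ X : Multiset α, (P (n • g + X) ↔ P ((n + q) • g + X)) := by
  intro p hp
  obtain ⟨k0, rfl⟩ : ∃ k0, p = k0 + 1 := ⟨p - 1, by omega⟩
  set u : ℕ := 8 * k0 + 6 with hu
  have hu2 : u % 2 = 0 := by omega
  have hu4 : 4 ≤ u := by omega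
  have hQ : 2 * u + 4 = 16 * (k0 + 1) := by omega
  refine ⟨A4, Opt u, ?_, ?_, (fun s => FF u s.sum), ?_, {(16, 0, 0, 0)}, ?_, ?_⟩
  · refine Subrelation.wf (r := InvImage (· < ·)
      (fun G : A4 => (2 * u + 26) * G.1 + 8 * G.2.1 + 2 * G.2.2.1 + G.2.2.2)) ?_
      (InvImage.wf _ wellFounded_lt)
    intro y x h
    exact Opt_wt u h
  · rintro ⟨n, a, b, e⟩
    refine Set.Finite.subset (Set.toFinite ({(n, a, b, e - 1), (n, a, b - 1, e), (n, a, b - 1, e + 1),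
      (n, a - 1, b, e), (n, a - 1, b + 2, e + 1), (n, a - 1, b + 3, e + 1), (n - 1, a + 3, b, e),
      (n - 1, a, b + 1, e), (n - 1, a, b + u, e + 1)} : Set A4)) ?_
    rintro w hw
    change Opt u w (n, a, b, e) at hw
    cases hw <;> simp
  · intro s
    show FF u s.sum ↔ _
    rw [FF_rec u hu2 hu4]
    constructor
    · rintro ⟨⟨w, hw⟩, h⟩
      refine ⟨?_, ?_⟩
      · obtain ⟨a, t, b, hs, hb, -⟩ := Opt_sum u s w hw
        exact ⟨a, t, b, hs, hb⟩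
      · intro a t b hs hb hP
        refine h (b + t.sum) ?_ ?_
        · rw [hs, Multiset.sum_cons]
          exact Opt_add u hb _
        · simpa only [Multiset.sum_cons] using hP
    · rintro ⟨⟨a, t, b, hs, hb⟩, h⟩
      refine ⟨⟨b + t.sum, ?_⟩, ?_⟩
      · rw [hs, Multiset.sum_cons]
        exact Opt_add u hb _
      · intro w hw hP
        obtain ⟨a, t, b, hs, hb, rfl⟩ := Opt_sum u s w hw
        refine h a t b hs hb ?_
        simpa only [Multiset.sum_cons] using hP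
  · refine ⟨1, fun X => ?_⟩
    simp only [Multiset.sum_add, Multiset.sum_nsmul, Multiset.sum_singleton]
    obtain ⟨k, a, b, e⟩ := X.sum
    have e1 : (1 • ((16, 0, 0, 0) : A4) + (k, a, b, e)) = (16 + k, a, b, e) := by
      simp
    have e2 : ((1 + (k0 + 1)) • ((16, 0, 0, 0) : A4) + (k, a, b, e)) = ((16 + k) + 1 * (2 * u + 4), a, b, e) := by
      rw [hQ]
      simp only [Prod.smul_mk, smul_eq_mul, Prod.mk_add_mk, Prod.mk.injEq, mul_zero, zero_add, and_true]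
      ring
    rw [e1, e2]
    exact (FF_per u (16 + k) 1 (by omega) a b e).symm
  · rintro q hq0 hqp ⟨n, hn⟩
    have h := hn {((2 * u + 3) * (16 * n + 1), 0, 1, 1)}
    simp only [Multiset.sum_add, Multiset.sum_nsmul, Multiset.sum_singleton] at h
    have e1 : (n • ((16, 0, 0, 0) : A4) + ((2 * u + 3) * (16 * n + 1), 0, 1, 1))
        = (16 * n + (2 * u + 3) * (16 * n + 1), 0, 1, 1) := by
      simp only [Prod.smul_mk, smul_eq_mul, Prod.mk_add_mk, Prod.mk.injEq, mul_zero, zero_add, and_true]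
      ring
    have e2 : ((n + q) • ((16, 0, 0, 0) : A4) + ((2 * u + 3) * (16 * n + 1), 0, 1, 1))
        = (16 * n + (2 * u + 3) * (16 * n + 1) + 16 * q, 0, 1, 1) := by
      simp only [Prod.smul_mk, smul_eq_mul, Prod.mk_add_mk, Prod.mk.injEq, mul_zero, zero_add, and_true]
      ring
    rw [e1, e2] at h
    have hbig : 2 ≤ 16 * n + (2 * u + 3) * (16 * n + 1) := by nlinarith
    have h1 : F u (16 * n + (2 * u + 3) * (16 * n + 1)) 0 1 1 := by
      apply F_one u _ hbig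
      have : 16 * n + (2 * u + 3) * (16 * n + 1) + 1 = (2 * u + 4) * (16 * n + 1) := by ring
      rw [this, Nat.mul_mod_right]
    have h2 : ¬ F u (16 * n + (2 * u + 3) * (16 * n + 1) + 16 * q) 0 1 1 := by
      apply F_zero u _ (by omega)
      have : 16 * n + (2 * u + 3) * (16 * n + 1) + 16 * q + 1 = 16 * q + (2 * u + 4) * (16 * n + 1) := by ring
      rw [this, Nat.add_mul_mod_self_left, Nat.mod_eq_of_lt (by omega)]
      omega
    exact h2 (h.1 h1)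

end Pool.Agent.S07531
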