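import Pool.Statements.S01091
-- import your own Pool.Agent.* helpers here

set_option autoImplicit false
open scoped ComplexOrder
open Pool Pool.MP_65a4af_al

namespace Pool.Agent.S01091

section helpers
open Matrix


lemma diag_pos {m : ℕ} (M : Matrix (Fin m) (Fin m) ℝ) (v : Fin m → ℝ)
    (hM : ∀ i j, i ≠ j → M i j ≤ 0) (hv : ∀ i, 0 < v i) (h : ∀ i, 0 < ∑ j, M i j * v j) (i : Fin m) :
    0 < M i i := by
  have h1 := h i
  rw [← Finset.add_sum_erase _ _ (Finset.mem_univ i)] at h1
  have h2 : ∑ x ∈ Finset.univ.erase i, M i x * v x ≤ 0 := by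
    apply Finset.sum_nonpos
    intro j hj
    exact mul_nonpos_of_nonpos_of_nonneg (hM i j (Finset.ne_of_mem_erase hj).symm) (hv j).le
  have h3 : 0 < M i i * v i := by linarith
  by_contra hc
  have := mul_nonpos_of_nonpos_of_nonneg (not_lt.mp hc) (hv i).le
  linarith

lemma det_schur {m : ℕ} (M : Matrix (Fin (m+1)) (Fin (m+1)) ℝ) (h0 : M 0 0 ≠ 0) :
    M.det = M 0 0 * (Matrix.of (fun i j : Fin m => M i.succ j.succ - M i.succ 0 * M 0 j.succ / M 0 0)).det := by
  set c : Fin (m+1) → ℝ := fun i => if i = 0 then 0 else M i 0 / M 0 0 with hc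
  set B : Matrix (Fin (m+1)) (Fin (m+1)) ℝ := Matrix.of (fun i j => M i j - c i * M 0 j) with hB
  have h1 : M.det = B.det := by
    apply Matrix.det_eq_of_forall_row_eq_smul_add_const c 0 (by simp [hc])
    intro i j
    simp [hB, hc]
  rw [h1, Matrix.det_succ_column_zero, Finset.sum_eq_single 0]
  · have e1 : B 0 0 = M 0 0 := by simp [hB, hc]
    have e2 : B.submatrix (Fin.succAbove 0) Fin.succ = Matrix.of (fun i j : Fin m => M i.succ j.succ - M i.succ 0 * M 0 j.succ / M 0 0) := by
      ext i j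
      simp only [Matrix.submatrix_apply, Fin.succAbove_zero, hB, hc, Matrix.of_apply, Fin.succ_ne_zero, if_false]
      ring
    rw [e1, e2]
    simp
  · intro i _ hi
    obtain ⟨k, rfl⟩ := Fin.exists_succ_eq.mpr hi
    have : B k.succ 0 = 0 := by
      simp only [hB, hc, Matrix.of_apply, Fin.succ_ne_zero, if_false]
      field_simp
      ring
    rw [this]; ring
  · intro h; exact absurd (Finset.mem_univ _) h

lemma zmat : ∀ (m : ℕ) (M : Matrix (Fin m) (Fin m) ℝ) (v : Fin m → ℝ),
    (∀ i j, i ≠ j → M i j ≤ 0) → (∀ i, 0 < v i) → (∀ i, 0 < ∑ j, M i j * v j) →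
    0 < M.det ∧ M.det ≤ ∏ i, M i i := by
  intro m
  induction m with
  | zero => intro M v _ _ _; simp
  | succ m ih =>
    intro M v hM hv h
    have h00 := diag_pos M v hM hv h 0
    set S : Matrix (Fin m) (Fin m) ℝ := Matrix.of (fun i j : Fin m => M i.succ j.succ - M i.succ 0 * M 0 j.succ / M 0 0) with hS
    have hSd : ∀ i j : Fin m, S i j ≤ M i.succ j.succ := by
      intro i j
      simp only [hS, Matrix.of_apply]
      have a1 := hM i.succ 0 (Fin.succ_ne_zero _)
      have a2 := hM 0 j.succ (Fin.succ_ne_zero _).symm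
      have : 0 ≤ M i.succ 0 * M 0 j.succ / M 0 0 := div_nonneg (mul_nonneg_of_nonpos_of_nonpos a1 a2) h00.le
      linarith
    have hSo : ∀ i j, i ≠ j → S i j ≤ 0 := by
      intro i j hij
      exact (hSd i j).trans (hM _ _ (fun hh => hij (Fin.succ_injective _ hh)))
    have hSv : ∀ i, 0 < ∑ j, S i j * v j.succ := by
      intro i
      have b1 := h i.succ
      have b0 := h 0
      rw [Fin.sum_univ_succ] at b1 b0
      have a1 := hM i.succ 0 (Fin.succ_ne_zero _)
      have e : ∑ j, S i j * v j.succ = ∑ j : Fin m, M i.succ j.succ * v j.succ - (M i.succ 0 / M 0 0) * ∑ j : Fin m, M 0 j.succ * v j.succ := by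
        rw [Finset.mul_sum, ← Finset.sum_sub_distrib]
        apply Finset.sum_congr rfl
        intro j _
        simp only [hS, Matrix.of_apply]
        field_simp
      rw [e]
      have b2 : -(M 0 0 * v 0) < ∑ j : Fin m, M 0 j.succ * v j.succ := by linarith
      have c0 : M i.succ 0 / M 0 0 ≤ 0 := div_nonpos_of_nonpos_of_nonneg a1 h00.le
      have c1 : (M i.succ 0 / M 0 0) * (∑ j : Fin m, M 0 j.succ * v j.succ) ≤ (M i.succ 0 / M 0 0) * (-(M 0 0 * v 0)) :=
        mul_le_mul_of_nonpos_left b2.le c0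
      have c2 : (M i.succ 0 / M 0 0) * (-(M 0 0 * v 0)) = - (M i.succ 0 * v 0) := by
        field_simp
      linarith
    obtain ⟨d1, d2⟩ := ih S (fun j => v j.succ) hSo (fun j => hv _) hSv
    have hSdiag := diag_pos S (fun j => v j.succ) hSo (fun j => hv _) hSv
    rw [det_schur M h00.ne']
    refine ⟨mul_pos h00 d1, ?_⟩
    rw [Fin.prod_univ_succ]
    apply mul_le_mul_of_nonneg_left _ h00.le
    refine d2.trans ?_
    apply Finset.prod_le_prod
    · intro i _; exact (hSdiag i).le
    · intro i _; exact hSd i i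

open Polynomial in
lemma deriv_charpoly {n : ℕ} (A : Matrix (Fin (n+1)) (Fin (n+1)) ℝ) (x : ℝ) :
    (derivative A.charpoly).eval x =
      ∑ i : Fin (n+1), ((Matrix.scalar (Fin (n+1)) x - A).submatrix i.succAbove i.succAbove).det := by
  have h1 : derivative A.charpoly = ∑ i : Fin (n+1), (A.charmatrix.updateCol i (Pi.single i 1)).det := by
    rw [Matrix.charpoly, Matrix.det_apply, derivative_sum]
    simp_rw [Matrix.det_apply]
    rw [Finset.sum_comm]
    apply Finset.sum_congr rfl
    intro σ _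
    rw [Units.smul_def, map_zsmul]
    simp_rw [Units.smul_def]
    rw [derivative_prod_finset, Finset.smul_sum]
    apply Finset.sum_congr rfl
    intro i _
    congr 1
    rw [← Finset.mul_prod_erase _ _ (Finset.mem_univ i), mul_comm]
    congr 1
    · by_cases hi : σ i = i
      · rw [hi]; simp [Matrix.charmatrix_apply]
      · simp [Matrix.charmatrix_apply, hi, Matrix.diagonal_apply_ne]
    · apply Finset.prod_congr rfl
      intro j hj
      rw [Matrix.updateCol_ne (Finset.ne_of_mem_erase hj)]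
  rw [h1, eval_finsetSum]
  apply Finset.sum_congr rfl
  intro i _
  have h2 : (A.charmatrix.updateCol i (Pi.single i 1)).det = (A.charmatrix.submatrix i.succAbove i.succAbove).det := by
    have := Matrix.adjugate_fin_succ_eq_det_submatrix A.charmatrixᵀ i i
    rw [Matrix.adjugate_apply, Matrix.updateRow_transpose, Matrix.det_transpose] at this
    rw [this, ← Matrix.transpose_submatrix, Matrix.det_transpose]
    have : Even ((i:ℕ) + (i:ℕ)) := ⟨_, rfl⟩
    rw [this.neg_one_pow, one_mul]
  rw [h2]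
  have h3 : eval x ((A.charmatrix.submatrix i.succAbove i.succAbove).det) =
      (((evalRingHom x).mapMatrix) (A.charmatrix.submatrix i.succAbove i.succAbove)).det := by
    rw [← RingHom.map_det]; rfl
  rw [h3]
  congr 1
  ext a b
  simp only [RingHom.mapMatrix_apply, Matrix.map_apply, Matrix.submatrix_apply, Matrix.charmatrix_apply,
    coe_evalRingHom, eval_sub, eval_C, Matrix.sub_apply, Matrix.scalar_apply, Matrix.diagonal_apply]
  split_ifs <;> simp


section gelf
open scoped NNReal ENNReal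
attribute [local instance] Matrix.linftyOpNormedRing Matrix.linftyOpNormedAlgebra

lemma pow_small {n : ℕ} (A : Matrix (Fin (n+1)) (Fin (n+1)) ℝ)
    (h : ∀ z ∈ (A.map (algebraMap ℝ ℂ)).charpoly.roots, ‖z‖ ≤ 1) (x : ℝ) (hx : 1 < x) :
    ∃ k : ℕ, 1 ≤ k ∧ ∀ i, ∑ j, |(A ^ k) i j| < x ^ k := by
  set a : Matrix (Fin (n+1)) (Fin (n+1)) ℂ := A.map (algebraMap ℝ ℂ) with ha
  have hx0 : 0 < x := by linarith
  set r : ℝ≥0 := ⟨x, hx0.le⟩ with hr
  have hs : spectralRadius ℂ a < r := by
    apply spectrum.spectralRadius_lt_of_forall_lt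
    intro z hz
    have hz' : z ∈ a.charpoly.roots := by
      rw [Polynomial.mem_roots a.charpoly_monic.ne_zero]
      exact Matrix.mem_spectrum_iff_isRoot_charpoly.mp hz
    have := h z hz'
    rw [← NNReal.coe_lt_coe]
    simp only [coe_nnnorm, hr]
    exact lt_of_le_of_lt this hx
  have ht := spectrum.pow_nnnorm_pow_one_div_tendsto_nhds_spectralRadius a
  have he := (ht.eventually (gt_mem_nhds hs)).and (Filter.eventually_ge_atTop 1)
  obtain ⟨k, hk1, hk2⟩ := he.exists
  refine ⟨k, hk2, ?_⟩
  have hk0 : (k : ℝ) ≠ 0 := by positivity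
  have h1 : (‖a ^ k‖₊ : ℝ≥0∞) < (r : ℝ≥0∞) ^ (k:ℝ) := by
    have := ENNReal.rpow_lt_rpow hk1 (show (0:ℝ) < k by positivity)
    rwa [← ENNReal.rpow_mul, one_div, inv_mul_cancel₀ hk0, ENNReal.rpow_one] at this
  have h2 : ‖a ^ k‖₊ < r ^ k := by
    rw [ENNReal.rpow_natCast] at h1
    exact_mod_cast h1
  intro i
  have h3 : ∑ j, ‖(a ^ k) i j‖₊ ≤ ‖a ^ k‖₊ := by
    rw [Matrix.linfty_opNNNorm_def]
    exact Finset.le_sup (f := fun i => ∑ j, ‖(a ^ k) i j‖₊) (Finset.mem_univ i)
  have h4 : ∑ j, ‖(a ^ k) i j‖₊ < r ^ k := lt_of_le_of_lt h3 h2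
  have h5 : ∑ j, ‖(a ^ k) i j‖ < x ^ k := by
    have := NNReal.coe_lt_coe.mpr h4
    push_cast at this
    exact this
  have h6 : a ^ k = (A ^ k).map (algebraMap ℝ ℂ) := by
    have := map_pow ((algebraMap ℝ ℂ).mapMatrix (m := Fin (n+1))) A k
    simp only [RingHom.mapMatrix_apply] at this
    rw [ha, this]
  rw [h6] at h5
  simpa using h5

end gelf

lemma exists_vec {n : ℕ} (A : Matrix (Fin (n+1)) (Fin (n+1)) ℝ) (hA : ∀ i j, 0 ≤ A i j)
    (h : ∀ z ∈ (A.map (algebraMap ℝ ℂ)).charpoly.roots, ‖z‖ ≤ 1) (x : ℝ) (hx : 1 < x) :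
    ∃ v : Fin (n+1) → ℝ, (∀ i, 0 < v i) ∧ ∀ i, ∑ j, A i j * v j < x * v i := by
  obtain ⟨k, hk, hs⟩ := pow_small A h x hx
  have hx0 : 0 < x := by linarith
  have hpow : ∀ m i j, 0 ≤ (A ^ m) i j := by
    intro m
    induction m with
    | zero => intro i j; rw [pow_zero, Matrix.one_apply]; split_ifs <;> norm_num
    | succ m ih =>
      intro i j
      rw [pow_succ, Matrix.mul_apply]
      exact Finset.sum_nonneg (fun l _ => mul_nonneg (ih i l) (hA l j))
  set w : ℕ → Fin (n+1) → ℝ := fun m i => ∑ j, (A ^ m) i j with hw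
  have hw0 : ∀ i, w 0 i = 1 := by
    intro i; simp [hw, Matrix.one_apply]
  have hwn : ∀ m i, 0 ≤ w m i := fun m i => Finset.sum_nonneg (fun j _ => hpow m i j)
  have hws : ∀ m i, ∑ l, A i l * w m l = w (m+1) i := by
    intro m i
    simp only [hw, Finset.mul_sum]
    rw [Finset.sum_comm]
    apply Finset.sum_congr rfl
    intro j _
    rw [pow_succ', Matrix.mul_apply]
  refine ⟨fun i => ∑ m ∈ Finset.range k, x⁻¹ ^ m * w m i, ?_, ?_⟩
  · intro i
    have : x⁻¹ ^ 0 * w 0 i ≤ ∑ m ∈ Finset.range k, x⁻¹ ^ m * w m i :=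
      Finset.single_le_sum (f := fun m => x⁻¹ ^ m * w m i)
        (fun m _ => mul_nonneg (by positivity) (hwn m i)) (Finset.mem_range.mpr (by omega))
    rw [hw0] at this
    have h1 : x⁻¹ ^ 0 * (1:ℝ) = 1 := by norm_num
    linarith
  · intro i
    have e1 : ∑ j, A i j * ∑ m ∈ Finset.range k, x⁻¹ ^ m * w m j
        = ∑ m ∈ Finset.range k, x⁻¹ ^ m * w (m+1) i := by
      simp_rw [Finset.mul_sum]
      rw [Finset.sum_comm]
      apply Finset.sum_congr rfl
      intro m _
      rw [← hws, Finset.mul_sum]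
      apply Finset.sum_congr rfl
      intro j _
      ring
    have e2 : x * ∑ m ∈ Finset.range k, x⁻¹ ^ m * w m i - ∑ m ∈ Finset.range k, x⁻¹ ^ m * w (m+1) i
        = x * (x⁻¹ ^ 0 * w 0 i) - x * (x⁻¹ ^ k * w k i) := by
      rw [Finset.mul_sum, ← Finset.sum_sub_distrib, ← Finset.sum_range_sub' (fun m => x * (x⁻¹ ^ m * w m i)) k]
      apply Finset.sum_congr rfl
      intro m _
      rw [pow_succ]
      field_simp
    rw [e1]
    have e3 : w k i < x ^ k := by
      have := hs i
      have e : ∑ j, |(A ^ k) i j| = w k i := by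
        apply Finset.sum_congr rfl
        intro j _
        exact abs_of_nonneg (hpow k i j)
      rwa [e] at this
    have e4 : x⁻¹ ^ k * w k i < 1 := by
      rw [inv_pow, inv_mul_lt_iff₀ (by positivity)]
      linarith
    have e5 : x⁻¹ ^ 0 * w 0 i = 1 := by rw [hw0]; norm_num
    rw [e5] at e2
    nlinarith

lemma main_real {n : ℕ} (hn : 1 ≤ n) (A : Matrix (Fin (n+1)) (Fin (n+1)) ℝ) (hA : ∀ i j, 0 ≤ A i j)
    (h : ∀ z ∈ (A.map (algebraMap ℝ ℂ)).charpoly.roots, ‖z‖ ≤ 1) :
    (Polynomial.derivative A.charpoly).eval 1 ≤ (n + 1 : ℝ) - A.trace := by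
  -- the key inequality for x > 1
  have key : ∀ x : ℝ, 1 < x → (∀ i, 0 < x - A i i) ∧ (Polynomial.derivative A.charpoly).eval x ≤
      ∑ i : Fin (n+1), ∏ j : Fin n, (x - A (i.succAbove j) (i.succAbove j)) := by
    intro x hx
    obtain ⟨v, hv, hAv⟩ := exists_vec A hA h x hx
    set N : Matrix (Fin (n+1)) (Fin (n+1)) ℝ := Matrix.scalar (Fin (n+1)) x - A with hN
    have hNd : ∀ i, N i i = x - A i i := by
      intro i; simp [hN]
    have hNo : ∀ i j, i ≠ j → N i j = - A i j := by
      intro i j hij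
      simp [hN, Matrix.diagonal_apply_ne _ hij]
    have hNo' : ∀ i j, i ≠ j → N i j ≤ 0 := by
      intro i j hij; rw [hNo i j hij]; linarith [hA i j]
    have hNv : ∀ i, 0 < ∑ j, N i j * v j := by
      intro i
      have e : ∑ j, N i j * v j = x * v i - ∑ j, A i j * v j := by
        have : ∀ j, N i j * v j = (if i = j then x * v j else 0) - A i j * v j := by
          intro j
          simp only [hN, Matrix.sub_apply, Matrix.scalar_apply, Matrix.diagonal_apply]
          split_ifs <;> ring
        simp_rw [this, Finset.sum_sub_distrib]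
        simp
      rw [e]
      linarith [hAv i]
    have hdp := diag_pos N v hNo' hv hNv
    refine ⟨fun i => by rw [← hNd]; exact hdp i, ?_⟩
    rw [deriv_charpoly]
    apply Finset.sum_le_sum
    intro i _
    have hz := zmat n (N.submatrix i.succAbove i.succAbove) (fun j => v (i.succAbove j))
      (fun a b hab => hNo' _ _ (fun hh => hab (Fin.succAbove_right_injective hh)))
      (fun j => hv _)
      (by
        intro a
        have h1 := hNv (i.succAbove a)
        rw [Fin.sum_univ_succAbove _ i] at h1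
        have h2 : N (i.succAbove a) i * v i ≤ 0 :=
          mul_nonpos_of_nonpos_of_nonneg (hNo' _ _ (Fin.succAbove_ne i a)) (hv i).le
        simp only [Matrix.submatrix_apply]
        linarith)
    refine hz.2.trans (le_of_eq ?_)
    apply Finset.prod_congr rfl
    intro j _
    simp only [Matrix.submatrix_apply]
    exact hNd _
  have hdiag : ∀ i, A i i ≤ 1 := by
    intro i
    by_contra hc
    push Not at hc
    have := (key (A i i) hc).1 i
    linarith
  -- pass to the limit
  have hlim : (Polynomial.derivative A.charpoly).eval 1 ≤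
      ∑ i : Fin (n+1), ∏ j : Fin n, ((1:ℝ) - A (i.succAbove j) (i.succAbove j)) := by
    have c1 : Filter.Tendsto (fun x : ℝ => (Polynomial.derivative A.charpoly).eval x)
        (nhdsWithin 1 (Set.Ioi 1)) (nhds ((Polynomial.derivative A.charpoly).eval 1)) :=
      ((Polynomial.continuous _).tendsto 1).mono_left nhdsWithin_le_nhds
    have c2 : Filter.Tendsto (fun x : ℝ => ∑ i : Fin (n+1), ∏ j : Fin n, (x - A (i.succAbove j) (i.succAbove j)))
        (nhdsWithin 1 (Set.Ioi 1)) (nhds (∑ i : Fin (n+1), ∏ j : Fin n, ((1:ℝ) - A (i.succAbove j) (i.succAbove j)))) := by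
      have : Continuous (fun x : ℝ => ∑ i : Fin (n+1), ∏ j : Fin n, (x - A (i.succAbove j) (i.succAbove j))) := by
        fun_prop
      exact (this.tendsto 1).mono_left nhdsWithin_le_nhds
    apply le_of_tendsto_of_tendsto c1 c2
    filter_upwards [self_mem_nhdsWithin] with x hx
    exact (key x hx).2
  refine hlim.trans ?_
  have hsum : ∑ i : Fin (n+1), ((1:ℝ) - A (i+1) (i+1)) = (n + 1 : ℝ) - A.trace := by
    have e := Equiv.sum_comp (Equiv.addRight (1 : Fin (n+1))) (fun i => (1:ℝ) - A i i)
    simp only [Equiv.coe_addRight] at e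
    rw [e, Finset.sum_sub_distrib]
    simp [Matrix.trace]
  rw [← hsum]
  apply Finset.sum_le_sum
  intro i _
  have hne : i + 1 ≠ i := by
    intro hh
    have h1 : (1 : Fin (n+1)) = 0 := by
      have := congrArg (fun t => t - i) hh
      simpa using this
    have h2 : ((1 : Fin (n+1)) : ℕ) = ((0 : Fin (n+1)) : ℕ) := congrArg Fin.val h1
    have h4 : ((1 : Fin (n+1)) : ℕ) = 1 % (n+1) := rfl
    have h5 : ((0 : Fin (n+1)) : ℕ) = 0 := rfl
    have h3 : 1 % (n+1) = 1 := Nat.mod_eq_of_lt (by omega)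
    omega
  obtain ⟨j0, hj0⟩ := Fin.exists_succAbove_eq hne
  rw [← Finset.mul_prod_erase _ _ (Finset.mem_univ j0), hj0]
  apply mul_le_of_le_one_right
  · linarith [hdiag (i+1)]
  · apply Finset.prod_le_one
    · intro j _; linarith [hdiag (i.succAbove j)]
    · intro j _; linarith [hA (i.succAbove j) (i.succAbove j)]

end helpers


/-- For every nonnegative real (n+1)×(n+1) matrix (n ≥ 1) with spectral radius 1, listing its eigenvalues with multiplicity as 1, λ₁,…,λₙ, the product of the (1−λⱼ) is at most their sum. -/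
theorem result :
    ∀ n : ℕ, 1 ≤ n → ∀ A : Matrix (Fin (n + 1)) (Fin (n + 1)) ℝ,
      (∀ i j, 0 ≤ A i j) →
      (1 : ℂ) ∈ (A.map (algebraMap ℝ ℂ)).charpoly.roots →
      (∀ z ∈ (A.map (algebraMap ℝ ℂ)).charpoly.roots, ‖z‖ ≤ 1) →
      ((((A.map (algebraMap ℝ ℂ)).charpoly.roots).erase 1).map (fun z : ℂ => 1 - z)).prod
        ≤ ((((A.map (algebraMap ℝ ℂ)).charpoly.roots).erase 1).map (fun z : ℂ => 1 - z)).sum := by
  intro n hn A hA h1 h
  set a : Matrix (Fin (n+1)) (Fin (n+1)) ℂ := A.map (algebraMap ℝ ℂ) with ha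
  have hsplit : a.charpoly = (a.charpoly.roots.map (fun z => Polynomial.X - Polynomial.C z)).prod := by
    exact ((IsAlgClosed.splits a.charpoly).eq_prod_roots_of_monic a.charpoly_monic)
  have hcons : a.charpoly.roots = 1 ::ₘ (a.charpoly.roots.erase 1) := (Multiset.cons_erase h1).symm
  have hprod : ((a.charpoly.roots.erase 1).map (fun z : ℂ => 1 - z)).prod
      = (((Polynomial.derivative A.charpoly).eval 1 : ℝ) : ℂ) := by
    have e1 : a.charpoly = (Polynomial.X - Polynomial.C 1) *
        ((a.charpoly.roots.erase 1).map (fun z => Polynomial.X - Polynomial.C z)).prod := by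
      conv_lhs => rw [hsplit, hcons]
      rw [Multiset.map_cons, Multiset.prod_cons]
    have e2 : (Polynomial.derivative a.charpoly).eval 1 = ((a.charpoly.roots.erase 1).map (fun z : ℂ => 1 - z)).prod := by
      rw [e1, Polynomial.derivative_mul, Polynomial.eval_add, Polynomial.eval_mul, Polynomial.eval_mul]
      simp only [Polynomial.derivative_sub, Polynomial.derivative_X, Polynomial.derivative_C, sub_zero,
        Polynomial.eval_one, one_mul, Polynomial.eval_sub, Polynomial.eval_X, Polynomial.eval_C, sub_self,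
        zero_mul, add_zero]
      rw [← e1, Polynomial.eval_multiset_prod, Multiset.map_map]
      congr 1
      apply Multiset.map_congr rfl
      intro z _
      simp
    rw [← e2, ha, Matrix.charpoly_map, Polynomial.derivative_map]
    have := Polynomial.eval_map_apply (algebraMap ℝ ℂ) (p := Polynomial.derivative A.charpoly) (1:ℝ)
    rw [map_one] at this
    rw [this]
    rfl
  have hsum : ((a.charpoly.roots.erase 1).map (fun z : ℂ => 1 - z)).sum
      = (((n + 1 : ℝ) - A.trace : ℝ) : ℂ) := by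
    have t1 : a.trace = a.charpoly.roots.sum :=
      Matrix.trace_eq_sum_roots_charpoly_of_splits (IsAlgClosed.splits _)
    have t2 : a.trace = ((A.trace : ℝ) : ℂ) := by
      rw [ha]
      simp [Matrix.trace]
    have t3 : Multiset.card a.charpoly.roots = n + 1 := by
      rw [← (IsAlgClosed.splits a.charpoly).natDegree_eq_card_roots, Matrix.charpoly_natDegree_eq_dim]
      simp
    have t4 : ((a.charpoly.roots).map (fun z : ℂ => 1 - z)).sum = (n + 1 : ℂ) - a.trace := by
      rw [Multiset.sum_map_sub, Multiset.map_id', ← t1, Multiset.map_const', Multiset.sum_replicate, t3]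
      simp
    rw [hcons, Multiset.map_cons, Multiset.sum_cons] at t4
    simp only [sub_self, zero_add] at t4
    rw [t4, t2]
    push_cast
    ring
  rw [hprod, hsum]
  exact_mod_cast main_real hn A hA h

end Pool.Agent.S01091
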