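import Pool.Statements.S01958
-- import your own Pool.Agent.* helpers here

set_option autoImplicit false
open Pool Pool.MP_bd517a_al

namespace Pool.Agent.S01958

/-- The group `AGL(1,8) = F_8 ⋊ F_8^*` of order 56; `(k, v)` is `x ↦ α^k x + v`. -/
structure G56 where
  k : Fin 7
  v : Fin 8
deriving DecidableEq, Fintype

/-- multiplication by `α^k` on `F_8` (bit encoding, `α^3 = α + 1`) -/
def Mt : Fin 7 → Fin 8 → Fin 8 := fun k v =>
  (![![0, 1, 2, 3, 4, 5, 6, 7], ![0, 2, 4, 6, 3, 1, 7, 5], ![0, 4, 3, 7, 6, 2, 5, 1],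
     ![0, 3, 6, 5, 7, 4, 1, 2], ![0, 6, 7, 1, 5, 3, 2, 4], ![0, 7, 5, 2, 1, 6, 4, 3],
     ![0, 5, 1, 4, 2, 7, 3, 6]] k) v

def xr (a b : Fin 8) : Fin 8 := Fin.ofNat 8 (a.val ^^^ b.val)

lemma Mt_add : ∀ (k : Fin 7) (a b : Fin 8), Mt k (xr a b) = xr (Mt k a) (Mt k b) := by decide +kernel
lemma Mt_mul : ∀ (k l : Fin 7) (a : Fin 8), Mt k (Mt l a) = Mt (k + l) a := by decide +kernel
lemma xr_assoc : ∀ a b c : Fin 8, xr (xr a b) c = xr a (xr b c) := by decide +kernel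
lemma Mt_zero : ∀ a : Fin 8, Mt 0 a = a := by decide +kernel
lemma Mt_zero' : ∀ k : Fin 7, Mt k 0 = 0 := by decide +kernel
lemma xr_zero : ∀ a : Fin 8, xr a 0 = a := by decide +kernel
lemma zero_xr : ∀ a : Fin 8, xr 0 a = a := by decide +kernel
lemma xr_self : ∀ a : Fin 8, xr a a = 0 := by decide +kernel

instance : Mul G56 := ⟨fun p q => ⟨p.k + q.k, xr p.v (Mt p.k q.v)⟩⟩
instance : One G56 := ⟨⟨0, 0⟩⟩
instance : Inv G56 := ⟨fun p => ⟨-p.k, Mt (-p.k) p.v⟩⟩

lemma mul_def' (p q : G56) : p * q = ⟨p.k + q.k, xr p.v (Mt p.k q.v)⟩ := rfl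
lemma one_def' : (1 : G56) = ⟨0, 0⟩ := rfl
lemma inv_def' (p : G56) : p⁻¹ = ⟨-p.k, Mt (-p.k) p.v⟩ := rfl

instance : Group G56 where
  mul_assoc a b c := by
    simp only [mul_def', Mt_add, Mt_mul, xr_assoc, add_assoc]
  one_mul a := by
    simp only [mul_def', one_def', Mt_zero, zero_xr, zero_add]
  mul_one a := by
    simp only [mul_def', one_def', Mt_zero', xr_zero, add_zero]
  inv_mul_cancel a := by
    simp only [mul_def', one_def', inv_def', xr_self, neg_add_cancel]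

def s1 : G56 := ⟨1, 0⟩
def s2 : G56 := ⟨1, 1⟩
def t1 : G56 := ⟨6, 0⟩
def t2 : G56 := ⟨6, 1⟩

def dec (n : ℕ) : G56 := ⟨Fin.ofNat 7 (n / 8), Fin.ofNat 8 (n % 8)⟩

def ftab : List ℕ := [0, 1, 4, 5, 3, 2, 7, 6, 48, 49, 53, 52, 50, 51, 55, 54, 40, 44, 45, 41, 47, 43, 42, 46, 32, 36, 34, 38, 39, 35, 37, 33, 24, 28, 26, 30, 25, 29, 27, 31, 16, 23, 18, 21, 17, 22, 19, 20, 8, 11, 14, 13, 9, 10, 15, 12]
def gtab : List ℕ := [0, 1, 5, 4, 2, 3, 7, 6, 48, 52, 53, 49, 55, 51, 50, 54, 40, 44, 42, 46, 47, 43, 45, 41, 32, 36, 34, 38, 33, 37, 35, 39, 24, 31, 26, 29, 25, 30, 27, 28, 16, 19, 22, 21, 17, 18, 23, 20, 8, 9, 12, 13, 11, 10, 15, 14]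

def ff (x : G56) : G56 := dec (ftab.getD (x.k.val * 8 + x.v.val) 0)
def gg (x : G56) : G56 := dec (gtab.getD (x.k.val * 8 + x.v.val) 0)

instance (p : G56 → Prop) [DecidablePred p] : Decidable (∀ x, p x) :=
  decidable_of_iff (∀ (k : Fin 7) (v : Fin 8), p ⟨k, v⟩)
    ⟨fun h x => h x.k x.v, fun h k v => h ⟨k, v⟩⟩

lemma gf : ∀ x, gg (ff x) = x := by decide +kernel
lemma fg : ∀ x, ff (gg x) = x := by decide +kernel

def F : G56 ≃ G56 := ⟨ff, gg, gf, fg⟩

lemma out1 : ∀ x, (ff (x * s1) = ff x * t1 ∧ ff (x * s2) = ff x * t2) ∨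
    (ff (x * s1) = ff x * t2 ∧ ff (x * s2) = ff x * t1) := by decide +kernel

def SS : Set G56 := {s1, s2}
def TT : Set G56 := {t1, t2}

lemma iso (x y : G56) : x⁻¹ * y ∈ SS ↔ (F x)⁻¹ * F y ∈ TT := by
  have h1 : x⁻¹ * y ∈ SS ↔ (y = x * s1 ∨ y = x * s2) := by
    simp only [SS, Set.mem_insert_iff, Set.mem_singleton_iff, inv_mul_eq_iff_eq_mul]
  have h2 : (F x)⁻¹ * F y ∈ TT ↔ (F y = F x * t1 ∨ F y = F x * t2) := by
    simp only [TT, Set.mem_insert_iff, Set.mem_singleton_iff, inv_mul_eq_iff_eq_mul]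
  rw [h1, h2]
  constructor
  · rintro (h | h)
    · subst h
      rcases out1 x with ⟨a, _⟩ | ⟨a, _⟩
      · exact Or.inl a
      · exact Or.inr a
    · subst h
      rcases out1 x with ⟨_, a⟩ | ⟨_, a⟩
      · exact Or.inr a
      · exact Or.inl a
  · rintro (h | h)
    · rcases out1 x with ⟨a, _⟩ | ⟨_, a⟩
      · left; apply F.injective; rw [h]; exact a.symm
      · right; apply F.injective; rw [h]; exact a.symm
    · rcases out1 x with ⟨_, a⟩ | ⟨a, _⟩
      · right; apply F.injective; rw [h]; exact a.symm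
      · left; apply F.injective; rw [h]; exact a.symm

def kk : G56 := s2 * s1⁻¹

def wd (a b c : Bool) (e : Fin 7) : G56 :=
  (if a then kk else 1) * (if b then s1 * kk * s1⁻¹ else 1) *
    (if c then s1 * (s1 * kk * s1⁻¹) * s1⁻¹ else 1) * s1 ^ e.val

lemma all_wd : ∀ x, ∃ a b c : Bool, wd a b c x.k = x := by decide +kernel

lemma gen : Subgroup.closure SS = ⊤ := by
  rw [eq_top_iff]
  intro x _
  have h1 : s1 ∈ Subgroup.closure SS := Subgroup.subset_closure (by simp [SS])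
  have h2 : s2 ∈ Subgroup.closure SS := Subgroup.subset_closure (by simp [SS])
  have hk : kk ∈ Subgroup.closure SS := mul_mem h2 (inv_mem h1)
  have hk1 : s1 * kk * s1⁻¹ ∈ Subgroup.closure SS := mul_mem (mul_mem h1 hk) (inv_mem h1)
  have hk2 : s1 * (s1 * kk * s1⁻¹) * s1⁻¹ ∈ Subgroup.closure SS :=
    mul_mem (mul_mem h1 hk1) (inv_mem h1)
  obtain ⟨a, b, c, h⟩ := all_wd x
  rw [← h]
  unfold wd
  refine mul_mem (mul_mem (mul_mem ?_ ?_) ?_) (pow_mem h1 _)
  · split_ifs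
    · exact hk
    · exact one_mem _
  · split_ifs
    · exact hk1
    · exact one_mem _
  · split_ifs
    · exact hk2
    · exact one_mem _

lemma not_cyclic (s : G56) (h : Subgroup.zpowers s = ⊤) : False := by
  have h1 : s1 ∈ Subgroup.zpowers s := by rw [h]; trivial
  have h2 : s2 ∈ Subgroup.zpowers s := by rw [h]; trivial
  rw [Subgroup.mem_zpowers_iff] at h1 h2
  obtain ⟨i, hi⟩ := h1
  obtain ⟨j, hj⟩ := h2
  have : s1 * s2 = s2 * s1 := by
    rw [← hi, ← hj, ← zpow_add, ← zpow_add, add_comm]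
  exact absurd this (by decide +kernel)

lemma minimal (S' : Set G56) (hS : S' ⊂ SS) : Subgroup.closure S' ≠ ⊤ := by
  intro h
  have hs : ∃ s, S' ⊆ {s} := by
    by_cases h1 : s1 ∈ S'
    · refine ⟨s1, ?_⟩
      intro x hx
      rcases hS.1 hx with h2 | h2
      · exact h2
      · exfalso
        apply hS.2
        intro y hy
        rcases hy with h3 | h3
        · rw [h3]; exact h1
        · rw [h3, ← h2]; exact hx
    · refine ⟨s2, ?_⟩
      intro x hx
      rcases hS.1 hx with h2 | h2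
      · rw [h2] at hx; exact absurd hx h1
      · exact h2
  obtain ⟨s, hs⟩ := hs
  apply not_cyclic s
  rw [eq_top_iff, ← h, Subgroup.zpowers_eq_closure]
  exact Subgroup.closure_mono hs

/-- The relation `(g^3 k g^-3)(g k g^-1) k = 1`, where `k = b a⁻¹`, `g = a`. -/
def rel (a b : G56) : G56 :=
  (a * (a * (a * (b * a⁻¹) * a⁻¹) * a⁻¹) * a⁻¹) * (a * (b * a⁻¹) * a⁻¹) * (b * a⁻¹)

lemma rel_map (σ : MulAut G56) (a b : G56) : σ (rel a b) = rel (σ a) (σ b) := by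
  simp only [rel, map_mul, map_inv]

lemma no_aut (σ : MulAut G56) : ⇑σ '' SS ≠ TT := by
  intro h
  have e1 : σ s1 ∈ TT := by rw [← h]; exact ⟨s1, by simp [SS], rfl⟩
  have e2 : σ s2 ∈ TT := by rw [← h]; exact ⟨s2, by simp [SS], rfl⟩
  have ne : σ s1 ≠ σ s2 := fun hh => absurd (σ.injective hh) (by decide +kernel)
  have r : rel (σ s1) (σ s2) = 1 := by
    rw [← rel_map, show rel s1 s2 = 1 by decide +kernel, map_one]
  rcases e1 with e1 | e1 <;> rcases e2 with e2 | e2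
  · exact ne (e1.trans e2.symm)
  · have e2' : σ s2 = t2 := e2
    rw [e1, e2'] at r
    exact absurd r (by decide +kernel)
  · have e1' : σ s1 = t2 := e1
    rw [e1', e2] at r
    exact absurd r (by decide +kernel)
  · exact ne (Eq.trans e1 (Eq.symm e2))


/-- The negation of the preceding statement: In every finite group, every inclusion-minimal generating set S is a CI-subset: if Cay(G,S) and Cay(G,T) are isomorphic digraphs, some group automorphism maps S onto T. -/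
theorem result :
    ¬ (∀ (G : Type) [Group G] [Finite G] (S : Set G),
      (Subgroup.closure S = ⊤ ∧ ∀ S' : Set G, S' ⊂ S → Subgroup.closure S' ≠ ⊤) →
      ∀ T : Set G,
        (∃ f : G ≃ G, ∀ x y : G, x⁻¹ * y ∈ S ↔ (f x)⁻¹ * f y ∈ T) →
        ∃ σ : MulAut G, ⇑σ '' S = T) := by
  intro H
  obtain ⟨σ, hσ⟩ := H G56 SS ⟨gen, minimal⟩ TT ⟨F, iso⟩
  exact no_aut σ hσ

end Pool.Agent.S01958
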