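import Pool.Statements.S02578
-- import your own Pool.Agent.* helpers here

set_option autoImplicit false
open Pool Pool.MP_01e6d0_an

namespace Pool.Agent.S02578

/-- Rudin Shapiro coefficient pair -/
def pq : ℕ → (ℕ → ℤ) × (ℕ → ℤ)
  | 0 => (fun _ => 1, fun _ => 1)
  | k + 1 => (fun n => if n < 2 ^ k then (pq k).1 n else (pq k).2 (n - 2 ^ k),
      fun n => if n < 2 ^ k then (pq k).1 n else - (pq k).2 (n - 2 ^ k))

lemma pq_pm (k : ℕ) : ∀ n, ((pq k).1 n = 1 ∨ (pq k).1 n = -1) ∧ ((pq k).2 n = 1 ∨ (pq k).2 n = -1) := by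
  induction k with
  | zero => intro n; simp [pq]
  | succ k ih =>
    intro n
    have h1 := ih n
    have h2 := ih (n - 2 ^ k)
    simp only [pq]
    constructor
    · split_ifs
      · exact h1.1
      · exact h2.2
    · split_ifs
      · exact h1.1
      · rcases h2.2 with h | h
        · right; rw [h]
        · left; rw [h]; norm_num

lemma pq_mono {k j n : ℕ} (hkj : k ≤ j) (hn : n < 2 ^ k) : (pq j).1 n = (pq k).1 n := by
  induction j, hkj using Nat.le_induction with
  | base => rfl
  | succ j hj ih =>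
    simp only [pq]
    rw [if_pos (lt_of_lt_of_le hn (Nat.pow_le_pow_right (by norm_num) hj))]
    exact ih

/-- the sign sequence -/
def r (n : ℕ) : ℤ := (pq n).1 n

lemma r_eq {k n : ℕ} (hn : n < 2 ^ k) : r n = (pq k).1 n := by
  unfold r
  have hn' : n < 2 ^ n := Nat.lt_two_pow_self
  rcases le_total k n with h | h
  · exact pq_mono h hn
  · exact (pq_mono h hn').symm

lemma r_zero : r 0 = 1 := by simp [r, pq]

lemma r_pm (n : ℕ) : r n = 1 ∨ r n = -1 := (pq_pm n n).1

lemma P_rec (k : ℕ) (z : ℂ) : ∑ n ∈ Finset.range (2 ^ (k + 1)), ((pq (k + 1)).1 n : ℂ) * z ^ n =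
    (∑ n ∈ Finset.range (2 ^ k), ((pq k).1 n : ℂ) * z ^ n) +
      z ^ (2 ^ k) * ∑ n ∈ Finset.range (2 ^ k), ((pq k).2 n : ℂ) * z ^ n := by
  rw [pow_succ, mul_two, Finset.sum_range_add, Finset.mul_sum]
  congr 1
  · apply Finset.sum_congr rfl
    intro n hn
    rw [Finset.mem_range] at hn
    simp only [pq, if_pos hn]
  · apply Finset.sum_congr rfl
    intro n _
    have h1 : ¬ (2 ^ k + n < 2 ^ k) := by omega
    have h2 : 2 ^ k + n - 2 ^ k = n := by omega
    simp only [pq, if_neg h1, h2]
    rw [pow_add]; ring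

lemma Q_rec (k : ℕ) (z : ℂ) : ∑ n ∈ Finset.range (2 ^ (k + 1)), ((pq (k + 1)).2 n : ℂ) * z ^ n =
    (∑ n ∈ Finset.range (2 ^ k), ((pq k).1 n : ℂ) * z ^ n) -
      z ^ (2 ^ k) * ∑ n ∈ Finset.range (2 ^ k), ((pq k).2 n : ℂ) * z ^ n := by
  rw [pow_succ, mul_two, Finset.sum_range_add, Finset.mul_sum, sub_eq_add_neg, ← Finset.sum_neg_distrib]
  congr 1
  · apply Finset.sum_congr rfl
    intro n hn
    rw [Finset.mem_range] at hn
    simp only [pq, if_pos hn]
  · apply Finset.sum_congr rfl
    intro n _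
    have h1 : ¬ (2 ^ k + n < 2 ^ k) := by omega
    have h2 : 2 ^ k + n - 2 ^ k = n := by omega
    simp only [pq, if_neg h1, h2]
    rw [pow_add]; push_cast; ring

lemma norm_pq (k : ℕ) (z : ℂ) (hz : ‖z‖ = 1) :
    ‖∑ n ∈ Finset.range (2 ^ k), ((pq k).1 n : ℂ) * z ^ n‖ ^ 2 +
      ‖∑ n ∈ Finset.range (2 ^ k), ((pq k).2 n : ℂ) * z ^ n‖ ^ 2 = 2 ^ (k + 1) := by
  induction k with
  | zero => simp [pq]; norm_num
  | succ k ih =>
    rw [P_rec, Q_rec]
    set a := ∑ n ∈ Finset.range (2 ^ k), ((pq k).1 n : ℂ) * z ^ n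
    set b := ∑ n ∈ Finset.range (2 ^ k), ((pq k).2 n : ℂ) * z ^ n
    have h := parallelogram_law_with_norm ℝ a (z ^ (2 ^ k) * b)
    have h2 : ‖z ^ (2 ^ k) * b‖ = ‖b‖ := by rw [norm_mul, norm_pow, hz, one_pow, one_mul]
    rw [h2] at h
    rw [pow_succ 2 (k + 1)]
    nlinarith

/-- the cosines -/
noncomputable def c (j : ℕ) (t : ℝ) : ℝ := Real.cos (((j : ℝ) + 1) * Real.pi * t)

lemma h_bound (k : ℕ) (t : ℝ) : |∑ n ∈ Finset.range (2 ^ k), (r n : ℝ) * c n t| ≤
    Real.sqrt (2 ^ (k + 1)) := by
  set z : ℂ := Complex.exp ((Real.pi * t : ℝ) * Complex.I) with hzdef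
  have hz : ‖z‖ = 1 := Complex.norm_exp_ofReal_mul_I _
  have h1 := norm_pq k z hz
  have h2 : ∑ n ∈ Finset.range (2 ^ k), (r n : ℝ) * c n t =
      (z * ∑ n ∈ Finset.range (2 ^ k), ((pq k).1 n : ℂ) * z ^ n).re := by
    rw [Finset.mul_sum, Complex.re_sum]
    apply Finset.sum_congr rfl
    intro n hn
    rw [Finset.mem_range] at hn
    rw [r_eq hn]
    have h3 : z * (((pq k).1 n : ℂ) * z ^ n) = (((pq k).1 n : ℝ) : ℂ) * z ^ (n + 1) := by
      push_cast; ring
    rw [h3, Complex.re_ofReal_mul]
    congr 1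
    rw [hzdef, ← Complex.exp_nat_mul]
    have h4 : ((n + 1 : ℕ) : ℂ) * ((Real.pi * t : ℝ) * Complex.I) =
        ((((n : ℝ) + 1) * Real.pi * t : ℝ) : ℂ) * Complex.I := by push_cast; ring
    rw [h4, Complex.exp_ofReal_mul_I_re]
    rfl
  rw [h2]
  refine (Complex.abs_re_le_norm _).trans ?_
  rw [norm_mul, hz, one_mul]
  apply Real.le_sqrt_of_sq_le
  nlinarith [sq_nonneg ‖∑ n ∈ Finset.range (2 ^ k), ((pq k).2 n : ℂ) * z ^ n‖]

lemma c_cont (j : ℕ) : Continuous (c j) := by unfold c; continuity

lemma int_cos (k : ℤ) (hk : k ≠ 0) : ∫ t in (0:ℝ)..1, Real.cos ((k : ℝ) * Real.pi * t) = 0 := by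
  have hne : (k : ℝ) * Real.pi ≠ 0 := mul_ne_zero (by exact_mod_cast hk) Real.pi_ne_zero
  rw [intervalIntegral.integral_comp_mul_left (fun x => Real.cos x) hne, integral_cos]
  simp

lemma int_c (j : ℕ) : ∫ t in (0:ℝ)..1, c j t = 0 := by
  have := int_cos ((j : ℤ) + 1) (by omega)
  push_cast at this
  exact this

lemma int_cc (j l : ℕ) : ∫ t in (0:ℝ)..1, c j t * c l t = if j = l then 1 / 2 else 0 := by
  have h : ∀ t, c j t * c l t = (1 / 2) * Real.cos ((((j : ℤ) - l : ℤ) : ℝ) * Real.pi * t) +
      (1 / 2) * Real.cos ((((j : ℤ) + l + 2 : ℤ) : ℝ) * Real.pi * t) := by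
    intro t
    unfold c
    have e1 : (((j : ℤ) - l : ℤ) : ℝ) * Real.pi * t = ((j : ℝ) + 1) * Real.pi * t -
      ((l : ℝ) + 1) * Real.pi * t := by push_cast; ring
    have e2 : (((j : ℤ) + l + 2 : ℤ) : ℝ) * Real.pi * t = ((j : ℝ) + 1) * Real.pi * t +
      ((l : ℝ) + 1) * Real.pi * t := by push_cast; ring
    rw [e1, e2, Real.cos_sub, Real.cos_add]
    ring
  simp only [h]
  rw [intervalIntegral.integral_add (Continuous.intervalIntegrable (by continuity) _ _)
    (Continuous.intervalIntegrable (by continuity) _ _), intervalIntegral.integral_const_mul,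
    intervalIntegral.integral_const_mul, int_cos ((j : ℤ) + l + 2) (by omega)]
  split_ifs with hjl
  · subst hjl; simp
  · rw [int_cos ((j : ℤ) - l) (by omega)]; simp

/-- counting function -/
def cnt (i : ℕ) : ℕ := ((Finset.range i).filter (fun j => r j = 1)).card

/-- coefficient matrix -/
def m (i j : ℕ) : ℝ :=
  if r i = 1 then (if j = i then -(cnt i : ℝ) else if r j = 1 then 1 else 0)
  else (if j = i then 1 else 0)

/-- the system -/
noncomputable def ph (i : ℕ) (t : ℝ) : ℝ :=
  if i = 0 then 1 else ∑ j ∈ Finset.range (i + 1), m i j * c j t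

lemma ph_cont (i : ℕ) : Continuous (ph i) := by
  unfold ph
  split_ifs
  · exact continuous_const
  · exact continuous_finsetSum _ (fun j _ => continuous_const.mul (c_cont j))

lemma int_lin (i : ℕ) (l : ℕ) (w : ℕ → ℝ) :
    ∫ t in (0:ℝ)..1, (∑ j ∈ Finset.range (i + 1), w j * c j t) * c l t =
      if l < i + 1 then w l / 2 else 0 := by
  have h : ∀ t, (∑ j ∈ Finset.range (i + 1), w j * c j t) * c l t =
      ∑ j ∈ Finset.range (i + 1), w j * (c j t * c l t) := by
    intro t; rw [Finset.sum_mul]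
    exact Finset.sum_congr rfl (fun j _ => by ring)
  simp only [h]
  rw [intervalIntegral.integral_finsetSum]
  · simp only [intervalIntegral.integral_const_mul, int_cc]
    simp only [mul_ite, mul_zero, Finset.sum_ite_eq', Finset.mem_range]
    split_ifs <;> ring
  · intro j _
    exact Continuous.intervalIntegrable
      (continuous_const.mul ((c_cont j).mul (c_cont l))) _ _

lemma int_one (i : ℕ) (w : ℕ → ℝ) :
    ∫ t in (0:ℝ)..1, (∑ j ∈ Finset.range (i + 1), w j * c j t) = 0 := by
  rw [intervalIntegral.integral_finsetSum]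
  · simp only [intervalIntegral.integral_const_mul, int_c]
    simp
  · intro j _
    exact Continuous.intervalIntegrable (continuous_const.mul (c_cont j)) _ _

lemma int_two (i l : ℕ) (hil : i < l) (w u : ℕ → ℝ) :
    ∫ t in (0:ℝ)..1, (∑ j ∈ Finset.range (i + 1), w j * c j t) *
      (∑ k ∈ Finset.range (l + 1), u k * c k t) = ∑ j ∈ Finset.range (i + 1), w j * u j / 2 := by
  have h : ∀ t, (∑ j ∈ Finset.range (i + 1), w j * c j t) *
      (∑ k ∈ Finset.range (l + 1), u k * c k t) =
      ∑ j ∈ Finset.range (i + 1), w j * ((∑ k ∈ Finset.range (l + 1), u k * c k t) * c j t) := by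
    intro t; rw [Finset.sum_mul]
    exact Finset.sum_congr rfl (fun j _ => by ring)
  simp only [h]
  rw [intervalIntegral.integral_finsetSum]
  · simp only [intervalIntegral.integral_const_mul, int_lin]
    apply Finset.sum_congr rfl
    intro j hj
    rw [Finset.mem_range] at hj
    rw [if_pos (by omega)]
    ring
  · intro j _
    exact Continuous.intervalIntegrable
      (continuous_const.mul ((continuous_finsetSum _ (fun j _ => continuous_const.mul (c_cont j))).mul
        (c_cont j))) _ _

lemma sum_m (i : ℕ) (h : r i = 1) : ∑ j ∈ Finset.range (i + 1), (if r j = 1 then m i j else 0) = 0 := by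
  rw [Finset.sum_range_succ, if_pos h]
  have h1 : ∑ j ∈ Finset.range i, (if r j = 1 then m i j else 0) = (cnt i : ℝ) := by
    unfold cnt
    rw [Finset.card_filter]
    push_cast
    apply Finset.sum_congr rfl
    intro j hj
    rw [Finset.mem_range] at hj
    have hm : m i j = if r j = 1 then 1 else 0 := by
      unfold m
      rw [if_pos h, if_neg (show ¬ j = i by omega)]
    rw [hm]
    split_ifs <;> rfl
  rw [h1]
  unfold m
  rw [if_pos h, if_pos rfl]
  ring

lemma orth_lt (i l : ℕ) (hil : i < l) : ∫ t in (0:ℝ)..1, ph i t * ph l t = 0 := by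
  have hl : l ≠ 0 := by omega
  by_cases hi : i = 0
  · subst hi
    have : ∀ t, ph 0 t * ph l t = ∑ j ∈ Finset.range (l + 1), m l j * c j t := by
      intro t
      unfold ph
      rw [if_pos rfl, if_neg hl, one_mul]
    simp only [this]
    exact int_one l _
  · have : ∀ t, ph i t * ph l t = (∑ j ∈ Finset.range (i + 1), m i j * c j t) *
      (∑ k ∈ Finset.range (l + 1), m l k * c k t) := by
      intro t
      unfold ph
      rw [if_neg hi, if_neg hl]
    simp only [this]
    rw [int_two i l hil]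
    by_cases hr : r l = 1
    · have h2 : ∀ j ∈ Finset.range (i + 1), m i j * m l j / 2 =
        (if r j = 1 then m i j else 0) / 2 := by
        intro j hj
        rw [Finset.mem_range] at hj
        have : m l j = if r j = 1 then 1 else 0 := by
          unfold m
          rw [if_pos hr, if_neg (by omega)]
        rw [this]
        split_ifs <;> ring
      rw [Finset.sum_congr rfl h2, ← Finset.sum_div]
      by_cases hri : r i = 1
      · rw [sum_m i hri]; simp
      · rw [Finset.sum_eq_zero]
        · simp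
        · intro j _
          unfold m
          rw [if_neg hri]
          split_ifs with h3 h4
          · rw [h4] at h3; exact absurd h3 hri
          · rfl
          · rfl
    · apply Finset.sum_eq_zero
      intro j hj
      rw [Finset.mem_range] at hj
      have : m l j = 0 := by
        unfold m
        rw [if_neg hr, if_neg (by omega)]
      rw [this]; simp

lemma orth (i l : ℕ) (hil : i ≠ l) : ∫ t in (0:ℝ)..1, ph i t * ph l t = 0 := by
  rcases lt_or_gt_of_ne hil with h | h
  · exact orth_lt i l h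
  · have := orth_lt l i h
    simp only [mul_comm (ph i _) (ph l _)]
    exact this

lemma cnt_pos {i : ℕ} (hi : i ≠ 0) : 0 < cnt i := by
  unfold cnt
  rw [Finset.card_pos]
  exact ⟨0, by rw [Finset.mem_filter, Finset.mem_range]; exact ⟨by omega, r_zero⟩⟩

lemma ph_ne (i : ℕ) : ∃ t ∈ Set.Icc (0:ℝ) 1, ph i t ≠ 0 := by
  by_cases hi : i = 0
  · refine ⟨0, by simp, ?_⟩
    unfold ph; rw [if_pos hi]; norm_num
  · by_contra hc
    push Not at hc
    have h1 : ∫ t in (0:ℝ)..1, ph i t * c i t = 0 := by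
      rw [intervalIntegral.integral_congr (g := fun _ => (0:ℝ))]
      · simp
      · intro t ht
        rw [Set.uIcc_of_le zero_le_one] at ht
        simp only
        rw [hc t ht, zero_mul]
    have h2 : ∀ t, ph i t * c i t = (∑ j ∈ Finset.range (i + 1), m i j * c j t) * c i t := by
      intro t; unfold ph; rw [if_neg hi]
    simp only [h2] at h1
    rw [int_lin, if_pos (by omega)] at h1
    have h3 : m i i = 0 := by linarith
    unfold m at h3
    have h4 := cnt_pos hi
    by_cases h5 : r i = 1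
    · rw [if_pos h5, if_pos rfl] at h3
      have : (cnt i : ℝ) = 0 := by linarith
      have : cnt i = 0 := by exact_mod_cast this
      omega
    · rw [if_neg h5, if_pos rfl] at h3
      norm_num at h3

lemma coef_zero (i : ℕ) (h : ∫ t in (0:ℝ)..1, c 0 t * ph i t ≠ 0) : ph i 0 = 0 := by
  by_cases hi : i = 0
  · exfalso; apply h
    have : ∀ t, c 0 t * ph i t = c 0 t := by intro t; unfold ph; rw [if_pos hi, mul_one]
    simp only [this]
    exact int_c 0
  · by_cases hr : r i = 1
    · unfold ph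
      rw [if_neg hi]
      have hc0 : ∀ j, c j 0 = 1 := by intro j; simp [c]
      simp only [hc0, mul_one]
      rw [Finset.sum_range_succ]
      have h1 : ∑ j ∈ Finset.range i, m i j = (cnt i : ℝ) := by
        unfold cnt
        rw [Finset.card_filter]
        push_cast
        apply Finset.sum_congr rfl
        intro j hj
        rw [Finset.mem_range] at hj
        unfold m
        rw [if_pos hr, if_neg (by omega)]
      rw [h1]
      unfold m
      rw [if_pos hr, if_pos rfl]
      ring
    · exfalso; apply h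
      have : ∀ t, c 0 t * ph i t = (∑ j ∈ Finset.range (i + 1), m i j * c j t) * c 0 t := by
        intro t; unfold ph; rw [if_neg hi, mul_comm]
      simp only [this]
      rw [int_lin, if_pos (by omega)]
      unfold m
      rw [if_neg hr, if_neg (by omega)]
      simp

/-- span of the system -/
noncomputable def SS : Submodule ℝ (ℝ → ℝ) := Submodule.span ℝ (Set.range ph)

/-- uniform approximability -/
def App (g : ℝ → ℝ) : Prop := ∀ ε : ℝ, 0 < ε → ∃ h ∈ SS, ∀ t ∈ Set.Icc (0:ℝ) 1, |g t - h t| < ε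

lemma app_of_mem {g : ℝ → ℝ} (h : g ∈ SS) : App g := by
  intro ε hε
  exact ⟨g, h, fun t _ => by simpa using hε⟩

lemma app_add {g h : ℝ → ℝ} (hg : App g) (hh : App h) : App (g + h) := by
  intro ε hε
  obtain ⟨g', hg', hg2⟩ := hg (ε / 2) (by linarith)
  obtain ⟨h', hh', hh2⟩ := hh (ε / 2) (by linarith)
  refine ⟨g' + h', SS.add_mem hg' hh', fun t ht => ?_⟩
  have e : (g + h) t - (g' + h') t = (g t - g' t) + (h t - h' t) := by
    simp only [Pi.add_apply]; ring
  rw [e]
  calc |(g t - g' t) + (h t - h' t)| ≤ |g t - g' t| + |h t - h' t| := abs_add_le _ _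
    _ < ε / 2 + ε / 2 := add_lt_add (hg2 t ht) (hh2 t ht)
    _ = ε := by ring

lemma app_smul {g : ℝ → ℝ} (a : ℝ) (hg : App g) : App (a • g) := by
  intro ε hε
  obtain ⟨g', hg', hg2⟩ := hg (ε / (|a| + 1)) (by positivity)
  refine ⟨a • g', SS.smul_mem a hg', fun t ht => ?_⟩
  have e : (a • g) t - (a • g') t = a * (g t - g' t) := by
    simp only [Pi.smul_apply, smul_eq_mul]; ring
  rw [e, abs_mul]
  have h1 := hg2 t ht
  have h2 : 0 ≤ |a| := abs_nonneg a
  rw [lt_div_iff₀ (by positivity)] at h1
  nlinarith [abs_nonneg (g t - g' t)]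

lemma ph_mem (i : ℕ) : ph i ∈ SS := Submodule.subset_span ⟨i, rfl⟩

lemma neg_mem {i : ℕ} (hr : r i ≠ 1) : c i ∈ SS := by
  have hi : i ≠ 0 := by rintro rfl; exact hr r_zero
  have : c i = ph i := by
    funext t
    unfold ph
    rw [if_neg hi, Finset.sum_eq_single i]
    · unfold m; rw [if_neg hr, if_pos rfl, one_mul]
    · intro j _ hj
      unfold m; rw [if_neg hr, if_neg hj, zero_mul]
    · intro h; exfalso; apply h; rw [Finset.mem_range]; omega
  rw [this]; exact ph_mem i

lemma sum_at (s : Finset ℕ) (t : ℝ) :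
    (∑ j ∈ s, (c j - c 0)) t = (∑ j ∈ s, c j t) - (s.card : ℝ) * c 0 t := by
  rw [Finset.sum_apply]
  simp only [Pi.sub_apply]
  rw [Finset.sum_sub_distrib, Finset.sum_const, nsmul_eq_mul]

lemma diff_mem (i : ℕ) (hr : r i = 1) : c i - c 0 ∈ SS := by
  induction i using Nat.strong_induction_on with
  | _ i ih =>
    by_cases hi : i = 0
    · rw [hi, sub_self]; exact SS.zero_mem
    · have h1 : (cnt i : ℝ) • (c i - c 0) =
          (∑ j ∈ (Finset.range i).filter (fun j => r j = 1), (c j - c 0)) - ph i := by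
        funext t
        rw [Pi.smul_apply, Pi.sub_apply, Pi.sub_apply, smul_eq_mul, sum_at]
        have h2 : ph i t = (∑ j ∈ (Finset.range i).filter (fun j => r j = 1), c j t)
            - (cnt i : ℝ) * c i t := by
          unfold ph
          rw [if_neg hi, Finset.sum_range_succ, Finset.sum_filter]
          have h3 : m i i = -(cnt i : ℝ) := by unfold m; rw [if_pos hr, if_pos rfl]
          rw [h3]
          have h4 : ∑ j ∈ Finset.range i, m i j * c j t =
              ∑ j ∈ Finset.range i, if r j = 1 then c j t else 0 := by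
            apply Finset.sum_congr rfl
            intro j hj
            rw [Finset.mem_range] at hj
            have hm : m i j = if r j = 1 then 1 else 0 := by
              unfold m
              rw [if_pos hr, if_neg (show ¬ j = i by omega)]
            rw [hm]
            split_ifs <;> simp
          rw [h4]; ring
        rw [h2]
        unfold cnt
        ring
      have h5 : (cnt i : ℝ) • (c i - c 0) ∈ SS := by
        rw [h1]
        apply SS.sub_mem _ (ph_mem i)
        apply SS.sum_mem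
        intro j hj
        rw [Finset.mem_filter, Finset.mem_range] at hj
        exact ih j hj.1 hj.2
      have h6 : (cnt i : ℝ) ≠ 0 := by
        have := cnt_pos hi
        exact_mod_cast this.ne'
      have h7 := SS.smul_mem (cnt i : ℝ)⁻¹ h5
      rwa [smul_smul, inv_mul_cancel₀ h6, one_smul] at h7

lemma cnt_sum (N : ℕ) : ((∑ n ∈ Finset.range N, r n : ℤ) : ℤ) = 2 * cnt N - N := by
  unfold cnt
  have h1 : ∀ n ∈ Finset.range N, r n = 2 * (if r n = 1 then 1 else 0) - 1 := by
    intro n _
    rcases r_pm n with h | h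
    · rw [if_pos h, h]; norm_num
    · rw [if_neg (by rw [h]; norm_num), h]; norm_num
  rw [Finset.sum_congr rfl h1, Finset.sum_sub_distrib, ← Finset.mul_sum, Finset.card_filter]
  simp

lemma c0_app : App (c 0) := by
  intro ε hε
  obtain ⟨k, hk⟩ : ∃ k : ℕ, 2 + 4 / ε < Real.sqrt 2 ^ k := by
    have : (1:ℝ) < Real.sqrt 2 := by
      rw [Real.lt_sqrt (by norm_num)]; norm_num
    exact pow_unbounded_of_one_lt _ this
  have hs : Real.sqrt 2 ^ k * Real.sqrt 2 ^ k = 2 ^ k := by
    rw [← mul_pow, Real.mul_self_sqrt (by norm_num)]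
  have hsq : Real.sqrt (2 ^ (k + 1)) = Real.sqrt 2 * Real.sqrt 2 ^ k := by
    rw [pow_succ, Real.sqrt_mul (by positivity), ← hs, Real.sqrt_mul_self (by positivity)]
    ring
  have h2 : Real.sqrt 2 ≤ 1.5 := by
    rw [Real.sqrt_le_left (by norm_num)]; norm_num
  set x := Real.sqrt 2 ^ k with hx
  have hxp : 0 < x := by positivity
  set N := 2 ^ k with hN
  have hNx : (N : ℝ) = x * x := by rw [hs, hN]; push_cast; rfl
  have hb := h_bound k
  rw [hsq] at hb
  have hcnt : (x * x - 1.5 * x) / 2 ≤ (cnt N : ℝ) := by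
    have h3 := hb 0
    have hc0 : ∀ j, c j 0 = 1 := by intro j; simp [c]
    simp only [hc0, mul_one] at h3
    have h4 := cnt_sum N
    have h5 : (∑ n ∈ Finset.range N, (r n : ℝ)) = 2 * cnt N - N := by exact_mod_cast h4
    rw [h5, hNx] at h3
    have h6 := (abs_le.mp h3).1
    nlinarith
  have h4e : 0 < 4 / ε := by positivity
  have hx2 : 2 < x := by linarith
  have hcp : 0 < (cnt N : ℝ) := by nlinarith
  refine ⟨c 0 - (cnt N : ℝ)⁻¹ • (fun t => ∑ n ∈ Finset.range N, (r n : ℝ) * c n t), ?_, ?_⟩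
  · have h7 : c 0 - (cnt N : ℝ)⁻¹ • (fun t => ∑ n ∈ Finset.range N, (r n : ℝ) * c n t) =
        (-(cnt N : ℝ)⁻¹) • ((∑ n ∈ (Finset.range N).filter (fun j => r j = 1), (c n - c 0)) -
          ∑ n ∈ (Finset.range N).filter (fun j => ¬ r j = 1), c n) := by
      funext t
      rw [Pi.sub_apply, Pi.smul_apply, Pi.smul_apply, Pi.sub_apply, smul_eq_mul, smul_eq_mul, sum_at,
        Finset.sum_apply]
      have h8 : ∑ n ∈ Finset.range N, (r n : ℝ) * c n t =
          (∑ n ∈ (Finset.range N).filter (fun j => r j = 1), c n t) -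
          ∑ n ∈ (Finset.range N).filter (fun j => ¬ r j = 1), c n t := by
        rw [← Finset.sum_filter_add_sum_filter_not (Finset.range N) (fun j => r j = 1), sub_eq_add_neg,
          ← Finset.sum_neg_distrib]
        congr 1
        · apply Finset.sum_congr rfl
          intro n hn
          rw [Finset.mem_filter] at hn
          rw [hn.2]; simp
        · apply Finset.sum_congr rfl
          intro n hn
          rw [Finset.mem_filter] at hn
          rcases r_pm n with h | h
          · exact absurd h hn.2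
          · rw [h]; simp
      rw [h8]
      have h9 : (((Finset.range N).filter (fun j => r j = 1)).card : ℝ) = (cnt N : ℝ) := rfl
      rw [h9]
      field_simp
      ring
    rw [h7]
    apply SS.smul_mem
    apply SS.sub_mem
    · apply SS.sum_mem
      intro n hn
      rw [Finset.mem_filter] at hn
      exact diff_mem n hn.2
    · apply SS.sum_mem
      intro n hn
      rw [Finset.mem_filter] at hn
      exact neg_mem hn.2
  · intro t _
    have e : c 0 t - (c 0 - (cnt N : ℝ)⁻¹ • (fun t => ∑ n ∈ Finset.range N, (r n : ℝ) * c n t)) t =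
      (cnt N : ℝ)⁻¹ * ∑ n ∈ Finset.range N, (r n : ℝ) * c n t := by
      simp only [Pi.sub_apply, Pi.smul_apply, smul_eq_mul]; ring
    rw [e, abs_mul, abs_of_pos (inv_pos.mpr hcp), inv_mul_lt_iff₀ hcp]
    refine lt_of_le_of_lt (hb t) ?_
    have h10 : 2 + 4 / ε < x := hk
    have h11 : 4 < (x - 2) * ε := by
      have : 4 / ε < x - 2 := by linarith
      rwa [div_lt_iff₀ hε] at this
    have h12 : (x * x - 1.5 * x) / 2 * ε ≤ (cnt N : ℝ) * ε := mul_le_mul_of_nonneg_right hcnt hε.le
    have h13 : Real.sqrt 2 * x ≤ 1.5 * x := mul_le_mul_of_nonneg_right h2 hxp.le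
    have h14 : (x * x - 1.5 * x) / 2 * ε = x * ((x - 1.5) * ε / 2) := by ring
    have h15 : 1.5 < (x - 1.5) * ε / 2 := by nlinarith
    have h16 : 1.5 * x < x * ((x - 1.5) * ε / 2) := by nlinarith
    linarith

lemma c_app (i : ℕ) : App (c i) := by
  by_cases hr : r i = 1
  · have h1 := app_add (app_of_mem (diff_mem i hr)) c0_app
    rwa [sub_add_cancel] at h1
  · exact app_of_mem (neg_mem hr)

lemma one_app : App (fun _ => 1) := by
  have : (fun _ => (1:ℝ)) = ph 0 := by funext t; unfold ph; rw [if_pos rfl]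
  rw [this]; exact app_of_mem (ph_mem 0)

/-- span of the cosines -/
noncomputable def TT : Submodule ℝ (ℝ → ℝ) :=
  Submodule.span ℝ (insert (fun _ => (1:ℝ)) (Set.range c))

lemma one_T : (fun _ => (1:ℝ)) ∈ TT := Submodule.subset_span (Set.mem_insert _ _)

lemma c_T (j : ℕ) : c j ∈ TT := Submodule.subset_span (Set.mem_insert_of_mem _ ⟨j, rfl⟩)

lemma mul_T {g : ℝ → ℝ} (hg : g ∈ TT) : (fun t => c 0 t * g t) ∈ TT := by
  unfold TT at hg
  induction hg using Submodule.span_induction with
  | mem x hx =>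
    rcases hx with hx | ⟨j, hj⟩
    · rw [hx]; simp only [mul_one]; exact c_T 0
    · subst hj
      have key : ∀ t, c 0 t * c j t = (1/2) * Real.cos (((j : ℝ) + 2) * Real.pi * t) +
          (1/2) * Real.cos ((j : ℝ) * Real.pi * t) := by
        intro t
        unfold c
        have e1 : ((j : ℝ) + 2) * Real.pi * t = ((j : ℝ) + 1) * Real.pi * t +
          (((0 : ℕ) : ℝ) + 1) * Real.pi * t := by push_cast; ring
        have e2 : (j : ℝ) * Real.pi * t = ((j : ℝ) + 1) * Real.pi * t -
          (((0 : ℕ) : ℝ) + 1) * Real.pi * t := by push_cast; ring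
        rw [e1, e2, Real.cos_add, Real.cos_sub]
        ring
      rcases j with _ | i
      · have : (fun t => c 0 t * c 0 t) = (1/2 : ℝ) • c 1 + (1/2 : ℝ) • (fun _ => (1:ℝ)) := by
          funext t
          rw [key t]
          simp [c]
          norm_num
        rw [this]
        exact TT.add_mem (TT.smul_mem _ (c_T 1)) (TT.smul_mem _ one_T)
      · have : (fun t => c 0 t * c (i + 1) t) = (1/2 : ℝ) • c (i + 2) + (1/2 : ℝ) • c i := by
          funext t
          rw [key t]
          simp only [Pi.add_apply, Pi.smul_apply, smul_eq_mul, c]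
          push_cast
          ring_nf
        rw [this]
        exact TT.add_mem (TT.smul_mem _ (c_T _)) (TT.smul_mem _ (c_T _))
  | zero => simp only [Pi.zero_apply, mul_zero]; exact TT.zero_mem
  | add x y _ _ hx hy =>
    have : (fun t => c 0 t * (x + y) t) = (fun t => c 0 t * x t) + (fun t => c 0 t * y t) := by
      funext t; simp only [Pi.add_apply]; ring
    rw [this]; exact TT.add_mem hx hy
  | smul a x _ hx =>
    have : (fun t => c 0 t * (a • x) t) = a • (fun t => c 0 t * x t) := by
      funext t; simp only [Pi.smul_apply, smul_eq_mul]; ring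
    rw [this]; exact TT.smul_mem a hx

lemma pow_T (d : ℕ) : (fun t => c 0 t ^ d) ∈ TT := by
  induction d with
  | zero => simp only [pow_zero]; exact one_T
  | succ d ih =>
    have := mul_T ih
    simp only [pow_succ, mul_comm (c 0 _ ^ d)]
    exact this

lemma poly_T (p : Polynomial ℝ) : (fun t => p.eval (c 0 t)) ∈ TT := by
  have : (fun t => p.eval (c 0 t)) =
      ∑ d ∈ Finset.range (p.natDegree + 1), p.coeff d • (fun t => c 0 t ^ d) := by
    funext t
    rw [Polynomial.eval_eq_sum_range, Finset.sum_apply]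
    rfl
  rw [this]
  exact TT.sum_mem (fun d _ => TT.smul_mem _ (pow_T d))

lemma app_T {g : ℝ → ℝ} (hg : g ∈ TT) : App g := by
  unfold TT at hg
  induction hg using Submodule.span_induction with
  | mem x hx =>
    rcases hx with hx | ⟨j, hj⟩
    · rw [hx]; exact one_app
    · subst hj; exact c_app j
  | zero => exact app_of_mem SS.zero_mem
  | add x y _ _ hx hy => exact app_add hx hy
  | smul a x _ hx => exact app_smul a hx

lemma app_cont {g : ℝ → ℝ} (hg : ContinuousOn g (Set.Icc (0:ℝ) 1)) : App g := by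
  intro ε hε
  have hG : ContinuousOn (fun u => g (Real.arccos u / Real.pi)) (Set.Icc (-1:ℝ) 1) := by
    apply ContinuousOn.comp (t := Set.Icc (0:ℝ) 1) hg
    · exact (Real.continuous_arccos.div_const _).continuousOn
    · intro u _
      constructor
      · exact div_nonneg (Real.arccos_nonneg u) Real.pi_pos.le
      · rw [div_le_one Real.pi_pos]; exact Real.arccos_le_pi u
  obtain ⟨p, hp⟩ := exists_polynomial_near_of_continuousOn (-1) 1 _ hG (ε / 2) (by linarith)
  obtain ⟨h, hh, hh2⟩ := app_T (poly_T p) (ε / 2) (by linarith)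
  refine ⟨h, hh, fun t ht => ?_⟩
  have h1 := hh2 t ht
  have h2 := hp (c 0 t) ⟨Real.neg_one_le_cos _, Real.cos_le_one _⟩
  have h3 : Real.arccos (c 0 t) / Real.pi = t := by
    unfold c
    have e : (((0:ℕ):ℝ) + 1) * Real.pi * t = t * Real.pi := by push_cast; ring
    rw [e, Real.arccos_cos (mul_nonneg ht.1 Real.pi_pos.le)
      (by nlinarith [Real.pi_pos, ht.2]), mul_div_assoc, div_self Real.pi_ne_zero, mul_one]
  rw [h3] at h2
  have e : g t - h t = -(p.eval (c 0 t) - g t) + (p.eval (c 0 t) - h t) := by ring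
  rw [e]
  calc |-(p.eval (c 0 t) - g t) + (p.eval (c 0 t) - h t)|
      ≤ |-(p.eval (c 0 t) - g t)| + |p.eval (c 0 t) - h t| := abs_add_le _ _
    _ < ε / 2 + ε / 2 := by rw [abs_neg]; exact add_lt_add h2 h1
    _ = ε := by ring

/-- The negation of the preceding statement: For every system of nonzero continuous functions on [0,1] that is L²-orthogonal and uniformly dense in C[0,1], each continuous f is a uniform limit of finite combinations of those φ_n with nonzero Fourier coefficient of f. -/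
theorem result :
    ¬ (∀ φ : ℕ → ℝ → ℝ,
      (∀ n, ContinuousOn (φ n) (Set.Icc (0:ℝ) 1)) →
      (∀ n, ∃ t ∈ Set.Icc (0:ℝ) 1, φ n t ≠ 0) →
      (∀ m n : ℕ, m ≠ n → ∫ t in (0:ℝ)..1, φ m t * φ n t = 0) →
      (∀ g : ℝ → ℝ, ContinuousOn g (Set.Icc (0:ℝ) 1) → ∀ ε : ℝ, ε > 0 →
        ∃ s : Finset ℕ, ∃ c : ℕ → ℝ,
          ∀ t ∈ Set.Icc (0:ℝ) 1, |g t - ∑ i ∈ s, c i * φ i t| < ε) →
      ∀ f : ℝ → ℝ, ContinuousOn f (Set.Icc (0:ℝ) 1) → ∀ ε : ℝ, ε > 0 →
        ∃ s : Finset ℕ, (∀ i ∈ s, ∫ t in (0:ℝ)..1, f t * φ i t ≠ 0) ∧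
          ∃ c : ℕ → ℝ, ∀ t ∈ Set.Icc (0:ℝ) 1, |f t - ∑ i ∈ s, c i * φ i t| < ε) := by
  intro H
  have h := H ph (fun n => (ph_cont n).continuousOn) ph_ne (fun i l hil => orth i l hil) ?_ (c 0)
    (c_cont 0).continuousOn 1 one_pos
  · obtain ⟨s, hs, w, hw⟩ := h
    have h1 := hw 0 (by simp)
    rw [Finset.sum_eq_zero] at h1
    · simp [c] at h1
    · intro i hi
      rw [coef_zero i (hs i hi), mul_zero]
  · intro g hg ε hε
    obtain ⟨h, hh, hh2⟩ := app_cont hg ε hε
    unfold SS at hh
    rw [Finsupp.mem_span_range_iff_exists_finsupp] at hh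
    obtain ⟨w, hw⟩ := hh
    refine ⟨w.support, w, fun t ht => ?_⟩
    have h1 := hh2 t ht
    have h2 : h t = ∑ i ∈ w.support, w i * ph i t := by
      rw [← hw, Finsupp.sum, Finset.sum_apply]
      rfl
    rwa [h2] at h1

end Pool.Agent.S02578
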