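import Pool.Statements.S02850
-- import your own Pool.Agent.* helpers here

set_option autoImplicit false
open Pool Pool.MP_275f89_an

namespace Pool.Agent.S02850

/-- the unit element -/
noncomputable def e0 : ℝ → ℝ := fun x : ℝ => if 0 < x then (1 : ℝ) else 0

/-- the distribution function has limit one at infinity -/
def Pr (F : ℝ → ℝ) : Prop := ∀ c : ℝ, c < 1 → ∃ x : ℝ, c < F x

open Classical in
/-- the operation -/
noncomputable def tau (F G : ℝ → ℝ) : ℝ → ℝ :=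
  if F = e0 then G else if G = e0 then F else
    if Pr F ∧ Pr G then F ⊓ G else fun _ => 0

/-- the space -/
def DD : Set (ℝ → ℝ) := {F : ℝ → ℝ | Monotone F ∧ (∀ x, 0 ≤ F x ∧ F x ≤ 1) ∧ (∀ x : ℝ, x ≤ 0 → F x = 0) ∧
            ∀ x : ℝ, ContinuousWithinAt F (Set.Iio x) x}

lemma le_e0 {F : ℝ → ℝ} (hF : F ∈ DD) : F ≤ e0 := by
  intro x
  unfold e0
  split_ifs with h
  · exact (hF.2.1 x).2
  · exact (hF.2.2.1 x (not_lt.mp h)).le

lemma inf_mem {F G : ℝ → ℝ} (hF : F ∈ DD) (hG : G ∈ DD) : F ⊓ G ∈ DD := by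
  refine ⟨hF.1.inf hG.1, fun x => ⟨?_, ?_⟩, fun x hx => ?_, fun x => ?_⟩
  · exact le_min (hF.2.1 x).1 (hG.2.1 x).1
  · exact (min_le_left _ _).trans (hF.2.1 x).2
  · show min (F x) (G x) = 0
    rw [hF.2.2.1 x hx, hG.2.2.1 x hx, min_self]
  · exact (hF.2.2.2 x).min (hG.2.2.2 x)

lemma zero_mem : (fun _ => 0 : ℝ → ℝ) ∈ DD := by
  refine ⟨fun _ _ _ => le_refl _, fun x => ⟨le_refl _, zero_le_one⟩, fun _ _ => rfl, fun x => ?_⟩
  exact continuousWithinAt_const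

lemma pr_inf {F G : ℝ → ℝ} (hF : F ∈ DD) (hG : G ∈ DD) : Pr (F ⊓ G) ↔ Pr F ∧ Pr G := by
  constructor
  · intro h
    refine ⟨fun c hc => ?_, fun c hc => ?_⟩
    · obtain ⟨x, hx⟩ := h c hc
      exact ⟨x, lt_of_lt_of_le hx (min_le_left _ _)⟩
    · obtain ⟨x, hx⟩ := h c hc
      exact ⟨x, lt_of_lt_of_le hx (min_le_right _ _)⟩
  · rintro ⟨h1, h2⟩ c hc
    obtain ⟨x, hx⟩ := h1 c hc
    obtain ⟨y, hy⟩ := h2 c hc
    refine ⟨max x y, lt_min ?_ ?_⟩
    · exact lt_of_lt_of_le hx (hF.1 (le_max_left _ _))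
    · exact lt_of_lt_of_le hy (hG.1 (le_max_right _ _))

lemma not_pr_zero : ¬ Pr (fun _ => 0 : ℝ → ℝ) := by
  intro h
  obtain ⟨x, hx⟩ := h 0 zero_lt_one
  exact lt_irrefl _ hx

lemma zero_ne_e0 : (fun _ => 0 : ℝ → ℝ) ≠ e0 := by
  intro h
  have := congrFun h 1
  simp [e0] at this

lemma inf_ne_e0 {F G : ℝ → ℝ} (hF : F ∈ DD) (h : F ≠ e0) : F ⊓ G ≠ e0 := by
  intro h'
  apply h
  apply le_antisymm (le_e0 hF)
  rw [← h']
  exact inf_le_left

lemma tau_mem {F G : ℝ → ℝ} (hF : F ∈ DD) (hG : G ∈ DD) : tau F G ∈ DD := by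
  unfold tau
  split_ifs
  · exact hG
  · exact hF
  · exact inf_mem hF hG
  · exact zero_mem

lemma tau_comm {F G : ℝ → ℝ} : tau F G = tau G F := by
  unfold tau
  by_cases h1 : F = e0 <;> by_cases h2 : G = e0
  · simp [h1, h2]
  · simp [h1, h2]
  · simp [h1, h2]
  · rw [if_neg h1, if_neg h2, if_neg h2, if_neg h1, inf_comm]
    by_cases h3 : Pr F ∧ Pr G
    · rw [if_pos h3, if_pos h3.symm]
    · rw [if_neg h3, if_neg (fun h => h3 h.symm)]

lemma tau_e0_left {G : ℝ → ℝ} : tau e0 G = G := by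
  unfold tau; simp

lemma tau_e0_right {G : ℝ → ℝ} : tau G e0 = G := by
  rw [tau_comm, tau_e0_left]

open Classical in
lemma tau_ne {F G : ℝ → ℝ} (h1 : F ≠ e0) (h2 : G ≠ e0) :
    tau F G = if Pr F ∧ Pr G then F ⊓ G else fun _ => 0 := by
  unfold tau
  rw [if_neg h1, if_neg h2]

lemma tau_ne_e0 {F G : ℝ → ℝ} (hF : F ∈ DD) (h1 : F ≠ e0) (h2 : G ≠ e0) : tau F G ≠ e0 := by
  rw [tau_ne h1 h2]
  split_ifs
  · exact inf_ne_e0 hF h1
  · exact zero_ne_e0

open Classical in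
lemma tau_three {F G H : ℝ → ℝ} (hF : F ∈ DD) (hG : G ∈ DD) (h1 : F ≠ e0) (h2 : G ≠ e0)
    (h3 : H ≠ e0) :
    tau (tau F G) H = if Pr F ∧ Pr G ∧ Pr H then F ⊓ G ⊓ H else fun _ => 0 := by
  rw [tau_ne (tau_ne_e0 hF h1 h2) h3, tau_ne h1 h2]
  by_cases h : Pr F ∧ Pr G
  · rw [if_pos h, pr_inf hF hG]
    by_cases h' : Pr H
    · rw [if_pos ⟨h, h'⟩, if_pos ⟨h.1, h.2, h'⟩]
    · rw [if_neg (fun h'' => h' h''.2), if_neg (fun h'' => h' h''.2.2)]
  · rw [if_neg h, if_neg (fun h'' => not_pr_zero h''.1), if_neg (fun h'' => h ⟨h''.1, h''.2.1⟩)]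

lemma tau_assoc {F G H : ℝ → ℝ} (hF : F ∈ DD) (hG : G ∈ DD) (hH : H ∈ DD) :
    tau (tau F G) H = tau F (tau G H) := by
  by_cases h1 : F = e0
  · subst h1; rw [tau_e0_left, tau_e0_left]
  by_cases h2 : G = e0
  · subst h2; rw [tau_e0_left, tau_e0_right]
  by_cases h3 : H = e0
  · subst h3; rw [tau_e0_right, tau_e0_right]
  rw [tau_comm (F := F) (G := tau G H), tau_three hF hG h1 h2 h3, tau_three hG hH h2 h3 h1]
  by_cases h : Pr F ∧ Pr G ∧ Pr H
  · rw [if_pos h, if_pos ⟨h.2.1, h.2.2, h.1⟩, inf_comm (G ⊓ H) F, inf_assoc]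
  · rw [if_neg h, if_neg (fun h' => h ⟨h'.2.2, h'.1, h'.2.1⟩)]

lemma tau_le_left {F G : ℝ → ℝ} (hF : F ∈ DD) (hG : G ∈ DD) : tau F G ≤ G := by
  unfold tau
  split_ifs with h1 h2
  · exact le_refl _
  · rw [h2]; exact le_e0 hF
  · exact inf_le_right
  · intro x; exact (hG.2.1 x).1

lemma tau_mono {F₁ F₂ G : ℝ → ℝ} (hF1 : F₁ ∈ DD) (hF2 : F₂ ∈ DD) (hG : G ∈ DD) (h : F₁ ≤ F₂) :
    tau F₁ G ≤ tau F₂ G := by
  by_cases h2 : F₂ = e0
  · rw [h2, tau_e0_left]; exact tau_le_left hF1 hG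
  have h1 : F₁ ≠ e0 := by
    intro h1
    apply h2
    apply le_antisymm (le_e0 hF2)
    rw [← h1]; exact h
  by_cases h3 : G = e0
  · rw [h3, tau_e0_right, tau_e0_right]; exact h
  rw [tau_ne h1 h3]
  split_ifs with h4
  · have h5 : Pr F₂ := by
      intro c hc
      obtain ⟨x, hx⟩ := h4.1 c hc
      exact ⟨x, lt_of_lt_of_le hx (h x)⟩
    rw [tau_ne h2 h3, if_pos ⟨h5, h4.2⟩]
    exact inf_le_inf_right _ h
  · intro x
    exact ((tau_mem hF2 hG).2.1 x).1

/-- first step function -/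
noncomputable def A1 : ℝ → ℝ := fun x => if x ≤ 0 then 0 else if x ≤ 2 then 1/2 else 1
/-- second step function -/
noncomputable def A2 : ℝ → ℝ := fun x => if x ≤ 0 then 0 else 1/2

lemma A1_mem : A1 ∈ DD := by
  refine ⟨fun x y hxy => ?_, fun x => ?_, fun x hx => ?_, fun x => ?_⟩
  · unfold A1; split_ifs <;> first | (exfalso; linarith) | norm_num
  · unfold A1; split_ifs <;> norm_num
  · unfold A1; rw [if_pos hx]
  · rcases le_or_gt x 0 with hx | hx
    · apply ContinuousWithinAt.congr (f := fun _ => (0:ℝ)) continuousWithinAt_const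
      · intro y hy
        have : y < x := hy
        unfold A1; rw [if_pos (by linarith)]
      · unfold A1; rw [if_pos hx]
    · rcases le_or_gt x 2 with hx2 | hx2
      · have : (fun _ => (1/2:ℝ)) =ᶠ[nhdsWithin x (Set.Iio x)] A1 := by
          filter_upwards [self_mem_nhdsWithin, mem_nhdsWithin_of_mem_nhds (lt_mem_nhds hx)] with y hy hy0
          have hy' : y < x := hy
          have hy0' : 0 < y := hy0
          unfold A1; rw [if_neg (by linarith), if_pos (by linarith)]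
        apply ContinuousWithinAt.congr_of_eventuallyEq (f := fun _ => (1/2:ℝ)) continuousWithinAt_const this.symm
        unfold A1; rw [if_neg (by linarith), if_pos (by linarith)]
      · have : (fun _ => (1:ℝ)) =ᶠ[nhdsWithin x (Set.Iio x)] A1 := by
          filter_upwards [self_mem_nhdsWithin, mem_nhdsWithin_of_mem_nhds (lt_mem_nhds hx2)] with y hy hy0
          have hy' : y < x := hy
          have hy0' : 2 < y := hy0
          unfold A1; rw [if_neg (by linarith), if_neg (by linarith)]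
        apply ContinuousWithinAt.congr_of_eventuallyEq (f := fun _ => (1:ℝ)) continuousWithinAt_const this.symm
        unfold A1; rw [if_neg (by linarith), if_neg (by linarith)]

lemma A2_mem : A2 ∈ DD := by
  refine ⟨fun x y hxy => ?_, fun x => ?_, fun x hx => ?_, fun x => ?_⟩
  · unfold A2; split_ifs <;> first | (exfalso; linarith) | norm_num
  · unfold A2; split_ifs <;> norm_num
  · unfold A2; rw [if_pos hx]
  · rcases le_or_gt x 0 with hx | hx
    · apply ContinuousWithinAt.congr (f := fun _ => (0:ℝ)) continuousWithinAt_const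
      · intro y hy
        have : y < x := hy
        unfold A2; rw [if_pos (by linarith)]
      · unfold A2; rw [if_pos hx]
    · have : (fun _ => (1/2:ℝ)) =ᶠ[nhdsWithin x (Set.Iio x)] A2 := by
        filter_upwards [self_mem_nhdsWithin, mem_nhdsWithin_of_mem_nhds (lt_mem_nhds hx)] with y hy hy0
        have hy' : y < x := hy
        have hy0' : 0 < y := hy0
        unfold A2; rw [if_neg (by linarith)]
      apply ContinuousWithinAt.congr_of_eventuallyEq (f := fun _ => (1/2:ℝ)) continuousWithinAt_const this.symm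
      unfold A2; rw [if_neg (by linarith)]

lemma A1_pr : Pr A1 := by
  intro c hc
  refine ⟨3, ?_⟩
  unfold A1; norm_num; exact hc

lemma A2_not_pr : ¬ Pr A2 := by
  intro h
  obtain ⟨x, hx⟩ := h (1/2) (by norm_num)
  unfold A2 at hx
  split_ifs at hx
  · norm_num at hx
  · exact lt_irrefl _ hx

lemma A1_ne : A1 ≠ e0 := by
  intro h
  have := congrFun h 1
  unfold A1 e0 at this
  norm_num at this

lemma A2_ne : A2 ≠ e0 := by
  intro h
  have := congrFun h 1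
  unfold A2 e0 at this
  norm_num at this

/-- The negation of the preceding statement: Every commutative, associative, monotone operation on distance distribution functions with identity ε₀ is causal: if F₁≤F₂ and G₁≤G₂ on (−∞,a] with a>0, then τ(F₁,G₁)≤τ(F₂,G₂) on (−∞,a]. -/
theorem result :
    ¬ (∀ D : Set (ℝ → ℝ),
      D = {F : ℝ → ℝ | Monotone F ∧ (∀ x, 0 ≤ F x ∧ F x ≤ 1) ∧ (∀ x : ℝ, x ≤ 0 → F x = 0) ∧
            ∀ x : ℝ, ContinuousWithinAt F (Set.Iio x) x} →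
      ∀ τ : (ℝ → ℝ) → (ℝ → ℝ) → (ℝ → ℝ),
        (∀ F ∈ D, ∀ G ∈ D, τ F G ∈ D) →
        (∀ F ∈ D, ∀ G ∈ D, τ F G = τ G F) →
        (∀ F ∈ D, ∀ G ∈ D, ∀ H ∈ D, τ (τ F G) H = τ F (τ G H)) →
        (∀ F ∈ D, τ F (fun x : ℝ => if 0 < x then (1 : ℝ) else 0) = F) →
        (∀ F₁ ∈ D, ∀ F₂ ∈ D, ∀ G ∈ D, F₁ ≤ F₂ → τ F₁ G ≤ τ F₂ G) →
        ∀ a : ℝ, 0 < a →
          ∀ F₁ ∈ D, ∀ F₂ ∈ D, ∀ G₁ ∈ D, ∀ G₂ ∈ D,
            (∀ x : ℝ, x ≤ a → F₁ x ≤ F₂ x) →
            (∀ x : ℝ, x ≤ a → G₁ x ≤ G₂ x) →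
            ∀ x : ℝ, x ≤ a → τ F₁ G₁ x ≤ τ F₂ G₂ x) := by
  intro h
  have h' := h DD rfl tau (fun F hF G hG => tau_mem hF hG) (fun F _ G _ => tau_comm)
    (fun F hF G hG H hH => tau_assoc hF hG hH) (fun F _ => tau_e0_right)
    (fun F₁ h1 F₂ h2 G hG hle => tau_mono h1 h2 hG hle) 1 one_pos A1 A1_mem A2 A2_mem
    A1 A1_mem A1 A1_mem ?_ (fun x _ => le_refl _) 1 (le_refl _)
  · rw [tau_ne A1_ne A1_ne, tau_ne A2_ne A1_ne, if_pos ⟨A1_pr, A1_pr⟩,
      if_neg (fun h => A2_not_pr h.1)] at h'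
    have h2 : min (A1 1) (A1 1) ≤ 0 := h'
    rw [min_self] at h2
    unfold A1 at h2
    norm_num at h2
  · intro x hx
    unfold A1 A2
    split_ifs
    · exact le_refl _
    · exact le_refl _
    · exfalso; linarith

end Pool.Agent.S02850
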