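import Pool.Statements.S03363
-- import your own Pool.Agent.* helpers here

set_option autoImplicit false
open Pool Pool.MP_65dae3_an

namespace Pool.Agent.S03363

/-- block of a gadget -/
def bl (n : ℕ) : ℕ := Nat.log 2 n

/-- decoding of an index -/
def tr (m : ℕ) : ℕ × ℕ × ℕ := Denumerable.ofNat (ℕ × ℕ × ℕ) m

/-- sign -/
def sg (k : ℕ) : ℤ := if k = 0 then 1 else -1

/-- coefficients -/
def v (n m : ℕ) : ℤ :=
  if bl (tr m).1 = bl (tr m).2.1 then 0 else
    (if n = (tr m).1 then 1 else 0) + (if n = (tr m).2.1 then sg (tr m).2.2 else 0)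

/-- free terms -/
noncomputable def y (m : ℕ) : ℝ := (1 / 8 : ℝ) ^ m

/-- gadget terms -/
noncomputable def b (n : ℕ) : ℝ := ∑' m, (v n m : ℝ) * y m

lemma tr_surj (t : ℕ × ℕ × ℕ) : ∃ m, tr m = t := ⟨Encodable.encode t, Denumerable.ofNat_encode t⟩

lemma y_pos (m : ℕ) : 0 < y m := by unfold y; positivity

lemma y_sum : Summable y := by
  unfold y
  exact summable_geometric_of_lt_one (by norm_num) (by norm_num)

lemma sg_abs (c : ℕ) : |sg c| = 1 := by unfold sg; split_ifs <;> simp

lemma v_abs (n m : ℕ) : |v n m| ≤ 1 := by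
  unfold v
  split_ifs with h h1 h2 h2
  · simp
  · exfalso; apply h; rw [← h1, ← h2]
  · simp
  · rw [zero_add]; exact (sg_abs _).le
  · simp

lemma uniq (a : ℕ → ℤ) (ha : ∀ m, |a m| ≤ 3) (h : ∑' m, (a m : ℝ) * y m = 0) : ∀ m, a m = 0 := by
  by_contra hc
  push Not at hc
  classical
  have hm := Nat.find_spec hc
  have hmin := fun i (hi : i < Nat.find hc) => Nat.find_min hc hi
  set m := Nat.find hc with hmdef
  have habs : ∀ i, |(a i : ℝ)| ≤ 3 := fun i => by exact_mod_cast ha i
  have hb : ∀ i, ‖(a i : ℝ) * y i‖ ≤ 3 * y i := by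
    intro i
    rw [norm_mul, Real.norm_eq_abs, Real.norm_eq_abs, abs_of_pos (y_pos i)]
    exact mul_le_mul_of_nonneg_right (habs i) (y_pos i).le
  have hs : Summable (fun i => (a i : ℝ) * y i) :=
    Summable.of_norm_bounded (y_sum.mul_left 3) hb
  have h1 := hs.sum_add_tsum_nat_add (m + 1)
  rw [h, Finset.sum_range_succ, Finset.sum_eq_zero] at h1
  · have h2 : ‖∑' i, (a (i + (m + 1)) : ℝ) * y (i + (m + 1))‖ ≤ 3 / 7 * y m := by
      have hg : HasSum (fun i : ℕ => 3 * y (i + (m + 1))) (3 / 7 * y m) := by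
        have := (hasSum_geometric_of_lt_one (r := (1/8:ℝ)) (by norm_num) (by norm_num)).mul_left
          (3 * (1/8:ℝ) ^ (m + 1))
        have e1 : (fun i : ℕ => 3 * y (i + (m + 1))) =
            fun i : ℕ => 3 * (1/8:ℝ) ^ (m + 1) * (1/8) ^ i := by
          funext i
          unfold y
          rw [pow_add]; ring
        have e2 : 3 / 7 * y m = 3 * (1/8:ℝ) ^ (m + 1) * (1 - 1/8)⁻¹ := by
          unfold y
          rw [pow_succ]; norm_num; ring
        rw [e1, e2]
        exact this
      exact tsum_of_norm_bounded hg (fun i => hb _)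
    have h3 : (1 : ℝ) ≤ |(a m : ℝ)| := by
      have : (1 : ℤ) ≤ |a m| := Int.one_le_abs hm
      exact_mod_cast this
    have h4 : ‖(a m : ℝ) * y m‖ = ‖∑' i, (a (i + (m + 1)) : ℝ) * y (i + (m + 1))‖ := by
      rw [← norm_neg (∑' i, (a (i + (m + 1)) : ℝ) * y (i + (m + 1)))]
      congr 1
      linarith
    rw [← h4, norm_mul, Real.norm_eq_abs, Real.norm_eq_abs, abs_of_pos (y_pos m)] at h2
    have := y_pos m
    nlinarith
  · intro i hi
    rw [Finset.mem_range] at hi
    have := hmin i hi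
    push Not at this
    rw [this]; simp

/-- the dominating double family -/
noncomputable def G (p : ℕ × ℕ) : ℝ :=
  (if p.2 = (tr p.1).1 then y p.1 else 0) + (if p.2 = (tr p.1).2.1 then y p.1 else 0)

lemma G_hasSum (m : ℕ) : HasSum (fun n => G (m, n)) (y m + y m) := by
  exact (hasSum_ite_eq (tr m).1 (y m)).add (hasSum_ite_eq (tr m).2.1 (y m))

lemma G_nonneg : 0 ≤ G := by
  intro p
  have h := (y_pos p.1).le
  show 0 ≤ G p
  unfold G
  apply add_nonneg
  · split_ifs
    · exact h
    · exact le_refl _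
  · split_ifs
    · exact h
    · exact le_refl _

lemma G_sum : Summable G := by
  rw [summable_prod_of_nonneg G_nonneg]
  refine ⟨fun m => (G_hasSum m).summable, ?_⟩
  have : (fun m => ∑' n, G (m, n)) = fun m => y m + y m := by
    ext m; exact (G_hasSum m).tsum_eq
  rw [this]
  exact y_sum.add y_sum

lemma v_le_G (n m : ℕ) : |(v n m : ℝ)| * y m ≤ G (m, n) := by
  have hy := (y_pos m).le
  have hG := G_nonneg (m, n)
  have hG' : 0 ≤ G (m, n) := hG
  by_cases h : bl (tr m).1 = bl (tr m).2.1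
  · have : v n m = 0 := by unfold v; rw [if_pos h]
    rw [this]; simpa using hG'
  by_cases h1 : n = (tr m).1
  · have h2 : G (m, n) = y m + (if n = (tr m).2.1 then y m else 0) := by
      unfold G; simp only; rw [if_pos h1]
    have h3 : |(v n m : ℝ)| ≤ 1 := by exact_mod_cast v_abs n m
    rw [h2]
    split_ifs <;> nlinarith
  · by_cases h2 : n = (tr m).2.1
    · have h3 : G (m, n) = (if n = (tr m).1 then y m else 0) + y m := by
        unfold G; simp only; rw [if_pos h2]
      have h4 : |(v n m : ℝ)| ≤ 1 := by exact_mod_cast v_abs n m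
      rw [h3]
      split_ifs <;> nlinarith
    · have : v n m = 0 := by unfold v; rw [if_neg h, if_neg h1, if_neg h2]; rfl
      rw [this]; simpa using hG'

lemma F_sum (c : ℕ → ℤ) (hc : ∀ n, |c n| ≤ 1) :
    Summable (fun p : ℕ × ℕ => (c p.2 : ℝ) * ((v p.2 p.1 : ℝ) * y p.1)) := by
  apply Summable.of_norm_bounded G_sum
  rintro ⟨m, n⟩
  simp only
  rw [norm_mul, norm_mul, Real.norm_eq_abs, Real.norm_eq_abs, Real.norm_eq_abs,
    abs_of_pos (y_pos m)]
  have h1 : |(c n : ℝ)| ≤ 1 := by exact_mod_cast hc n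
  have h2 := v_le_G n m
  have h3 : 0 ≤ |(v n m : ℝ)| * y m := mul_nonneg (abs_nonneg _) (y_pos m).le
  nlinarith

/-- the combined coefficient -/
def s (c : ℕ → ℤ) (m : ℕ) : ℤ :=
  if bl (tr m).1 = bl (tr m).2.1 then 0 else c (tr m).1 + sg (tr m).2.2 * c (tr m).2.1

lemma inner (c : ℕ → ℤ) (m : ℕ) :
    HasSum (fun n => (c n : ℝ) * ((v n m : ℝ) * y m)) ((s c m : ℝ) * y m) := by
  unfold s v
  split_ifs with h
  · simp
  · have h1 := (hasSum_ite_eq (tr m).1 ((c (tr m).1 : ℝ) * y m)).add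
      (hasSum_ite_eq (tr m).2.1 ((sg (tr m).2.2 : ℝ) * c (tr m).2.1 * y m))
    convert h1 using 1
    · ext n
      by_cases h2 : n = (tr m).1 <;> by_cases h3 : n = (tr m).2.1
      · exfalso; apply h; rw [← h2, ← h3]
      · have h3' : ¬ (tr m).1 = (tr m).2.1 := by rw [← h2]; exact h3
        simp [h2, h3']
      · have h3' : ¬ (tr m).2.1 = (tr m).1 := by rw [← h3]; exact h2
        simp [h3, h3']; ring
      · simp [h2, h3]
    · push_cast; ring

lemma exch (c : ℕ → ℤ) (hc : ∀ n, |c n| ≤ 1) :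
    HasSum (fun n => (c n : ℝ) * b n) (∑' m, (s c m : ℝ) * y m) := by
  have hF := F_sum c hc
  have hF' := (Equiv.prodComm ℕ ℕ).summable_iff.mpr hF
  have h1 : Summable (fun n => ∑' m, (c n : ℝ) * ((v n m : ℝ) * y m)) := hF'.prod
  have h2 : (fun n => ∑' m, (c n : ℝ) * ((v n m : ℝ) * y m)) = fun n => (c n : ℝ) * b n := by
    ext n; rw [tsum_mul_left]; rfl
  rw [← h2]
  have h3 : ∑' n, ∑' m, (c n : ℝ) * ((v n m : ℝ) * y m) = ∑' m, (s c m : ℝ) * y m := by
    have h4 := Summable.tsum_comm (f := fun m n => (c n : ℝ) * ((v n m : ℝ) * y m)) hF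
    rw [h4]
    apply tsum_congr
    intro m
    exact (inner c m).tsum_eq
  rw [← h3]
  exact h1.hasSum

/-- the series -/
noncomputable def xx (n : ℕ) : ℝ := if n % 2 = 0 then b (n / 2) else y (n / 2)

lemma xx_even (k : ℕ) : xx (2 * k) = b k := by
  unfold xx
  rw [if_pos (by omega)]
  congr 1; omega

lemma xx_odd (k : ℕ) : xx (2 * k + 1) = y k := by
  unfold xx
  rw [if_neg (by omega)]
  congr 1; omega

lemma b_abs_sum : Summable (fun n => |b n|) := by
  have hF : Summable (fun p : ℕ × ℕ => |(v p.2 p.1 : ℝ)| * y p.1) := by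
    apply Summable.of_norm_bounded G_sum
    rintro ⟨m, n⟩
    simp only
    rw [norm_mul, Real.norm_eq_abs, Real.norm_eq_abs, abs_abs, abs_of_pos (y_pos m)]
    exact v_le_G n m
  have hF' := (Equiv.prodComm ℕ ℕ).summable_iff.mpr hF
  have h1 : Summable (fun n => ∑' m, |(v n m : ℝ)| * y m) := hF'.prod
  apply Summable.of_nonneg_of_le (fun n => abs_nonneg _) _ h1
  intro n
  have h2 : Summable (fun m => ‖(v n m : ℝ) * y m‖) := by
    have := hF'.prod_factor n
    refine this.congr ?_
    intro m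
    rw [norm_mul, Real.norm_eq_abs, Real.norm_eq_abs, abs_of_pos (y_pos m)]
    rfl
  have h3 := norm_tsum_le_tsum_norm h2
  rw [Real.norm_eq_abs] at h3
  refine h3.trans (le_of_eq ?_)
  apply tsum_congr
  intro m
  rw [norm_mul, Real.norm_eq_abs, Real.norm_eq_abs, abs_of_pos (y_pos m)]

lemma xx_abs_sum : Summable (fun n => |xx n|) := by
  have he : Summable (fun k => |xx (2 * k)|) := by
    simp only [xx_even]; exact b_abs_sum
  have ho : Summable (fun k => |xx (2 * k + 1)|) := by
    simp only [xx_odd]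
    refine y_sum.congr ?_
    intro k
    rw [abs_of_pos (y_pos k)]
  exact HasSum.summable (HasSum.even_add_odd (f := fun n => |xx n|) he.hasSum ho.hasSum)

/-- the value of a subsum -/
noncomputable def val (ε : ℕ → Bool) : ℝ := ∑' n, (if ε n = true then xx n else 0)

/-- integer value of a bool -/
def bi (c : Bool) : ℤ := if c = true then 1 else 0

lemma val_eq (ε : ℕ → Bool) :
    val ε = ∑' m, ((s (fun k => bi (ε (2 * k))) m + bi (ε (2 * m + 1)) : ℤ) : ℝ) * y m := by
  have hbi : ∀ c : Bool, |bi c| ≤ 1 := by intro c; cases c <;> simp [bi]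
  have h1 := exch (fun k => bi (ε (2 * k))) (fun n => hbi _)
  have h2 : Summable (fun m => ((bi (ε (2 * m + 1)) : ℤ) : ℝ) * y m) := by
    apply Summable.of_norm_bounded y_sum
    intro m
    rw [norm_mul, Real.norm_eq_abs, Real.norm_eq_abs, abs_of_pos (y_pos m)]
    have : |((bi (ε (2 * m + 1)) : ℤ) : ℝ)| ≤ 1 := by exact_mod_cast hbi _
    have := y_pos m
    nlinarith
  have h3 : Summable (fun m => ((s (fun k => bi (ε (2 * k))) m : ℤ) : ℝ) * y m) := by
    apply Summable.of_norm_bounded (y_sum.mul_left 2)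
    intro m
    rw [norm_mul, Real.norm_eq_abs, Real.norm_eq_abs, abs_of_pos (y_pos m)]
    have h4 : |s (fun k => bi (ε (2 * k))) m| ≤ 2 := by
      unfold s
      split_ifs
      · simp
      · have e1 := hbi (ε (2 * (tr m).1))
        have e2 := hbi (ε (2 * (tr m).2.1))
        have e3 := sg_abs (tr m).2.2
        calc |bi (ε (2 * (tr m).1)) + sg (tr m).2.2 * bi (ε (2 * (tr m).2.1))|
            ≤ |bi (ε (2 * (tr m).1))| + |sg (tr m).2.2 * bi (ε (2 * (tr m).2.1))| := abs_add_le _ _
          _ ≤ 2 := by rw [abs_mul, e3, one_mul]; linarith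
    have h5 : |((s (fun k => bi (ε (2 * k))) m : ℤ) : ℝ)| ≤ 2 := by exact_mod_cast h4
    exact mul_le_mul_of_nonneg_right h5 (y_pos m).le
  have h6 : HasSum (fun n => (if ε n = true then xx n else 0))
      ((∑' m, ((s (fun k => bi (ε (2 * k))) m : ℤ) : ℝ) * y m) +
        ∑' m, ((bi (ε (2 * m + 1)) : ℤ) : ℝ) * y m) := by
    apply HasSum.even_add_odd
    · convert h1 using 1
      funext k
      rw [xx_even]
      simp only [bi]
      split_ifs <;> simp
    · convert h2.hasSum using 1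
      funext k
      rw [xx_odd]
      simp only [bi]
      split_ifs <;> simp
  unfold val
  rw [h6.tsum_eq, ← h3.tsum_add h2]
  apply tsum_congr
  intro m
  push_cast
  ring

lemma s_bound (ε : ℕ → Bool) (m : ℕ) : |s (fun k => bi (ε (2 * k))) m| ≤ 2 := by
  have hbi : ∀ c : Bool, |bi c| ≤ 1 := by intro c; cases c <;> simp [bi]
  unfold s
  split_ifs
  · simp
  · have e1 := hbi (ε (2 * (tr m).1))
    have e2 := hbi (ε (2 * (tr m).2.1))
    have e3 := sg_abs (tr m).2.2
    calc |bi (ε (2 * (tr m).1)) + sg (tr m).2.2 * bi (ε (2 * (tr m).2.1))|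
        ≤ |bi (ε (2 * (tr m).1))| + |sg (tr m).2.2 * bi (ε (2 * (tr m).2.1))| := abs_add_le _ _
      _ ≤ 2 := by rw [abs_mul, e3, one_mul]; linarith

lemma coef_summable (a : ℕ → ℤ) (ha : ∀ m, |a m| ≤ 3) : Summable (fun m => (a m : ℝ) * y m) := by
  apply Summable.of_norm_bounded (y_sum.mul_left 3)
  intro m
  rw [norm_mul, Real.norm_eq_abs, Real.norm_eq_abs, abs_of_pos (y_pos m)]
  have h5 : |(a m : ℝ)| ≤ 3 := by exact_mod_cast ha m
  exact mul_le_mul_of_nonneg_right h5 (y_pos m).le

/-- difference of bools -/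
def df (ε δ : ℕ → Bool) (n : ℕ) : ℤ := bi (ε n) - bi (δ n)

lemma df_abs (ε δ : ℕ → Bool) (n : ℕ) : |df ε δ n| ≤ 1 := by
  unfold df bi
  split_ifs <;> simp

lemma df_zero {ε δ : ℕ → Bool} {n : ℕ} : df ε δ n = 0 ↔ ε n = δ n := by
  unfold df bi
  cases ε n <;> cases δ n <;> simp

lemma rel {ε δ : ℕ → Bool} (h : val ε = val δ) (m : ℕ) :
    s (fun k => df ε δ (2 * k)) m + df ε δ (2 * m + 1) = 0 := by
  have hbi : ∀ c : Bool, 0 ≤ bi c ∧ bi c ≤ 1 := by intro c; cases c <;> simp [bi]
  have hb : ∀ (ε : ℕ → Bool) (m : ℕ), |s (fun k => bi (ε (2 * k))) m + bi (ε (2 * m + 1))| ≤ 3 := by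
    intro ε m
    have h1 := abs_le.mp (s_bound ε m)
    have h2 := hbi (ε (2 * m + 1))
    rw [abs_le]; constructor <;> linarith
  have e1 : ∀ m, s (fun k => df ε δ (2 * k)) m =
      s (fun k => bi (ε (2 * k))) m - s (fun k => bi (δ (2 * k))) m := by
    intro m
    unfold s df
    split_ifs <;> ring
  have hs : ∀ m, |s (fun k => df ε δ (2 * k)) m| ≤ 2 := by
    intro m
    unfold s
    split_ifs
    · simp
    · have e1 := df_abs ε δ (2 * (tr m).1)
      have e2 := df_abs ε δ (2 * (tr m).2.1)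
      have e3 := sg_abs (tr m).2.2
      calc |df ε δ (2 * (tr m).1) + sg (tr m).2.2 * df ε δ (2 * (tr m).2.1)|
          ≤ |df ε δ (2 * (tr m).1)| + |sg (tr m).2.2 * df ε δ (2 * (tr m).2.1)| := abs_add_le _ _
        _ ≤ 2 := by rw [abs_mul, e3, one_mul]; linarith
  refine uniq (fun m => s (fun k => df ε δ (2 * k)) m + df ε δ (2 * m + 1)) ?_ ?_ m
  · intro m
    have h1 := abs_le.mp (hs m)
    have h2 := abs_le.mp (df_abs ε δ (2 * m + 1))
    rw [abs_le]; constructor <;> linarith
  · rw [val_eq, val_eq] at h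
    have h3 := (coef_summable _ (hb ε)).tsum_sub (coef_summable _ (hb δ))
    rw [h, sub_self] at h3
    rw [← h3]
    apply tsum_congr
    intro m
    rw [e1 m]
    unfold df
    push_cast
    ring

lemma key1 {ε δ : ℕ → Bool} (h : val ε = val δ) {n n' : ℕ} (hn : bl n ≠ bl n')
    (h1 : ε (2 * n) ≠ δ (2 * n)) : ε (2 * n') = δ (2 * n') := by
  obtain ⟨m, hm⟩ := tr_surj (n, n', 0)
  obtain ⟨m', hm'⟩ := tr_surj (n, n', 1)
  have r1 := rel h m
  have r2 := rel h m'
  have d1 := abs_le.mp (df_abs ε δ (2 * m + 1))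
  have d2 := abs_le.mp (df_abs ε δ (2 * m' + 1))
  unfold s at r1 r2
  rw [hm] at r1
  rw [hm'] at r2
  simp only [if_neg hn, sg, one_mul, if_true, if_neg (show ¬ (1 = 0) by norm_num)] at r1 r2
  rw [← df_zero]
  have h1' : df ε δ (2 * n) ≠ 0 := mt df_zero.mp h1
  have a1 := abs_le.mp (df_abs ε δ (2 * n))
  have a2 := abs_le.mp (df_abs ε δ (2 * n'))
  omega

lemma key2 {ε δ : ℕ → Bool} (h : val ε = val δ) (h1 : ∀ n, ε (2 * n) = δ (2 * n)) : ε = δ := by
  funext n
  rcases Nat.even_or_odd' n with ⟨k, hk | hk⟩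
  · rw [hk]; exact h1 k
  · rw [hk]
    have r := rel h k
    have e : ∀ j, df ε δ (2 * j) = 0 := fun j => df_zero.mpr (h1 j)
    unfold s at r
    simp only [e, mul_zero, add_zero, ite_self, zero_add] at r
    exact df_zero.mp r

lemma fin_fibre (t : ℝ) : Set.Finite {ε : ℕ → Bool | val ε = t} := by
  by_cases hA : ∃ ε₀ ε₁ : ℕ → Bool, ∃ n, val ε₀ = t ∧ val ε₁ = t ∧ ε₁ (2 * n) ≠ ε₀ (2 * n)
  · obtain ⟨ε₀, ε₁, n₁, h0, h1, hne⟩ := hA
    have claim : ∀ ε : ℕ → Bool, val ε = t → ∀ n, bl n ≠ bl n₁ → ε (2 * n) = ε₀ (2 * n) := by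
      intro ε hε n hn
      by_contra hc
      have a1 := key1 (hε.trans h0.symm) hn hc
      have a2 := key1 (h1.trans h0.symm) (Ne.symm hn) hne
      have a3 : ε (2 * n) ≠ ε₁ (2 * n) := by rw [a2]; exact hc
      have a4 := key1 (hε.trans h1.symm) hn a3
      apply hne
      rw [← a4, a1]
    apply Set.Finite.of_injOn (f := fun (ε : ℕ → Bool) (i : Fin (2 ^ (bl n₁ + 1))) => ε (2 * i.1))
      (t := Set.univ) (fun _ _ => Set.mem_univ _) _ Set.finite_univ
    intro ε hε δ hδ heq
    have hε' : val ε = t := hε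
    have hδ' : val δ = t := hδ
    apply key2 (hε'.trans hδ'.symm)
    intro n
    by_cases hn : bl n = bl n₁
    · have hlt : n < 2 ^ (bl n₁ + 1) := by
        rw [← hn]
        exact Nat.lt_pow_succ_log_self (by norm_num) n
      exact congrFun heq ⟨n, hlt⟩
    · rw [claim ε hε' n hn, claim δ hδ' n hn]
  · push Not at hA
    apply Set.Subsingleton.finite
    intro ε hε δ hδ
    have hε' : val ε = t := hε
    have hδ' : val δ = t := hδ
    exact key2 (hε'.trans hδ'.symm) (fun n => hA δ ε n hδ' hε')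

open Classical in
/-- base coefficients for block k -/
noncomputable def base (k m : ℕ) : ℤ := if ∃ n, bl n = k ∧ v n m = 1 then 1 else 0

/-- the flipped sequence -/
noncomputable def fl (k n : ℕ) (i : ℕ) : Bool :=
  if i % 2 = 0 then decide (i / 2 = n) else decide (base k (i / 2) - v n (i / 2) = 1)

lemma fl_even (k n j : ℕ) : fl k n (2 * j) = decide (j = n) := by
  unfold fl
  rw [if_pos (by omega)]
  congr 2; omega

lemma fl_odd (k n j : ℕ) : fl k n (2 * j + 1) = decide (base k j - v n j = 1) := by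
  unfold fl
  rw [if_neg (by omega), show (2 * j + 1) / 2 = j by omega]

lemma v_excl {n n' m : ℕ} (hb : bl n = bl n') (h : v n m ≠ 0) (h' : v n' m ≠ 0) : n = n' := by
  unfold v at h h'
  by_cases h0 : bl (tr m).1 = bl (tr m).2.1
  · rw [if_pos h0] at h; exact absurd rfl h
  rw [if_neg h0] at h h'
  have c1 : n = (tr m).1 ∨ n = (tr m).2.1 := by
    by_contra hc
    push Not at hc
    apply h
    rw [if_neg hc.1, if_neg hc.2]; rfl
  have c2 : n' = (tr m).1 ∨ n' = (tr m).2.1 := by
    by_contra hc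
    push Not at hc
    apply h'
    rw [if_neg hc.1, if_neg hc.2]; rfl
  rcases c1 with c1 | c1 <;> rcases c2 with c2 | c2
  · rw [c1, c2]
  · exfalso; apply h0; rw [← c1, ← c2]; exact hb
  · exfalso; apply h0; rw [← c1, ← c2]; exact hb.symm
  · rw [c1, c2]

lemma base_sub {k n m : ℕ} (hn : bl n = k) : base k m - v n m = 0 ∨ base k m - v n m = 1 := by
  have hv := abs_le.mp (v_abs n m)
  unfold base
  split_ifs with h
  · obtain ⟨n', hn', hv'⟩ := h
    by_cases h0 : v n m = 0
    · right; rw [h0]; norm_num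
    · have : n = n' := v_excl (hn.trans hn'.symm) h0 (by rw [hv']; norm_num)
      left; rw [this, hv']; norm_num
  · push Not at h
    have := h n hn
    omega

lemma s_single (n m : ℕ) : s (fun k => bi (decide (k = n))) m = v n m := by
  unfold s v
  split_ifs with h h1 h2 h2
  · rfl
  · exfalso; apply h; rw [← h1, ← h2]
  · have e1 : bi (decide ((tr m).1 = n)) = 1 := by simp [bi, h1]
    have e2 : bi (decide ((tr m).2.1 = n)) = 0 := by simp [bi, Ne.symm h2]
    simp only [e1, e2]; ring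
  · have e1 : bi (decide ((tr m).1 = n)) = 0 := by simp [bi, Ne.symm h1]
    have e2 : bi (decide ((tr m).2.1 = n)) = 1 := by simp [bi, h2]
    simp only [e1, e2]; ring
  · have e1 : bi (decide ((tr m).1 = n)) = 0 := by simp [bi, Ne.symm h1]
    have e2 : bi (decide ((tr m).2.1 = n)) = 0 := by simp [bi, Ne.symm h2]
    simp only [e1, e2]; ring

lemma val_fl {k n : ℕ} (hn : bl n = k) : val (fl k n) = ∑' m, ((base k m : ℤ) : ℝ) * y m := by
  rw [val_eq]
  apply tsum_congr
  intro m
  congr 2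
  have h1 : (fun j => bi (fl k n (2 * j))) = fun j => bi (decide (j = n)) := by
    funext j; rw [fl_even]
  rw [h1, s_single, fl_odd]
  rcases base_sub (m := m) hn with h | h
  · have : bi (decide (base k m - v n m = 1)) = 0 := by simp [bi, h]
    rw [this]; linarith
  · have : bi (decide (base k m - v n m = 1)) = 1 := by simp [bi, h]
    rw [this]; linarith

/-- There is an absolutely convergent real series such that, counting 0-1 sequences whose subsum equals t, some t gives arbitrarily large finite counts, and no t gives countably infinitely many or continuum many. -/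
theorem result :
    ∃ x : ℕ → ℝ, Summable (fun n => |x n|) ∧
      (∀ N : ℕ, ∃ t : ℝ, ∃ k : ℕ, N ≤ k ∧
        Cardinal.mk {ε : ℕ → Bool // ∑' n, (if ε n = true then x n else 0) = t} = (k : Cardinal)) ∧
      (∀ t : ℝ,
        Cardinal.mk {ε : ℕ → Bool // ∑' n, (if ε n = true then x n else 0) = t} ≠ Cardinal.aleph0 ∧
        Cardinal.mk {ε : ℕ → Bool // ∑' n, (if ε n = true then x n else 0) = t} ≠ Cardinal.continuum) := by
  refine ⟨xx, xx_abs_sum, ?_, ?_⟩
  · intro N
    refine ⟨∑' m, ((base N m : ℤ) : ℝ) * y m, ?_⟩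
    have hfin := fin_fibre (∑' m, ((base N m : ℤ) : ℝ) * y m)
    haveI : Finite {ε : ℕ → Bool // val ε = ∑' m, ((base N m : ℤ) : ℝ) * y m} := hfin
    refine ⟨Nat.card {ε : ℕ → Bool // val ε = ∑' m, ((base N m : ℤ) : ℝ) * y m}, ?_, ?_⟩
    · have hbl : ∀ i : Fin N, bl (2 ^ N + i.1) = N := by
        intro i
        unfold bl
        rw [Nat.log_eq_iff (by right; exact ⟨by norm_num, by positivity⟩)]
        refine ⟨by omega, ?_⟩
        rw [pow_succ]
        have := (Nat.lt_two_pow_self (n := N))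
        have := i.2
        omega
      have hinj : Function.Injective (fun i : Fin N =>
          (⟨fl N (2 ^ N + i.1), val_fl (hbl i)⟩ :
            {ε : ℕ → Bool // val ε = ∑' m, ((base N m : ℤ) : ℝ) * y m})) := by
        intro i j hij
        have h1 := congrArg Subtype.val hij
        have h2 := congrFun h1 (2 * (2 ^ N + i.1))
        simp only [fl_even] at h2
        have h3 : 2 ^ N + i.1 = 2 ^ N + j.1 := by simpa using h2
        ext; omega
      have := Nat.card_le_card_of_injective _ hinj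
      rwa [Nat.card_eq_fintype_card, Fintype.card_fin] at this
    · exact (Nat.cast_card (α := {ε : ℕ → Bool // val ε = ∑' m, ((base N m : ℤ) : ℝ) * y m})).symm
  · intro t
    haveI : Finite {ε : ℕ → Bool // val ε = t} := fin_fibre t
    have h1 : Cardinal.mk {ε : ℕ → Bool // val ε = t} < Cardinal.aleph0 :=
      Cardinal.lt_aleph0_of_finite _
    exact ⟨h1.ne, (h1.trans_le Cardinal.aleph0_le_continuum).ne⟩

end Pool.Agent.S03363
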