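import Pool.Statements.S03650
-- import your own Pool.Agent.* helpers here

set_option autoImplicit false
open Filter Topology
open Pool Pool.MP_8ba4a6_an

namespace Pool.Agent.S03650

/-- the function -/
noncomputable def ff (x y : ℝ) : ℝ :=
  Real.exp (-(Real.log x + Real.log x ^ 3) - (Real.log y + Real.log y ^ 3) / 2)

lemma cube_lt {a b : ℝ} (h : a < b) : a + a ^ 3 < b + b ^ 3 := by
  have : 0 < a ^ 2 + a * b + b ^ 2 + 1 := by nlinarith [sq_nonneg (a + b), sq_nonneg a, sq_nonneg b]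
  nlinarith [mul_pos (sub_pos.mpr h) this]

lemma cube_le {a b : ℝ} (h : a ≤ b) : a + a ^ 3 ≤ b + b ^ 3 := by
  rcases h.lt_or_eq with h | h
  · exact (cube_lt h).le
  · rw [h]

lemma u_rec (x : ℕ → ℝ) (h0 : 0 < x 0) (h1 : 0 < x 1)
    (h : ∀ n : ℕ, x (n + 2) = x (n + 1) * ff (x (n + 1)) (x n)) :
    (∀ n, 0 < x n) ∧ ∀ n, Real.log (x (n + 2)) =
      - Real.log (x (n + 1)) ^ 3 - (Real.log (x n) + Real.log (x n) ^ 3) / 2 := by
  have hp : ∀ n, 0 < x n ∧ 0 < x (n + 1) := by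
    intro n
    induction n with
    | zero => exact ⟨h0, h1⟩
    | succ n ih =>
      refine ⟨ih.2, ?_⟩
      rw [h n]
      exact mul_pos ih.2 (Real.exp_pos _)
  refine ⟨fun n => (hp n).1, fun n => ?_⟩
  rw [h n, ff, Real.log_mul (hp n).2.ne' (Real.exp_pos _).ne', Real.log_exp]
  ring

lemma contr (u : ℕ → ℝ) (K : ℝ) (hK : K ≤ 1 / 4) (h0 : |u 0| ≤ K) (h1 : |u 1| ≤ K * 0.8)
    (h : ∀ n, u (n + 2) = - u (n + 1) ^ 3 - (u n + u n ^ 3) / 2) :
    ∀ n, |u n| ≤ K * 0.8 ^ n := by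
  have hK0 : 0 ≤ K := le_trans (abs_nonneg _) h0
  have hp : ∀ n, |u n| ≤ K * 0.8 ^ n ∧ |u (n + 1)| ≤ K * 0.8 ^ (n + 1) := by
    intro n
    induction n with
    | zero => simpa using ⟨h0, h1⟩
    | succ n ih =>
      refine ⟨ih.2, ?_⟩
      obtain ⟨i1, i2⟩ := ih
      have hq : (0:ℝ) < 0.8 ^ n := by positivity
      have hq1 : (0.8:ℝ) ^ n ≤ 1 := pow_le_one₀ (by norm_num) (by norm_num)
      set q : ℝ := 0.8 ^ n with hqdef
      have e1 : (0.8:ℝ) ^ (n + 1) = 0.8 * q := by rw [pow_succ]; ring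
      have e2 : (0.8:ℝ) ^ (n + 1 + 1) = 0.64 * q := by rw [pow_succ, pow_succ]; ring
      rw [e1] at i2
      rw [e2, show n + 1 + 1 = n + 2 by ring, h n]
      have a1 : |u (n + 1) ^ 3| ≤ (1 / 16) * (K * (0.8 * q)) := by
        rw [abs_pow]
        have hb : |u (n + 1)| ≤ 1 / 4 := by nlinarith
        have : |u (n + 1)| ^ 3 = |u (n + 1)| ^ 2 * |u (n + 1)| := by ring
        rw [this]
        have : |u (n + 1)| ^ 2 ≤ 1 / 16 := by nlinarith [abs_nonneg (u (n + 1))]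
        nlinarith [abs_nonneg (u (n + 1))]
      have a2 : |u n ^ 3| ≤ (1 / 16) * (K * q) := by
        rw [abs_pow]
        have hb : |u n| ≤ 1 / 4 := by nlinarith
        have : |u n| ^ 3 = |u n| ^ 2 * |u n| := by ring
        rw [this]
        have : |u n| ^ 2 ≤ 1 / 16 := by nlinarith [abs_nonneg (u n)]
        nlinarith [abs_nonneg (u n)]
      have b1 := abs_le.mp a1
      have b2 := abs_le.mp a2
      have b3 := abs_le.mp i1
      have hKq : 0 ≤ K * q := mul_nonneg hK0 hq.le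
      rw [abs_le]
      constructor <;> nlinarith
  exact fun n => (hp n).1

lemma u_small (x : ℕ → ℝ) (h0 : 0 < x 0) (h1 : 0 < x 1)
    (h : ∀ n : ℕ, x (n + 2) = x (n + 1) * ff (x (n + 1)) (x n)) (K : ℝ) (hK : K ≤ 1 / 4)
    (a0 : |Real.log (x 0)| ≤ K * 0.8) (a1 : |Real.log (x 1)| ≤ K * 0.8) :
    ∀ n, |Real.log (x n)| ≤ K * 0.8 ^ n := by
  have hu := (u_rec x h0 h1 h).2
  apply contr (fun n => Real.log (x n)) K hK _ a1 hu
  have := abs_nonneg (Real.log (x 0))
  linarith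

lemma log_cont {η : ℝ} (hη : 0 < η) : ∃ δ : ℝ, 0 < δ ∧ ∀ x : ℝ, |x - 1| < δ → |Real.log x| < η := by
  have h := Real.continuousAt_log (one_ne_zero (α := ℝ))
  rw [Metric.continuousAt_iff] at h
  obtain ⟨δ, hδ, h2⟩ := h η hη
  refine ⟨δ, hδ, fun x hx => ?_⟩
  have := h2 (x := x) (by rw [Real.dist_eq]; exact hx)
  rw [Real.dist_eq, Real.log_one, sub_zero] at this
  exact this

lemma exp_cont {ε : ℝ} (hε : 0 < ε) : ∃ η : ℝ, 0 < η ∧ ∀ u : ℝ, |u| < η → |Real.exp u - 1| < ε := by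
  have h := Real.continuous_exp.continuousAt (x := (0:ℝ))
  rw [Metric.continuousAt_iff] at h
  obtain ⟨δ, hδ, h2⟩ := h ε hε
  refine ⟨δ, hδ, fun x hx => ?_⟩
  have := h2 (x := x) (by rw [Real.dist_eq, sub_zero]; exact hx)
  rw [Real.dist_eq, Real.exp_zero] at this
  exact this

/-- the periodic orbit in logarithmic scale -/
noncomputable def w (n : ℕ) : ℝ := if n % 3 = 0 then 1 else if n % 3 = 1 then 0 else -1

/-- The negation of the preceding statement: If f>0 is continuous on the positive quadrant, nonincreasing in x, strictly decreasing in y, x·f(x,x) strictly decreasing, and the unique positive equilibrium of x_{n+1}=x_n f(x_n,x_{n-1}) is locally asymptotically stable, then every positive solution converges to it. -/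
theorem result :
    ¬ (∀ (f : ℝ → ℝ → ℝ) (xbar : ℝ),
      ContinuousOn (fun p : ℝ × ℝ => f p.1 p.2) (Set.Ioi (0:ℝ) ×ˢ Set.Ioi (0:ℝ)) →
      (∀ x y : ℝ, 0 < x → 0 < y → 0 < f x y) →
      (∀ x₁ x₂ y : ℝ, 0 < x₁ → x₁ ≤ x₂ → 0 < y → f x₂ y ≤ f x₁ y) →
      (∀ x y₁ y₂ : ℝ, 0 < x → 0 < y₁ → y₁ < y₂ → f x y₂ < f x y₁) →
      (∀ x₁ x₂ : ℝ, 0 < x₁ → x₁ < x₂ → x₂ * f x₂ x₂ < x₁ * f x₁ x₁) →
      0 < xbar →
      f xbar xbar = 1 →
      (∀ y : ℝ, 0 < y → f y y = 1 → y = xbar) →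
      (∀ ε : ℝ, 0 < ε → ∃ δ : ℝ, 0 < δ ∧
        ∀ x : ℕ → ℝ, 0 < x 0 → 0 < x 1 →
          (∀ n : ℕ, x (n + 2) = x (n + 1) * f (x (n + 1)) (x n)) →
          |x 0 - xbar| + |x 1 - xbar| < δ →
          ∀ n : ℕ, |x n - xbar| < ε) →
      (∃ γ : ℝ, 0 < γ ∧
        ∀ x : ℕ → ℝ, 0 < x 0 → 0 < x 1 →
          (∀ n : ℕ, x (n + 2) = x (n + 1) * f (x (n + 1)) (x n)) →
          |x 0 - xbar| + |x 1 - xbar| < γ →
          Tendsto x atTop (𝓝 xbar)) →
      ∀ x : ℕ → ℝ, 0 < x 0 → 0 < x 1 →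
        (∀ n : ℕ, x (n + 2) = x (n + 1) * f (x (n + 1)) (x n)) →
        Tendsto x atTop (𝓝 xbar)) := by
  intro H
  have h := H ff 1 ?_ ?_ ?_ ?_ ?_ one_pos ?_ ?_ ?_ ?_ (fun n => Real.exp (w n)) (Real.exp_pos _)
    (Real.exp_pos _) ?_
  · -- contradiction with convergence
    have h3 := h.comp (tendsto_id.const_mul_atTop' (show 0 < 3 by norm_num) : Tendsto (fun n : ℕ => 3 * n) atTop atTop)
    have h4 : (fun n => Real.exp (w n)) ∘ (fun n : ℕ => 3 * n) = fun _ => Real.exp 1 := by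
      funext n
      simp only [Function.comp, w]
      rw [if_pos (by omega)]
    rw [h4] at h3
    have h5 := tendsto_nhds_unique h3 tendsto_const_nhds
    have h6 := Real.add_one_lt_exp (one_ne_zero (α := ℝ))
    linarith
  · have hl1 : ContinuousOn (fun p : ℝ × ℝ => Real.log p.1) (Set.Ioi (0:ℝ) ×ˢ Set.Ioi (0:ℝ)) := by
      apply ContinuousOn.log continuousOn_fst
      intro p hp
      exact (Set.mem_Ioi.mp hp.1).ne'
    have hl2 : ContinuousOn (fun p : ℝ × ℝ => Real.log p.2) (Set.Ioi (0:ℝ) ×ˢ Set.Ioi (0:ℝ)) := by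
      apply ContinuousOn.log continuousOn_snd
      intro p hp
      exact (Set.mem_Ioi.mp hp.2).ne'
    unfold ff
    exact ((hl1.add (hl1.pow 3)).neg.sub ((hl2.add (hl2.pow 3)).div_const 2)).rexp
  · intro x y _ _; exact Real.exp_pos _
  · intro x₁ x₂ y h1 h2 h3
    unfold ff
    apply Real.exp_le_exp.mpr
    have := cube_le (Real.log_le_log h1 h2)
    linarith
  · intro x y₁ y₂ h1 h2 h3
    unfold ff
    apply Real.exp_lt_exp.mpr
    have := cube_lt (Real.log_lt_log h2 h3)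
    linarith
  · intro x₁ x₂ h1 h2
    have e : ∀ x : ℝ, 0 < x → x * ff x x = Real.exp (-(Real.log x) ^ 3 - (Real.log x + Real.log x ^ 3) / 2) := by
      intro x hx
      unfold ff
      nth_rewrite 1 [← Real.exp_log hx]
      rw [← Real.exp_add]
      congr 1; ring
    rw [e x₁ h1, e x₂ (h1.trans h2)]
    apply Real.exp_lt_exp.mpr
    have hlog := Real.log_lt_log h1 h2
    have := cube_lt hlog
    have h3 : Real.log x₁ ^ 3 < Real.log x₂ ^ 3 := by
      have := (Odd.strictMono_pow (R := ℝ) (n := 3) (by decide)) hlog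
      exact this
    linarith
  · unfold ff; simp
  · intro y hy h1
    unfold ff at h1
    rw [Real.exp_eq_one_iff] at h1
    have h2 : Real.log y = 0 := by
      have : Real.log y * (Real.log y ^ 2 + 1) = 0 := by nlinarith
      rcases mul_eq_zero.mp this with h | h
      · exact h
      · nlinarith [sq_nonneg (Real.log y)]
    exact Real.eq_one_of_pos_of_log_eq_zero hy h2
  · intro ε hε
    obtain ⟨η, hη, h1⟩ := exp_cont hε
    set K := min (1 / 4) (η / 2) with hK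
    have hKpos : 0 < K := lt_min (by norm_num) (by linarith)
    obtain ⟨δ, hδ, h2⟩ := log_cont (show 0 < K * 0.8 by positivity)
    refine ⟨δ, hδ, fun x p0 p1 hx hd n => ?_⟩
    have d0 : |x 0 - 1| < δ := lt_of_le_of_lt (le_add_of_nonneg_right (abs_nonneg _)) hd
    have d1 : |x 1 - 1| < δ := lt_of_le_of_lt (le_add_of_nonneg_left (abs_nonneg _)) hd
    have h3 := u_small x p0 p1 hx K (min_le_left _ _) (h2 _ d0).le (h2 _ d1).le n
    have h4 : K * 0.8 ^ n ≤ K := by
      have : (0.8:ℝ) ^ n ≤ 1 := pow_le_one₀ (by norm_num) (by norm_num)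
      nlinarith
    have h5 : K ≤ η / 2 := min_le_right _ _
    have h6 := h1 (Real.log (x n)) (by linarith)
    rwa [Real.exp_log ((u_rec x p0 p1 hx).1 n)] at h6
  · obtain ⟨δ, hδ, h2⟩ := log_cont (show (0:ℝ) < 1 / 4 * 0.8 by norm_num)
    refine ⟨δ, hδ, fun x p0 p1 hx hd => ?_⟩
    have d0 : |x 0 - 1| < δ := lt_of_le_of_lt (le_add_of_nonneg_right (abs_nonneg _)) hd
    have d1 : |x 1 - 1| < δ := lt_of_le_of_lt (le_add_of_nonneg_left (abs_nonneg _)) hd
    have h3 := u_small x p0 p1 hx (1 / 4) le_rfl (h2 _ d0).le (h2 _ d1).le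
    have h4 : Tendsto (fun n => Real.log (x n)) atTop (𝓝 0) := by
      rw [tendsto_zero_iff_abs_tendsto_zero]
      apply squeeze_zero (fun n => abs_nonneg _) h3
      have := (tendsto_pow_atTop_nhds_zero_of_lt_one (r := (0.8:ℝ)) (by norm_num) (by norm_num)).const_mul (1/4)
      simpa using this
    have h5 := (Real.continuous_exp.tendsto 0).comp h4
    rw [Real.exp_zero] at h5
    refine h5.congr ?_
    intro n
    exact Real.exp_log ((u_rec x p0 p1 hx).1 n)
  · intro n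
    simp only [ff, Real.log_exp]
    rw [← Real.exp_add]
    congr 1
    unfold w
    have h3 : n % 3 = 0 ∨ n % 3 = 1 ∨ n % 3 = 2 := by omega
    rcases h3 with h | h | h
    · have e1 : (n + 1) % 3 = 1 := by omega
      have e2 : (n + 2) % 3 = 2 := by omega
      simp only [h, e1, e2]; norm_num
    · have e1 : (n + 1) % 3 = 2 := by omega
      have e2 : (n + 2) % 3 = 0 := by omega
      simp only [h, e1, e2]; norm_num
    · have e1 : (n + 1) % 3 = 0 := by omega
      have e2 : (n + 2) % 3 = 1 := by omega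
      simp only [h, e1, e2]; norm_num

end Pool.Agent.S03650
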