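import Pool.Statements.S04928
-- import your own Pool.Agent.* helpers here

set_option autoImplicit false
open Pool Pool.MP_13cbaf_co

namespace Pool.Agent.S04928

/-- basic adjacency -/
def ab (i j : ℕ) : Bool :=
  (decide (i = 0) && (decide (3 ≤ j) && decide (j < 15))) || (decide (i = 1) && decide (3 ≤ j)) ||
    (decide (i = 2) && decide (15 ≤ j))

/-- the graph -/
def GG : SimpleGraph (Fin 27) where
  Adj i j := (ab i.1 j.1 || ab j.1 i.1) = true
  symm := ⟨fun i j h => by rw [Bool.or_comm]; exact h⟩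
  loopless := ⟨by decide⟩

/-- the graph with the edge -/
def HH : SimpleGraph (Fin 27) where
  Adj i j := (ab i.1 j.1 || ab j.1 i.1) = true ∨ (i = 0 ∧ j = 2) ∨ (i = 2 ∧ j = 0)
  symm := ⟨fun i j h => by
    rcases h with h | h | h
    · left; rw [Bool.or_comm]; exact h
    · right; right; exact ⟨h.2, h.1⟩
    · right; left; exact ⟨h.2, h.1⟩⟩
  loopless := ⟨by decide⟩

instance : DecidableRel GG.Adj := fun i j => by unfold GG; infer_instance
instance : DecidableRel HH.Adj := fun i j => by unfold HH; infer_instance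

/-- block -/
def C0 : Matrix (Fin 3) (Fin 24) ℤ := fun i j => if ab i.1 (j.1 + 3) then 1 else 0

/-- block over the reals -/
def C : Matrix (Fin 3) (Fin 24) ℝ := C0.map (fun z : ℤ => (z : ℝ))

lemma C0_mul : C0 * C0.transpose = !![12, 12, 0; 12, 24, 12; 0, 12, 12] := by decide +kernel

lemma C_mul : C * C.transpose = !![12, 12, 0; 12, 24, 12; 0, 12, 12] := by
  have h := congrArg (fun M : Matrix (Fin 3) (Fin 3) ℤ => M.map (Int.castRingHom ℝ)) C0_mul
  simp only [Matrix.map_mul] at h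
  have h2 : (C0.map (Int.castRingHom ℝ)) = C := rfl
  have h3 : (C0.transpose.map (Int.castRingHom ℝ)) = C.transpose := rfl
  rw [h2, h3] at h
  rw [h]
  ext i j
  fin_cases i <;> fin_cases j <;> simp

/-- block -/
def BH : Matrix (Fin 3) (Fin 3) ℝ := !![0, 0, 1; 0, 0, 0; 1, 0, 0]

lemma blockdet (B : Matrix (Fin 3) (Fin 3) ℝ) (C : Matrix (Fin 3) (Fin 24) ℝ) (x : ℝ) :
    (Matrix.scalar _ x - Matrix.fromBlocks B C C.transpose 0).det * x ^ 3 =
      (x • (x • (1 : Matrix (Fin 3) (Fin 3) ℝ) - B) - C * C.transpose).det * x ^ 24 := by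
  have key : (Matrix.scalar _ x - Matrix.fromBlocks B C C.transpose 0) *
      Matrix.fromBlocks (x • (1 : Matrix (Fin 3) (Fin 3) ℝ)) 0 C.transpose 1 =
      Matrix.fromBlocks (x • (x • (1 : Matrix (Fin 3) (Fin 3) ℝ) - B) - C * C.transpose) (-C) 0
        (x • (1 : Matrix (Fin 24) (Fin 24) ℝ)) := by
    have : (Matrix.scalar (Fin 3 ⊕ Fin 24) x - Matrix.fromBlocks B C C.transpose 0) =
        Matrix.fromBlocks (x • (1 : Matrix (Fin 3) (Fin 3) ℝ) - B) (-C) (-C.transpose)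
          (x • (1 : Matrix (Fin 24) (Fin 24) ℝ)) := by
      ext i j
      rcases i with i | i <;> rcases j with j | j <;>
        simp [Matrix.scalar_apply, Matrix.diagonal_apply, Matrix.one_apply, Matrix.fromBlocks]
    rw [this, Matrix.fromBlocks_multiply]
    congr 1
    · simp [Matrix.mul_smul, sub_eq_add_neg]
    · simp
    · simp
    · simp
  have h2 := congrArg Matrix.det key
  rw [Matrix.det_mul, Matrix.det_fromBlocks_zero₁₂, Matrix.det_fromBlocks_zero₂₁] at h2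
  simp only [Matrix.det_smul, Matrix.det_one, Fintype.card_fin, mul_one] at h2
  exact h2

/-- index equivalence -/
def ee : Fin 3 ⊕ Fin 24 ≃ Fin 27 := finSumFinEquiv

lemma G_mat : (GG.adjMatrix ℝ).submatrix ee ee = Matrix.fromBlocks 0 C C.transpose 0 := by
  have h11 : ∀ i j : Fin 3, ¬ GG.Adj (ee (Sum.inl i)) (ee (Sum.inl j)) := by decide +kernel
  have h12 : ∀ (i : Fin 3) (j : Fin 24), GG.Adj (ee (Sum.inl i)) (ee (Sum.inr j)) ↔
    ab i.1 (j.1 + 3) = true := by decide +kernel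
  have h21 : ∀ (i : Fin 3) (j : Fin 24), GG.Adj (ee (Sum.inr j)) (ee (Sum.inl i)) ↔
    ab i.1 (j.1 + 3) = true := by decide +kernel
  have h22 : ∀ i j : Fin 24, ¬ GG.Adj (ee (Sum.inr i)) (ee (Sum.inr j)) := by decide +kernel
  ext i j
  rcases i with i | i <;> rcases j with j | j
  · simp [SimpleGraph.adjMatrix_apply, h11]
  · simp only [Matrix.submatrix_apply, SimpleGraph.adjMatrix_apply, Matrix.fromBlocks_apply₁₂, C, C0,
      Matrix.map_apply, h12]
    split_ifs <;> simp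
  · simp only [Matrix.submatrix_apply, SimpleGraph.adjMatrix_apply, Matrix.fromBlocks_apply₂₁, C, C0,
      Matrix.map_apply, Matrix.transpose_apply, h21]
    split_ifs <;> simp
  · simp [SimpleGraph.adjMatrix_apply, h22]

lemma H_mat : (HH.adjMatrix ℝ).submatrix ee ee = Matrix.fromBlocks BH C C.transpose 0 := by
  have h11 : ∀ i j : Fin 3, HH.Adj (ee (Sum.inl i)) (ee (Sum.inl j)) ↔
    ((i = 0 ∧ j = 2) ∨ (i = 2 ∧ j = 0)) := by decide +kernel
  have h12 : ∀ (i : Fin 3) (j : Fin 24), HH.Adj (ee (Sum.inl i)) (ee (Sum.inr j)) ↔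
    ab i.1 (j.1 + 3) = true := by decide +kernel
  have h21 : ∀ (i : Fin 3) (j : Fin 24), HH.Adj (ee (Sum.inr j)) (ee (Sum.inl i)) ↔
    ab i.1 (j.1 + 3) = true := by decide +kernel
  have h22 : ∀ i j : Fin 24, ¬ HH.Adj (ee (Sum.inr i)) (ee (Sum.inr j)) := by decide +kernel
  ext i j
  rcases i with i | i <;> rcases j with j | j
  · simp only [Matrix.submatrix_apply, SimpleGraph.adjMatrix_apply, Matrix.fromBlocks_apply₁₁, h11]
    fin_cases i <;> fin_cases j <;> simp [BH]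
  · simp only [Matrix.submatrix_apply, SimpleGraph.adjMatrix_apply, Matrix.fromBlocks_apply₁₂, C, C0,
      Matrix.map_apply, h12]
    split_ifs <;> simp
  · simp only [Matrix.submatrix_apply, SimpleGraph.adjMatrix_apply, Matrix.fromBlocks_apply₂₁, C, C0,
      Matrix.map_apply, Matrix.transpose_apply, h21]
    split_ifs <;> simp
  · simp [SimpleGraph.adjMatrix_apply, h22]

lemma charpoly_sub (M : Matrix (Fin 27) (Fin 27) ℝ) : (M.submatrix ee ee).charpoly = M.charpoly := by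
  have := Matrix.charpoly_reindex ee.symm M
  rw [← this]
  rfl

lemma G_det (x : ℝ) : (x • (x • (1 : Matrix (Fin 3) (Fin 3) ℝ) - 0) - C * C.transpose).det =
    x ^ 2 * ((x ^ 2 - 12) * (x ^ 2 - 36)) := by
  rw [C_mul, Matrix.det_fin_three]
  simp
  ring

lemma H_det (x : ℝ) : (x • (x • (1 : Matrix (Fin 3) (Fin 3) ℝ) - BH) - C * C.transpose).det =
    x * ((x - 3) * (x + 4) * (x ^ 3 - x ^ 2 - 36 * x + 24)) := by
  rw [C_mul, Matrix.det_fin_three]
  simp [BH]
  ring

lemma G_eval (x : ℝ) : (GG.adjMatrix ℝ).charpoly.eval x * x ^ 3 =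
    x ^ 24 * (x ^ 2 * ((x ^ 2 - 12) * (x ^ 2 - 36))) := by
  have h1 : (GG.adjMatrix ℝ).charpoly.eval x =
    (Matrix.scalar _ x - Matrix.fromBlocks 0 C C.transpose 0).det := by
    rw [← charpoly_sub, G_mat, Matrix.eval_charpoly]
  rw [h1, blockdet, G_det, mul_comm]

lemma H_eval (x : ℝ) : (HH.adjMatrix ℝ).charpoly.eval x * x ^ 3 =
    x ^ 24 * (x * ((x - 3) * (x + 4) * (x ^ 3 - x ^ 2 - 36 * x + 24))) := by
  have h1 : (HH.adjMatrix ℝ).charpoly.eval x =
    (Matrix.scalar _ x - Matrix.fromBlocks BH C C.transpose 0).det := by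
    rw [← charpoly_sub, H_mat, Matrix.eval_charpoly]
  rw [h1, blockdet, H_det, mul_comm]

open Polynomial in
lemma G_aux (p : ℝ[X]) (h : ∀ x : ℝ, p.eval x * x ^ 3 =
    x ^ 24 * (x ^ 2 * ((x ^ 2 - 12) * (x ^ 2 - 36)))) : p * X ^ 3 =
    X ^ 24 * (X ^ 2 * ((X ^ 2 - Polynomial.C 12) * (X ^ 2 - Polynomial.C 36))) := by
  apply Polynomial.funext
  intro x
  simp only [eval_mul, eval_pow, eval_X, eval_sub, eval_C]
  exact h x

open Polynomial in
lemma H_aux (p : ℝ[X]) (h : ∀ x : ℝ, p.eval x * x ^ 3 =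
    x ^ 24 * (x * ((x - 3) * (x + 4) * (x ^ 3 - x ^ 2 - 36 * x + 24)))) : p * X ^ 3 =
    X ^ 24 * (X * ((X - Polynomial.C 3) * (X + Polynomial.C 4) *
      (X ^ 3 - X ^ 2 - Polynomial.C 36 * X + Polynomial.C 24))) := by
  apply Polynomial.funext
  intro x
  simp only [eval_mul, eval_pow, eval_X, eval_sub, eval_C, eval_add]
  exact h x

/-- the functional -/
noncomputable def sp (p : Polynomial ℝ) : ℝ :=
  ((p.roots.filter (fun x : ℝ => 0 < x)).map (fun x : ℝ => x ^ 2)).sum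

lemma sp_mul {p q : Polynomial ℝ} (h : p * q ≠ 0) : sp (p * q) = sp p + sp q := by
  unfold sp
  rw [Polynomial.roots_mul h, Multiset.filter_add, Multiset.map_add, Multiset.sum_add]

lemma sp_X_pow (k : ℕ) : sp (Polynomial.X ^ k) = 0 := by
  unfold sp
  have : ((Polynomial.X ^ k : Polynomial ℝ).roots.filter (fun x : ℝ => 0 < x)) = 0 := by
    rw [Multiset.filter_eq_nil]
    intro a ha
    rw [Polynomial.roots_X_pow] at ha
    have := Multiset.mem_of_mem_nsmul ha
    rw [Multiset.mem_singleton] at this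
    rw [this]; exact lt_irrefl _
  rw [this]; simp

lemma sp_X : sp (Polynomial.X) = 0 := by
  have := sp_X_pow 1
  rwa [pow_one] at this

lemma sp_pos {a : ℝ} (ha : 0 < a) : sp (Polynomial.X - Polynomial.C a) = a ^ 2 := by
  unfold sp
  rw [Polynomial.roots_X_sub_C, Multiset.filter_singleton, if_pos ha]
  simp

lemma sp_neg {a : ℝ} (ha : a ≤ 0) : sp (Polynomial.X - Polynomial.C a) = 0 := by
  unfold sp
  rw [Polynomial.roots_X_sub_C, Multiset.filter_singleton, if_neg (not_lt.mpr ha)]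
  simp

lemma sp_sq {a : ℝ} (ha : 0 < a) : sp (Polynomial.X ^ 2 - Polynomial.C (a ^ 2)) = a ^ 2 := by
  have h : (Polynomial.X ^ 2 - Polynomial.C (a ^ 2) : Polynomial ℝ) =
      (Polynomial.X - Polynomial.C a) * (Polynomial.X - Polynomial.C (-a)) := by
    simp only [Polynomial.C_neg, Polynomial.C_pow]
    ring
  rw [h, sp_mul (mul_ne_zero (Polynomial.X_sub_C_ne_zero _) (Polynomial.X_sub_C_ne_zero _)),
    sp_pos ha, sp_neg (by linarith)]
  ring

lemma sp_cubic : ∃ r₁ r₂ r₃ : ℝ, -6 < r₁ ∧ r₁ < -5 ∧ 0.6 < r₂ ∧ r₂ < 0.7 ∧ 6 < r₃ ∧ r₃ < 6.2 ∧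
    (Polynomial.X ^ 3 - Polynomial.X ^ 2 - Polynomial.C 36 * Polynomial.X + Polynomial.C 24 :
      Polynomial ℝ) =
    (Polynomial.X - Polynomial.C r₁) * ((Polynomial.X - Polynomial.C r₂) *
      (Polynomial.X - Polynomial.C r₃)) := by
  have hc : Continuous (fun x : ℝ => x ^ 3 - x ^ 2 - 36 * x + 24) := by continuity
  obtain ⟨r₁, ⟨h1, h1'⟩, h1z⟩ := intermediate_value_Ioo (a := (-6:ℝ)) (b := -5) (by norm_num)
    hc.continuousOn (show (0:ℝ) ∈ Set.Ioo _ _ by constructor <;> norm_num)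
  obtain ⟨r₂, ⟨h2, h2'⟩, h2z⟩ := intermediate_value_Ioo' (a := (0.6:ℝ)) (b := 0.7) (by norm_num)
    hc.continuousOn (show (0:ℝ) ∈ Set.Ioo _ _ by constructor <;> norm_num)
  obtain ⟨r₃, ⟨h3, h3'⟩, h3z⟩ := intermediate_value_Ioo (a := (6:ℝ)) (b := 6.2) (by norm_num)
    hc.continuousOn (show (0:ℝ) ∈ Set.Ioo _ _ by constructor <;> norm_num)
  refine ⟨r₁, r₂, r₃, h1, h1', h2, h2', h3, h3', ?_⟩
  simp only at h1z h2z h3z
  have e12 : r₁ ^ 2 + r₁ * r₂ + r₂ ^ 2 - (r₁ + r₂) - 36 = 0 := by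
    have hne : r₁ - r₂ ≠ 0 := by linarith
    apply mul_left_cancel₀ hne
    linear_combination h1z - h2z
  have e23 : r₂ ^ 2 + r₂ * r₃ + r₃ ^ 2 - (r₂ + r₃) - 36 = 0 := by
    have hne : r₂ - r₃ ≠ 0 := by linarith
    apply mul_left_cancel₀ hne
    linear_combination h2z - h3z
  have e1 : r₁ + r₂ + r₃ = 1 := by
    have hne : r₁ - r₃ ≠ 0 := by linarith
    apply mul_left_cancel₀ hne
    linear_combination e12 - e23
  have e2 : r₁ * r₂ + r₂ * r₃ + r₁ * r₃ = -36 := by
    have h : r₃ = 1 - r₁ - r₂ := by linarith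
    subst h
    linear_combination (-1) * e12
  have e3 : r₁ * r₂ * r₃ = -24 := by
    have h : r₃ = 1 - r₁ - r₂ := by linarith
    subst h
    linear_combination h1z - r₁ * e12
  apply Polynomial.funext
  intro x
  simp only [Polynomial.eval_mul, Polynomial.eval_pow, Polynomial.eval_X, Polynomial.eval_sub,
    Polynomial.eval_C, Polynomial.eval_add]
  linear_combination (-x ^ 2) * (-e1) * (-1) * (-1) + x * e2 * (-1) + e3

lemma sG_aux (p : Polynomial ℝ) (hG0 : p ≠ 0) (hG : p * Polynomial.X ^ 3 =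
    Polynomial.X ^ 24 * (Polynomial.X ^ 2 * ((Polynomial.X ^ 2 - Polynomial.C 12) *
      (Polynomial.X ^ 2 - Polynomial.C 36)))) : sp p = 48 := by
  have hX : ∀ k : ℕ, (Polynomial.X ^ k : Polynomial ℝ) ≠ 0 := fun k => pow_ne_zero _ Polynomial.X_ne_zero
  have e := congrArg sp hG
  have hs : (Polynomial.C 12 : Polynomial ℝ) = Polynomial.C ((Real.sqrt 12) ^ 2) := by
    rw [Real.sq_sqrt (by norm_num)]
  have hs2 : (Polynomial.C 36 : Polynomial ℝ) = Polynomial.C (6 ^ 2) := by norm_num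
  have n0 : p * Polynomial.X ^ 3 ≠ 0 := mul_ne_zero hG0 (hX 3)
  have n1 := n0
  rw [hG] at n1
  rw [sp_mul n0, sp_mul n1, sp_mul (right_ne_zero_of_mul n1),
    sp_mul (right_ne_zero_of_mul (right_ne_zero_of_mul n1)), sp_X_pow, sp_X_pow, sp_X_pow, hs, hs2,
    sp_sq (Real.sqrt_pos.mpr (by norm_num)), sp_sq (by norm_num), Real.sq_sqrt (by norm_num)] at e
  linarith

lemma sH_aux (q : Polynomial ℝ) (hH0 : q ≠ 0) (hH : q * Polynomial.X ^ 3 =
    Polynomial.X ^ 24 * (Polynomial.X * ((Polynomial.X - Polynomial.C 3) *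
      (Polynomial.X + Polynomial.C 4) *
      (Polynomial.X ^ 3 - Polynomial.X ^ 2 - Polynomial.C 36 * Polynomial.X + Polynomial.C 24)))) :
    sp q < 48 := by
  have hX : ∀ k : ℕ, (Polynomial.X ^ k : Polynomial ℝ) ≠ 0 := fun k => pow_ne_zero _ Polynomial.X_ne_zero
  have e := congrArg sp hH
  obtain ⟨r₁, r₂, r₃, h1, h1', h2, h2', h3, h3', hr⟩ := sp_cubic
  have n0 : q * Polynomial.X ^ 3 ≠ 0 := mul_ne_zero hH0 (hX 3)
  have n1 := n0
  rw [hH] at n1
  have hs : (Polynomial.X + Polynomial.C 4 : Polynomial ℝ) = Polynomial.X - Polynomial.C (-4) := by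
    rw [Polynomial.C_neg, sub_neg_eq_add]
  have n2 := right_ne_zero_of_mul (right_ne_zero_of_mul n1)
  rw [sp_mul n0, sp_mul n1, sp_mul (right_ne_zero_of_mul n1),
    sp_mul n2, sp_mul (left_ne_zero_of_mul n2), sp_X_pow, sp_X_pow, sp_X, sp_pos (by norm_num), hs,
    sp_neg (by norm_num), hr, sp_mul (mul_ne_zero (Polynomial.X_sub_C_ne_zero _)
      (mul_ne_zero (Polynomial.X_sub_C_ne_zero _) (Polynomial.X_sub_C_ne_zero _))),
    sp_mul (mul_ne_zero (Polynomial.X_sub_C_ne_zero _) (Polynomial.X_sub_C_ne_zero _)),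
    sp_neg (by linarith), sp_pos (by linarith), sp_pos (by linarith)] at e
  nlinarith

lemma sG : sp (GG.adjMatrix ℝ).charpoly = 48 :=
  sG_aux _ (Matrix.charpoly_monic _).ne_zero (G_aux _ G_eval)

lemma sH : sp (HH.adjMatrix ℝ).charpoly < 48 :=
  sH_aux _ (Matrix.charpoly_monic _).ne_zero (H_aux _ H_eval)

lemma nadj : ¬ GG.Adj 0 2 := by decide +kernel

lemma addE : ∀ a b : Fin 27, HH.Adj a b ↔ (GG.Adj a b ∨ (a = 0 ∧ b = 2) ∨ (a = 2 ∧ b = 0)) := by
  decide +kernel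

/-- The negation of the preceding statement: For every finite simple graph G and non-adjacent distinct vertices u,v, adding the edge uv does not decrease the sum of squares of the positive adjacency eigenvalues (counted with multiplicity). -/
theorem result :
    ¬ (∀ (n : ℕ) (G H : SimpleGraph (Fin n)) [DecidableRel G.Adj] [DecidableRel H.Adj]
      (u v : Fin n), u ≠ v → ¬ G.Adj u v →
      (∀ a b : Fin n, H.Adj a b ↔ (G.Adj a b ∨ (a = u ∧ b = v) ∨ (a = v ∧ b = u))) →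
      (((G.adjMatrix ℝ).charpoly.roots.filter (fun x : ℝ => 0 < x)).map
          (fun x : ℝ => x ^ 2)).sum ≤
      (((H.adjMatrix ℝ).charpoly.roots.filter (fun x : ℝ => 0 < x)).map
          (fun x : ℝ => x ^ 2)).sum) := by
  intro h
  have h' : sp (GG.adjMatrix ℝ).charpoly ≤ sp (HH.adjMatrix ℝ).charpoly :=
    h 27 GG HH 0 2 (by decide) nadj addE
  rw [sG] at h'
  exact absurd h' (not_le.mpr sH)

end Pool.Agent.S04928
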