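import Pool.Statements.S05986
-- import your own Pool.Agent.* helpers here

set_option autoImplicit false
open Pool Pool.MP_5833ce_co

namespace Pool.Agent.S05986

/-- the vectors -/
def U : Fin 16 → Fin 7 → ℕ :=
  ![![0, 0, 1, 1, 1, 2, 0], ![0, 1, 0, 1, 1, 2, 0], ![0, 1, 0, 2, 2, 1, 0], ![2, 0, 0, 0, 0, 0, 0],
    ![2, 0, 1, 0, 2, 2, 0], ![2, 0, 1, 2, 0, 2, 0], ![2, 2, 0, 1, 2, 2, 2], ![2, 2, 0, 2, 1, 2, 2],
    ![2, 2, 1, 0, 0, 1, 0], ![2, 2, 1, 1, 1, 0, 1], ![2, 2, 1, 1, 1, 0, 2], ![2, 2, 2, 0, 0, 2, 0],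
    ![2, 2, 2, 0, 2, 0, 0], ![2, 2, 2, 2, 0, 0, 0], ![2, 2, 2, 2, 2, 0, 1], ![2, 2, 2, 2, 2, 0, 2]]

/-- weights of the form -/
def dw : Fin 7 → ℕ := ![1, 1, 1, 1, 1, 1, 2]

/-- inner product table -/
def ip (i j : Fin 16) : ℕ := (∑ t, dw t * (U i t * U j t)) % 3

/-- the graph -/
def GG : SimpleGraph (Fin 16) where
  Adj i j := i ≠ j ∧ ip i j = 1
  symm := ⟨by decide +kernel⟩
  loopless := ⟨by decide +kernel⟩

instance : DecidableRel GG.Adj := fun i j => by unfold GG; infer_instance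

lemma ip_eq : ∀ i j : Fin 16, ip i j = if (i = j ∨ GG.Adj i j) then 1 else 0 := by decide +kernel

lemma cover : ∀ a b c d e f g : Fin 3, ∃ i : Fin 16,
    (U i 0 * a.1 + U i 1 * b.1 + U i 2 * c.1 + U i 3 * d.1 + U i 4 * e.1 + U i 5 * f.1 +
      2 * U i 6 * g.1) % 3 = 0 := by decide +kernel

/-- coordinates of the combination -/
def X (f : Fin 16 → ZMod 3) (t : Fin 7) : ZMod 3 := ∑ w, (U w t : ZMod 3) * f w

lemma nb_sum (f : Fin 16 → ZMod 3) (i : Fin 16) :
    f i + ∑ w ∈ GG.neighborFinset i, f w = ∑ w, (ip i w : ZMod 3) * f w := by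
  have h1 : ∀ w, (ip i w : ZMod 3) * f w = (if i = w then f w else 0) +
      (if GG.Adj i w then f w else 0) := by
    intro w
    rw [ip_eq]
    by_cases h2 : i = w
    · subst h2
      simp
    · by_cases h3 : GG.Adj i w
      · simp [h2, h3]
      · simp [h2, h3]
  rw [Finset.sum_congr rfl (fun w _ => h1 w), Finset.sum_add_distrib, Finset.sum_ite_eq]
  simp only [Finset.mem_univ, if_true]
  congr 1
  rw [← Finset.sum_filter]
  congr 1
  ext w
  simp

lemma ip_cast (i w : Fin 16) : (ip i w : ZMod 3) = ∑ t, (dw t : ZMod 3) * ((U i t : ZMod 3) * (U w t : ZMod 3)) := by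
  unfold ip
  rw [ZMod.natCast_mod]
  push_cast
  rfl

lemma F_eq (f : Fin 16 → ZMod 3) (i : Fin 16) :
    ∑ w, (ip i w : ZMod 3) * f w = ∑ t, (dw t : ZMod 3) * (U i t : ZMod 3) * X f t := by
  simp only [ip_cast, Finset.sum_mul, X, Finset.mul_sum]
  rw [Finset.sum_comm]
  apply Finset.sum_congr rfl
  intro t _
  apply Finset.sum_congr rfl
  intro w _
  ring

/-- The negation of the preceding statement: For every k ≥ 2 and every finite simple graph, some labeling of the vertices by integers mod k makes the sum of labels over each vertex's closed neighbourhood nonzero mod k. -/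
theorem result :
    ¬ (∀ k : ℕ, 2 ≤ k →
      ∀ (V : Type) [Fintype V] (G : SimpleGraph V) [DecidableRel G.Adj],
        ∃ f : V → ZMod k, ∀ v : V, f v + ∑ w ∈ G.neighborFinset v, f w ≠ 0) := by
  intro H
  obtain ⟨f, hf⟩ := H 3 (by norm_num) (Fin 16) GG
  obtain ⟨i, hi⟩ := cover (X f 0) (X f 1) (X f 2) (X f 3) (X f 4) (X f 5) (X f 6)
  apply hf i
  rw [nb_sum, F_eq]
  have h1 := (ZMod.natCast_eq_zero_iff _ 3).mpr (Nat.dvd_of_mod_eq_zero hi)
  have e : ∀ t, (((X f t : Fin 3).1 : ℕ) : ZMod 3) = X f t := fun t => ZMod.natCast_zmod_val (X f t)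
  push_cast at h1
  simp only [e] at h1
  simp only [Fin.sum_univ_succ, dw]
  simp
  linear_combination h1

end Pool.Agent.S05986
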