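import Pool.Statements.S06308
-- import your own Pool.Agent.* helpers here

set_option autoImplicit false
open Pool Pool.MP_6b5009_co

namespace Pool.Agent.S06308

/-- the sparse graph -/
def ub (x y : ℕ) : Bool :=
  (decide (x = 0) && (decide (y = 1) || decide (y = 6) || decide (y = 11))) ||
  (decide (1 ≤ x) && decide (1 ≤ y) && decide ((x - 1) / 5 = (y - 1) / 5) &&
    decide (((x - 1) % 5 + 1) % 5 = (y - 1) % 5))

/-- symmetric version -/
def us (x y : Fin 16) : Bool := ub x.1 y.1 || ub y.1 x.1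

/-- the graph -/
def GG : SimpleGraph (Fin 16) where
  Adj x y := x ≠ y ∧ us x y = false
  symm := ⟨by decide +kernel⟩
  loopless := ⟨by decide +kernel⟩

instance : DecidableRel GG.Adj := fun i j => by unfold GG; infer_instance

lemma tri : ∀ x y z : Fin 16, x ≠ y → x ≠ z → y ≠ z → GG.Adj x y ∨ GG.Adj x z ∨ GG.Adj y z := by
  decide +kernel

lemma card_le_two (s : Finset (Fin 16)) (hs : ∀ x ∈ s, ∀ y ∈ s, ¬ GG.Adj x y) : s.card ≤ 2 := by
  by_contra hc
  push Not at hc
  rw [Finset.two_lt_card] at hc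
  obtain ⟨x, hx, y, hy, z, hz, h1, h2, h3⟩ := hc
  rcases tri x y z h1 h2 h3 with h | h | h
  · exact hs _ hx _ hy h
  · exact hs _ hx _ hz h
  · exact hs _ hy _ hz h

lemma indep : GG.indepNum = 2 := by
  apply le_antisymm
  · obtain ⟨s, hs⟩ := GG.exists_isNIndepSet_indepNum
    rw [← hs.card_eq]
    apply card_le_two
    intro x hx y hy hxy
    exact hs.isIndepSet hx hy hxy.ne hxy
  · have h1 : GG.IsIndepSet (({0, 1} : Finset (Fin 16)) : Set (Fin 16)) := by
      intro x hx y hy hne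
      simp only [Finset.coe_insert, Finset.coe_singleton, Set.mem_insert_iff,
        Set.mem_singleton_iff] at hx hy
      rcases hx with rfl | rfl <;> rcases hy with rfl | rfl
      · exact absurd rfl hne
      · decide +kernel
      · decide +kernel
      · exact absurd rfl hne
    have := h1.card_le_indepNum
    simpa using this

lemma sum_cl {m k : ℕ} (f : Fin 16 → Finset (Fin m)) (hf : ∀ v, (f v).card = k) :
    ∑ c : Fin m, (Finset.univ.filter (fun v => c ∈ f v)).card = 16 * k := by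
  simp only [Finset.card_filter]
  rw [Finset.sum_comm]
  have : ∀ v, ∑ c : Fin m, (if c ∈ f v then 1 else 0) = k := by
    intro v
    rw [← hf v]
    simp
  rw [Finset.sum_congr rfl (fun v _ => this v)]
  simp

lemma class_le {m : ℕ} (f : Fin 16 → Finset (Fin m))
    (h : ∀ u v, GG.Adj u v → Disjoint (f u) (f v)) (c : Fin m) :
    (Finset.univ.filter (fun v => c ∈ f v)).card ≤ 2 := by
  apply card_le_two
  intro x hx y hy hxy
  rw [Finset.mem_filter] at hx hy
  exact (Finset.disjoint_left.mp (h x y hxy)) hx.2 hy.2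

lemma sat {m : ℕ} (hm : m = 16) (f : Fin 16 → Finset (Fin m)) (hf : ∀ v, (f v).card = 2)
    (h : ∀ u v, GG.Adj u v → Disjoint (f u) (f v)) (c : Fin m) :
    (Finset.univ.filter (fun v => c ∈ f v)).card = 2 := by
  subst hm
  by_contra hc
  have hlt : (Finset.univ.filter (fun v => c ∈ f v)).card < 2 :=
    lt_of_le_of_ne (class_le f h c) hc
  have h1 := sum_cl f hf
  have h2 : ∑ c : Fin 16, (Finset.univ.filter (fun v => c ∈ f v)).card < ∑ _c : Fin 16, 2 :=
    Finset.sum_lt_sum (fun i _ => class_le f h i) ⟨c, Finset.mem_univ _, hlt⟩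
  simp at h2
  omega

lemma low {m : ℕ} (f : Fin 16 → Finset (Fin m)) (hf : ∀ v, (f v).card = 2)
    (h : ∀ u v, GG.Adj u v → Disjoint (f u) (f v)) : 16 ≤ m := by
  have h1 := sum_cl f hf
  have h2 : ∑ c : Fin m, (Finset.univ.filter (fun v => c ∈ f v)).card ≤ ∑ _c : Fin m, 2 :=
    Finset.sum_le_sum (fun i _ => class_le f h i)
  simp at h2
  omega

/-- edges of the double cover -/
def e2 : List (ℕ × ℕ) := [(0,1),(0,1),(2,3),(2,3),(4,5),(4,5),(6,7),(7,8),(8,9),(9,10),(10,6),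
  (11,12),(12,13),(13,14),(14,15),(15,11)]

/-- edges of the triple cover -/
def e3 : List (ℕ × ℕ) := [(0,1),(0,6),(0,11),(1,2),(2,3),(2,3),(3,4),(4,5),(4,5),(5,1),
  (6,7),(7,8),(7,8),(8,9),(9,10),(9,10),(10,6),(11,12),(12,13),(12,13),(13,14),(14,15),(14,15),(15,11)]

/-- colouring from an edge list -/
def col (e : List (ℕ × ℕ)) (m : ℕ) (v : Fin 16) : Finset (Fin m) :=
  Finset.univ.filter (fun c => (e.getD c.1 (0,0)).1 = v.1 ∨ (e.getD c.1 (0,0)).2 = v.1)

lemma up2 : (∀ v, (col e2 16 v).card = 2) ∧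
    ∀ u v, GG.Adj u v → Disjoint (col e2 16 u) (col e2 16 v) := by
  decide +kernel

lemma up3 : (∀ v, (col e3 24 v).card = 3) ∧
    ∀ u v, GG.Adj u v → Disjoint (col e3 24 u) (col e3 24 v) := by
  decide +kernel

lemma nonadj : ∀ x y : Fin 16, x ≠ y → ¬ GG.Adj x y → us x y = true := by decide +kernel

lemma part (f : Fin 16 → Fin 8) (hf : ∀ u v, GG.Adj u v → f u ≠ f v) (x : Fin 16) :
    ∃ y, us x y = true ∧ f x = f y := by
  by_contra hc
  push Not at hc
  have hsz : ∀ c : Fin 8, (Finset.univ.filter (fun v => f v = c)).card ≤ 2 := by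
    intro c
    apply card_le_two
    intro u hu v hv huv
    rw [Finset.mem_filter] at hu hv
    exact hf u v huv (hu.2.trans hv.2.symm)
  have hx : (Finset.univ.filter (fun v => f v = f x)).card ≤ 1 := by
    rw [Finset.card_le_one]
    have key : ∀ a ∈ Finset.univ.filter (fun v => f v = f x), a = x := by
      intro a ha
      rw [Finset.mem_filter] at ha
      by_contra hne
      have hna : ¬ GG.Adj x a := fun h => hf x a h ha.2.symm
      exact hc a (nonadj x a (Ne.symm hne) hna) ha.2.symm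
    intro a ha b hb
    rw [key a ha, key b hb]
  have htot : ∑ c : Fin 8, (Finset.univ.filter (fun v => f v = c)).card = 16 := by
    have := Finset.card_eq_sum_card_fiberwise (f := f) (s := Finset.univ) (t := Finset.univ)
      (fun _ _ => Finset.mem_univ _)
    simpa using this.symm
  have hlt : ∑ c : Fin 8, (Finset.univ.filter (fun v => f v = c)).card < ∑ _c : Fin 8, 2 :=
    Finset.sum_lt_sum (fun i _ => hsz i) ⟨f x, Finset.mem_univ _, by omega⟩
  simp at hlt
  omega

lemma nb : ∀ x y : Fin 16, us x y = true →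
    (x = 1 → y = 0 ∨ y = 2 ∨ y = 5) ∧ (x = 2 → y = 1 ∨ y = 3) ∧ (x = 3 → y = 2 ∨ y = 4) ∧
    (x = 4 → y = 3 ∨ y = 5) ∧ (x = 5 → y = 4 ∨ y = 1) ∧
    (x = 6 → y = 0 ∨ y = 7 ∨ y = 10) ∧ (x = 7 → y = 6 ∨ y = 8) ∧ (x = 8 → y = 7 ∨ y = 9) ∧
    (x = 9 → y = 8 ∨ y = 10) ∧ (x = 10 → y = 9 ∨ y = 6) := by decide +kernel

lemma nocol (f : Fin 16 → Fin 8) (hf : ∀ u v, GG.Adj u v → f u ≠ f v) : False := by
  have g : ∀ x y : Fin 16, GG.Adj x y → (f x).1 ≠ (f y).1 := by
    intro x y h h2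
    exact hf x y h (Fin.ext h2)
  have a1 : (f 1).1 = (f 0).1 ∨ (f 1).1 = (f 2).1 ∨ (f 1).1 = (f 5).1 := by
    obtain ⟨y, h1, h2⟩ := part f hf 1
    rcases (nb 1 y h1).1 rfl with h | h | h <;> subst h <;> simp [h2]
  have a2 : (f 2).1 = (f 1).1 ∨ (f 2).1 = (f 3).1 := by
    obtain ⟨y, h1, h2⟩ := part f hf 2
    rcases (nb 2 y h1).2.1 rfl with h | h <;> subst h <;> simp [h2]
  have a3 : (f 3).1 = (f 2).1 ∨ (f 3).1 = (f 4).1 := by
    obtain ⟨y, h1, h2⟩ := part f hf 3
    rcases (nb 3 y h1).2.2.1 rfl with h | h <;> subst h <;> simp [h2]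
  have a4 : (f 4).1 = (f 3).1 ∨ (f 4).1 = (f 5).1 := by
    obtain ⟨y, h1, h2⟩ := part f hf 4
    rcases (nb 4 y h1).2.2.2.1 rfl with h | h <;> subst h <;> simp [h2]
  have a5 : (f 5).1 = (f 4).1 ∨ (f 5).1 = (f 1).1 := by
    obtain ⟨y, h1, h2⟩ := part f hf 5
    rcases (nb 5 y h1).2.2.2.2.1 rfl with h | h <;> subst h <;> simp [h2]
  have b1 : (f 6).1 = (f 0).1 ∨ (f 6).1 = (f 7).1 ∨ (f 6).1 = (f 10).1 := by
    obtain ⟨y, h1, h2⟩ := part f hf 6
    rcases (nb 6 y h1).2.2.2.2.2.1 rfl with h | h | h <;> subst h <;> simp [h2]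
  have b2 : (f 7).1 = (f 6).1 ∨ (f 7).1 = (f 8).1 := by
    obtain ⟨y, h1, h2⟩ := part f hf 7
    rcases (nb 7 y h1).2.2.2.2.2.2.1 rfl with h | h <;> subst h <;> simp [h2]
  have b3 : (f 8).1 = (f 7).1 ∨ (f 8).1 = (f 9).1 := by
    obtain ⟨y, h1, h2⟩ := part f hf 8
    rcases (nb 8 y h1).2.2.2.2.2.2.2.1 rfl with h | h <;> subst h <;> simp [h2]
  have b4 : (f 9).1 = (f 8).1 ∨ (f 9).1 = (f 10).1 := by
    obtain ⟨y, h1, h2⟩ := part f hf 9
    rcases (nb 9 y h1).2.2.2.2.2.2.2.2.1 rfl with h | h <;> subst h <;> simp [h2]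
  have b5 : (f 10).1 = (f 9).1 ∨ (f 10).1 = (f 6).1 := by
    obtain ⟨y, h1, h2⟩ := part f hf 10
    rcases (nb 10 y h1).2.2.2.2.2.2.2.2.2 rfl with h | h <;> subst h <;> simp [h2]
  have c1 := g 1 3 (by decide +kernel)
  have c2 := g 1 4 (by decide +kernel)
  have c3 := g 2 4 (by decide +kernel)
  have c4 := g 2 5 (by decide +kernel)
  have c5 := g 3 5 (by decide +kernel)
  have d1 := g 6 8 (by decide +kernel)
  have d2 := g 6 9 (by decide +kernel)
  have d3 := g 7 9 (by decide +kernel)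
  have d4 := g 7 10 (by decide +kernel)
  have d5 := g 8 10 (by decide +kernel)
  have e := g 1 6 (by decide +kernel)
  omega

/-- The negation of the preceding statement: For every finite graph G and k ≥ 1: if every k-fold coloring of G using the minimum number of colors uses each color on exactly α(G) vertices, then the (k+1)-fold chromatic number equals the k-fold chromatic number plus the chromatic number. -/
theorem result :
    ¬ (∀ (n : ℕ) (G : SimpleGraph (Fin n)) (k : ℕ), 1 ≤ k →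
      (∀ f : Fin n → Finset (Fin (sInf {m : ℕ | ∃ g : Fin n → Finset (Fin m),
            (∀ v, (g v).card = k) ∧ ∀ u v, G.Adj u v → Disjoint (g u) (g v)})),
          (∀ v, (f v).card = k) →
          (∀ u v, G.Adj u v → Disjoint (f u) (f v)) →
          ∀ c, (Finset.univ.filter (fun v => c ∈ f v)).card = G.indepNum) →
      ((sInf {m : ℕ | ∃ g : Fin n → Finset (Fin m),
            (∀ v, (g v).card = k + 1) ∧ ∀ u v, G.Adj u v → Disjoint (g u) (g v)} : ℕ) : ℕ∞)
        = ((sInf {m : ℕ | ∃ g : Fin n → Finset (Fin m),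
            (∀ v, (g v).card = k) ∧ ∀ u v, G.Adj u v → Disjoint (g u) (g v)} : ℕ) : ℕ∞)
          + G.chromaticNumber) := by
  intro H
  have hchi : (9 : ℕ∞) ≤ GG.chromaticNumber := by
    by_contra hc
    push Not at hc
    have h8 : GG.chromaticNumber ≤ (8 : ℕ) := by
      have : GG.chromaticNumber < ((8 : ℕ) : ℕ∞) + 1 := by
        refine lt_of_lt_of_eq hc ?_
        norm_num
      exact Order.le_of_lt_add_one this
    rw [SimpleGraph.chromaticNumber_le_iff_colorable] at h8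
    obtain ⟨C⟩ := h8
    exact nocol C (fun u v h => C.valid h)
  have e16 : sInf {m : ℕ | ∃ g : Fin 16 → Finset (Fin m),
      (∀ v, (g v).card = 2) ∧ ∀ u v, GG.Adj u v → Disjoint (g u) (g v)} = 16 := by
    apply le_antisymm
    · exact Nat.sInf_le ⟨col e2 16, up2.1, up2.2⟩
    · apply le_csInf
      · exact ⟨16, col e2 16, up2.1, up2.2⟩
      · rintro m ⟨g, h1, h2⟩
        exact low g h1 h2
  have h := H 16 GG 2 (by norm_num) (fun f h1 h2 c => by rw [indep]; exact sat e16 f h1 h2 c)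
  rw [e16] at h
  have h3 : sInf {m : ℕ | ∃ g : Fin 16 → Finset (Fin m),
      (∀ v, (g v).card = 2 + 1) ∧ ∀ u v, GG.Adj u v → Disjoint (g u) (g v)} ≤ 24 :=
    Nat.sInf_le ⟨col e3 24, up3.1, up3.2⟩
  have h4 : ((16 : ℕ) : ℕ∞) + 9 ≤ (24 : ℕ) := by
    calc ((16 : ℕ) : ℕ∞) + 9 ≤ ((16 : ℕ) : ℕ∞) + GG.chromaticNumber := by gcongr
      _ = _ := h.symm
      _ ≤ (24 : ℕ) := by exact_mod_cast h3
  norm_cast at h4

end Pool.Agent.S06308
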