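import Pool.Statements.S07620
-- import your own Pool.Agent.* helpers here

set_option autoImplicit false
open Pool Pool.MP_c0cbcd_co

namespace Pool.Agent.S07620

abbrev A4 := ℕ × ℕ × ℕ × ℕ

/-- sum of positions -/
def add4 (G H : A4) : A4 := (G.1 + H.1, G.2.1 + H.2.1, G.2.2.1 + H.2.2.1, G.2.2.2 + H.2.2.2)

/-- the moves: heap 1 = {0}; heap 2 = {0, 2 H1, 3 H1}; heap 3 = {0, H2, 2 H2}; heap 4 = {0, H1, H1+H3} -/
def mv4 (K G : A4) : Prop :=
  (1 ≤ G.1 ∧ K = (G.1 - 1, G.2.1, G.2.2.1, G.2.2.2)) ∨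
  (1 ≤ G.2.1 ∧ ∃ k : ℕ, (k = 0 ∨ k = 2 ∨ k = 3) ∧ K = (G.1 + k, G.2.1 - 1, G.2.2.1, G.2.2.2)) ∨
  (1 ≤ G.2.2.1 ∧ ∃ k : ℕ, (k = 0 ∨ k = 1 ∨ k = 2) ∧ K = (G.1, G.2.1 + k, G.2.2.1 - 1, G.2.2.2)) ∨
  (1 ≤ G.2.2.2 ∧ ∃ k l : ℕ, ((k = 0 ∧ l = 0) ∨ (k = 1 ∧ l = 0) ∨ (k = 1 ∧ l = 1)) ∧
    K = (G.1 + k, G.2.1, G.2.2.1 + l, G.2.2.2 - 1))

def r1 (a : ℕ) : ℕ := a % 2
def r2 (b : ℕ) : ℕ := if b < 3 then b else 1 + (b - 1) % 2
def r3 (c : ℕ) : ℕ := if c < 4 then c else 2 + c % 2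
def r4 (d : ℕ) : ℕ := if d < 3 then d else 1 + (d - 1) % 2

def tbl : List Bool := [true, true, false, true, false, true, false, true, false, true, true, true, true, true, true, true, true, true, true, true, true, true, false, true, false, true, false, true, false, true, false, true, false, true, true, true, false, true, true, true, true, true, true, true, true, false, true, false, true, false, true, false, true, false, true, false, true, true, true, true, true, true, true, true, true, true, true, true, true, false, true, false]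

def N4 (a b c d : ℕ) : Bool :=
  tbl.getD (((r1 a * 3 + r2 b) * 4 + r3 c) * 3 + r4 d) false

def opt4 (a b c d : ℕ) : Bool :=
  (decide (1 ≤ a) && (!N4 (a - 1) b c d)) ||
  (decide (1 ≤ b) && (!N4 a (b - 1) c d || !N4 (a + 2) (b - 1) c d || !N4 (a + 3) (b - 1) c d)) ||
  (decide (1 ≤ c) && (!N4 a b (c - 1) d || !N4 a (b + 1) (c - 1) d || !N4 a (b + 2) (c - 1) d)) ||
  (decide (1 ≤ d) && (!N4 a b c (d - 1) || !N4 (a + 1) b c (d - 1) || !N4 (a + 1) b (c + 1) (d - 1)))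

def chk4 (a b c d : ℕ) : Bool :=
  N4 a b c d == ((decide (a = 0) && decide (b = 0) && decide (c = 0) && decide (d = 0)) || opt4 a b c d)

theorem fin_chk : ∀ a < 3, ∀ b < 5, ∀ c < 6, ∀ d < 5, chk4 a b c d = true := by decide +kernel

theorem red1 (a : ℕ) : ∃ a' < 3, decide (1 ≤ a) = decide (1 ≤ a') ∧ decide (a = 0) = decide (a' = 0) ∧
    r1 (a - 1) = r1 (a' - 1) ∧ r1 a = r1 a' ∧ r1 (a + 1) = r1 (a' + 1) ∧ r1 (a + 2) = r1 (a' + 2)
    ∧ r1 (a + 3) = r1 (a' + 3) := by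
  refine ⟨if a < 3 then a else 1 + (a - 1) % 2, ?_, ?_, ?_, ?_, ?_, ?_, ?_, ?_⟩
  · split_ifs <;> omega
  · simp only [decide_eq_decide]; split_ifs <;> omega
  · simp only [decide_eq_decide]; split_ifs <;> omega
  all_goals (unfold r1; split_ifs <;> omega)

theorem red2 (a : ℕ) : ∃ a' < 5, decide (1 ≤ a) = decide (1 ≤ a') ∧ decide (a = 0) = decide (a' = 0) ∧
    r2 (a - 1) = r2 (a' - 1) ∧ r2 a = r2 a' ∧ r2 (a + 1) = r2 (a' + 1) ∧ r2 (a + 2) = r2 (a' + 2) := by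
  refine ⟨if a < 5 then a else 3 + (a - 3) % 2, ?_, ?_, ?_, ?_, ?_, ?_, ?_⟩
  · split_ifs <;> omega
  · simp only [decide_eq_decide]; split_ifs <;> omega
  · simp only [decide_eq_decide]; split_ifs <;> omega
  all_goals (unfold r2; split_ifs <;> omega)

theorem red3 (a : ℕ) : ∃ a' < 6, decide (1 ≤ a) = decide (1 ≤ a') ∧ decide (a = 0) = decide (a' = 0) ∧
    r3 (a - 1) = r3 (a' - 1) ∧ r3 a = r3 a' ∧ r3 (a + 1) = r3 (a' + 1) := by
  refine ⟨if a < 6 then a else 4 + (a - 4) % 2, ?_, ?_, ?_, ?_, ?_, ?_⟩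
  · split_ifs <;> omega
  · simp only [decide_eq_decide]; split_ifs <;> omega
  · simp only [decide_eq_decide]; split_ifs <;> omega
  all_goals (unfold r3; split_ifs <;> omega)

theorem red4 (a : ℕ) : ∃ a' < 5, decide (1 ≤ a) = decide (1 ≤ a') ∧ decide (a = 0) = decide (a' = 0) ∧
    r4 (a - 1) = r4 (a' - 1) ∧ r4 a = r4 a' := by
  refine ⟨if a < 5 then a else 3 + (a - 3) % 2, ?_, ?_, ?_, ?_, ?_⟩
  · split_ifs <;> omega
  · simp only [decide_eq_decide]; split_ifs <;> omega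
  · simp only [decide_eq_decide]; split_ifs <;> omega
  all_goals (unfold r4; split_ifs <;> omega)

theorem all_chk (a b c d : ℕ) : chk4 a b c d = true := by
  obtain ⟨a', ha', a1, a2, a3, a4, a5, a6, a7⟩ := red1 a
  obtain ⟨b', hb', b1, b2, b3, b4, b5, b6⟩ := red2 b
  obtain ⟨c', hc', c1, c2, c3, c4, c5⟩ := red3 c
  obtain ⟨d', hd', d1, d2, d3, d4⟩ := red4 d
  rw [← fin_chk a' ha' b' hb' c' hc' d' hd']
  simp only [chk4, opt4, N4, a1, a2, a3, a4, a5, a6, a7, b1, b2, b3, b4, b5, b6, c1, c2, c3, c4, c5, d1, d2, d3, d4]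

theorem N4_rec (a b c d : ℕ) : N4 a b c d = true ↔
    ((a = 0 ∧ b = 0 ∧ c = 0 ∧ d = 0) ∨ opt4 a b c d = true) := by
  have h := all_chk a b c d
  unfold chk4 at h
  simp only [beq_iff_eq] at h
  rw [h]
  simp [and_assoc]

/-- Grundy value -/
def g4 (G : A4) : ℕ := (G.1 + G.2.2.1) % 2 + 2 * ((G.2.1 + G.2.2.2) % 2)

def pairchk (a b c d : ℕ) : Bool := N4 (1 + a) (1 + b) (0 + c) (0 + d) == N4 (0 + a) (0 + b) (0 + c) (1 + d)

theorem fin_pair : ∀ a < 3, ∀ b < 5, ∀ c < 6, ∀ d < 5, pairchk a b c d = true := by decide +kernel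

theorem red1' (a : ℕ) : ∃ a' < 3, r1 (0 + a) = r1 (0 + a') ∧ r1 (1 + a) = r1 (1 + a') := by
  refine ⟨if a < 3 then a else 1 + (a - 1) % 2, ?_, ?_, ?_⟩
  · split_ifs <;> omega
  all_goals (unfold r1; split_ifs <;> omega)

theorem red2' (a : ℕ) : ∃ a' < 5, r2 (0 + a) = r2 (0 + a') ∧ r2 (1 + a) = r2 (1 + a') := by
  refine ⟨if a < 5 then a else 3 + (a - 3) % 2, ?_, ?_, ?_⟩
  · split_ifs <;> omega
  all_goals (unfold r2; split_ifs <;> omega)

theorem red3' (a : ℕ) : ∃ a' < 6, r3 (0 + a) = r3 (0 + a') := by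
  refine ⟨if a < 6 then a else 4 + (a - 4) % 2, ?_, ?_⟩
  · split_ifs <;> omega
  all_goals (unfold r3; split_ifs <;> omega)

theorem red4' (a : ℕ) : ∃ a' < 5, r4 (0 + a) = r4 (0 + a') ∧ r4 (1 + a) = r4 (1 + a') := by
  refine ⟨if a < 5 then a else 3 + (a - 3) % 2, ?_, ?_, ?_⟩
  · split_ifs <;> omega
  all_goals (unfold r4; split_ifs <;> omega)

theorem all_pair (a b c d : ℕ) : N4 (1 + a) (1 + b) (0 + c) (0 + d) = N4 (0 + a) (0 + b) (0 + c) (1 + d) := by
  obtain ⟨a', ha', a1, a2⟩ := red1' a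
  obtain ⟨b', hb', b1, b2⟩ := red2' b
  obtain ⟨c', hc', c1⟩ := red3' c
  obtain ⟨d', hd', d1, d2⟩ := red4' d
  have h := fin_pair a' ha' b' hb' c' hc' d' hd'
  unfold pairchk at h
  simp only [beq_iff_eq] at h
  simp only [N4, a1, a2, b1, b2, c1, d1, d2]
  simpa only [N4] using h


/-- The negation of the preceding statement: For every closed set of finite impartial games (closed under options and sums), any two games in it that are misère-indistinguishable modulo the set (same misère outcome when added to every member) have the same normal-play Grundy value. -/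
theorem result :
    ¬ (∀ (A : Type) (add : A → A → A) (mv : A → A → Prop),
      (∀ G : A, Set.Finite {K : A | mv K G}) →
      WellFounded mv →
      (∀ G H K : A, mv K (add G H) ↔
          ((∃ G' : A, mv G' G ∧ K = add G' H) ∨ (∃ H' : A, mv H' H ∧ K = add G H'))) →
      ∀ (N : A → Prop),
        (∀ G : A, N G ↔ ((∀ K : A, ¬ mv K G) ∨ ∃ K : A, mv K G ∧ ¬ N K)) →
      ∀ (g : A → ℕ),
        (∀ G : A, (∀ K : A, mv K G → g K ≠ g G) ∧
          (∀ m : ℕ, m < g G → ∃ K : A, mv K G ∧ g K = m)) →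
      ∀ G H : A, (∀ X : A, (N (add G X) ↔ N (add H X))) → g G = g H) := by
  intro hall
  have h := hall A4 add4 mv4 ?_ ?_ ?_ (fun G => N4 G.1 G.2.1 G.2.2.1 G.2.2.2 = true) ?_ g4 ?_
    (1, 1, 0, 0) (0, 0, 0, 1) ?_
  · revert h
    simp [g4]
  · rintro ⟨a, b, c, d⟩
    refine Set.Finite.subset (Set.toFinite ({(a - 1, b, c, d), (a, b - 1, c, d), (a + 2, b - 1, c, d),
      (a + 3, b - 1, c, d), (a, b, c - 1, d), (a, b + 1, c - 1, d), (a, b + 2, c - 1, d),
      (a, b, c, d - 1), (a + 1, b, c, d - 1), (a + 1, b, c + 1, d - 1)} : Set A4)) ?_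
    rintro K (⟨h1, rfl⟩ | ⟨h1, k, (rfl | rfl | rfl), rfl⟩ | ⟨h1, k, (rfl | rfl | rfl), rfl⟩ |
      ⟨h1, k, l, (⟨rfl, rfl⟩ | ⟨rfl, rfl⟩ | ⟨rfl, rfl⟩), rfl⟩)
    all_goals simp
  · refine Subrelation.wf (r := InvImage (· < ·) (fun G : A4 => G.1 + 4 * G.2.1 + 9 * G.2.2.1 + 11 * G.2.2.2)) ?_
      (InvImage.wf _ wellFounded_lt)
    rintro K ⟨a, b, c, d⟩ (⟨h1, rfl⟩ | ⟨h1, k, hk, rfl⟩ | ⟨h1, k, hk, rfl⟩ |
      ⟨h1, k, l, hk, rfl⟩) <;> simp only [InvImage] at * <;> omega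
  · rintro ⟨a, b, c, d⟩ ⟨e, f, p, q⟩ K
    constructor
    · rintro (⟨h1, rfl⟩ | ⟨h1, k, hk, rfl⟩ | ⟨h1, k, hk, rfl⟩ | ⟨h1, k, l, hk, rfl⟩)
      · simp only [add4] at h1
        by_cases ha : 1 ≤ a
        · left
          refine ⟨(a - 1, b, c, d), Or.inl ⟨ha, rfl⟩, ?_⟩
          simp only [add4, Prod.mk.injEq, and_true, true_and]; omega
        · right
          refine ⟨(e - 1, f, p, q), Or.inl ⟨?_, rfl⟩, ?_⟩
          · simp only; omega
          · simp only [add4, Prod.mk.injEq, and_true, true_and]; omega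
      · simp only [add4] at h1
        by_cases ha : 1 ≤ b
        · left
          refine ⟨(a + k, b - 1, c, d), Or.inr (Or.inl ⟨ha, k, hk, rfl⟩), ?_⟩
          simp only [add4, Prod.mk.injEq, and_true, true_and]; omega
        · right
          refine ⟨(e + k, f - 1, p, q), Or.inr (Or.inl ⟨?_, k, hk, rfl⟩), ?_⟩
          · simp only; omega
          · simp only [add4, Prod.mk.injEq, and_true, true_and]; omega
      · simp only [add4] at h1
        by_cases ha : 1 ≤ c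
        · left
          refine ⟨(a, b + k, c - 1, d), Or.inr (Or.inr (Or.inl ⟨ha, k, hk, rfl⟩)), ?_⟩
          simp only [add4, Prod.mk.injEq, and_true, true_and]; omega
        · right
          refine ⟨(e, f + k, p - 1, q), Or.inr (Or.inr (Or.inl ⟨?_, k, hk, rfl⟩)), ?_⟩
          · simp only; omega
          · simp only [add4, Prod.mk.injEq, and_true, true_and]; omega
      · simp only [add4] at h1
        by_cases ha : 1 ≤ d
        · left
          refine ⟨(a + k, b, c + l, d - 1), Or.inr (Or.inr (Or.inr ⟨ha, k, l, hk, rfl⟩)), ?_⟩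
          simp only [add4, Prod.mk.injEq, and_true, true_and]; omega
        · right
          refine ⟨(e + k, f, p + l, q - 1), Or.inr (Or.inr (Or.inr ⟨?_, k, l, hk, rfl⟩)), ?_⟩
          · simp only; omega
          · simp only [add4, Prod.mk.injEq, and_true, true_and]; omega
    · rintro (⟨K', (⟨h1, rfl⟩ | ⟨h1, k, hk, rfl⟩ | ⟨h1, k, hk, rfl⟩ | ⟨h1, k, l, hk, rfl⟩), rfl⟩ |
        ⟨K', (⟨h1, rfl⟩ | ⟨h1, k, hk, rfl⟩ | ⟨h1, k, hk, rfl⟩ | ⟨h1, k, l, hk, rfl⟩), rfl⟩)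
      · refine Or.inl ⟨?_, ?_⟩
        · simp only [add4] at *; omega
        · simp only [add4, Prod.mk.injEq, and_true, true_and] at *; omega
      · refine Or.inr (Or.inl ⟨?_, k, hk, ?_⟩)
        · simp only [add4] at *; omega
        · simp only [add4, Prod.mk.injEq, and_true, true_and] at *; omega
      · refine Or.inr (Or.inr (Or.inl ⟨?_, k, hk, ?_⟩))
        · simp only [add4] at *; omega
        · simp only [add4, Prod.mk.injEq, and_true, true_and] at *; omega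
      · refine Or.inr (Or.inr (Or.inr ⟨?_, k, l, hk, ?_⟩))
        · simp only [add4] at *; omega
        · simp only [add4, Prod.mk.injEq, and_true, true_and] at *; omega
      · refine Or.inl ⟨?_, ?_⟩
        · simp only [add4] at *; omega
        · simp only [add4, Prod.mk.injEq, and_true, true_and] at *; omega
      · refine Or.inr (Or.inl ⟨?_, k, hk, ?_⟩)
        · simp only [add4] at *; omega
        · simp only [add4, Prod.mk.injEq, and_true, true_and] at *; omega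
      · refine Or.inr (Or.inr (Or.inl ⟨?_, k, hk, ?_⟩))
        · simp only [add4] at *; omega
        · simp only [add4, Prod.mk.injEq, and_true, true_and] at *; omega
      · refine Or.inr (Or.inr (Or.inr ⟨?_, k, l, hk, ?_⟩))
        · simp only [add4] at *; omega
        · simp only [add4, Prod.mk.injEq, and_true, true_and] at *; omega
  · rintro ⟨a, b, c, d⟩
    simp only []
    rw [N4_rec]
    constructor
    · rintro (⟨rfl, rfl, rfl, rfl⟩ | h)
      · left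
        rintro K (⟨h1, rfl⟩ | ⟨h1, k, hk, rfl⟩ | ⟨h1, k, hk, rfl⟩ | ⟨h1, k, l, hk, rfl⟩) <;>
          simp at h1
      · right
        unfold opt4 at h
        simp only [Bool.or_eq_true, Bool.and_eq_true, decide_eq_true_eq, Bool.not_eq_true'] at h
        rcases h with ((⟨h1, h2⟩ | ⟨h1, (h2 | h2) | h2⟩) | ⟨h1, (h2 | h2) | h2⟩) | ⟨h1, (h2 | h2) | h2⟩
        · exact ⟨_, Or.inl ⟨h1, rfl⟩, by simp [h2]⟩
        · exact ⟨_, Or.inr (Or.inl ⟨h1, 0, by simp, rfl⟩), by simp [h2]⟩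
        · exact ⟨_, Or.inr (Or.inl ⟨h1, 2, by simp, rfl⟩), by simp [h2]⟩
        · exact ⟨_, Or.inr (Or.inl ⟨h1, 3, by simp, rfl⟩), by simp [h2]⟩
        · exact ⟨_, Or.inr (Or.inr (Or.inl ⟨h1, 0, by simp, rfl⟩)), by simp [h2]⟩
        · exact ⟨_, Or.inr (Or.inr (Or.inl ⟨h1, 1, by simp, rfl⟩)), by simp [h2]⟩
        · exact ⟨_, Or.inr (Or.inr (Or.inl ⟨h1, 2, by simp, rfl⟩)), by simp [h2]⟩
        · exact ⟨_, Or.inr (Or.inr (Or.inr ⟨h1, 0, 0, by simp, rfl⟩)), by simp [h2]⟩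
        · exact ⟨_, Or.inr (Or.inr (Or.inr ⟨h1, 1, 0, by simp, rfl⟩)), by simp [h2]⟩
        · exact ⟨_, Or.inr (Or.inr (Or.inr ⟨h1, 1, 1, by simp, rfl⟩)), by simp [h2]⟩
    · rintro (h | ⟨K, hk, hN⟩)
      · left
        refine ⟨?_, ?_, ?_, ?_⟩
        · by_contra h0
          exact h _ (Or.inl ⟨Nat.one_le_iff_ne_zero.2 h0, rfl⟩)
        · by_contra h0
          exact h _ (Or.inr (Or.inl ⟨Nat.one_le_iff_ne_zero.2 h0, 0, by simp, rfl⟩))
        · by_contra h0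
          exact h _ (Or.inr (Or.inr (Or.inl ⟨Nat.one_le_iff_ne_zero.2 h0, 0, by simp, rfl⟩)))
        · by_contra h0
          exact h _ (Or.inr (Or.inr (Or.inr ⟨Nat.one_le_iff_ne_zero.2 h0, 0, 0, by simp, rfl⟩)))
      · right
        unfold opt4
        simp only [Bool.or_eq_true, Bool.and_eq_true, decide_eq_true_eq, Bool.not_eq_true']
        simp only [Bool.not_eq_true] at hN
        rcases hk with (⟨h1, rfl⟩ | ⟨h1, k, (rfl | rfl | rfl), rfl⟩ | ⟨h1, k, (rfl | rfl | rfl), rfl⟩ |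
          ⟨h1, k, l, (⟨rfl, rfl⟩ | ⟨rfl, rfl⟩ | ⟨rfl, rfl⟩), rfl⟩)
        all_goals simp only [Nat.add_zero] at hN h1
        · exact Or.inl (Or.inl (Or.inl ⟨h1, hN⟩))
        · exact Or.inl (Or.inl (Or.inr ⟨h1, Or.inl (Or.inl hN)⟩))
        · exact Or.inl (Or.inl (Or.inr ⟨h1, Or.inl (Or.inr hN)⟩))
        · exact Or.inl (Or.inl (Or.inr ⟨h1, Or.inr hN⟩))
        · exact Or.inl (Or.inr ⟨h1, Or.inl (Or.inl hN)⟩)
        · exact Or.inl (Or.inr ⟨h1, Or.inl (Or.inr hN)⟩)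
        · exact Or.inl (Or.inr ⟨h1, Or.inr hN⟩)
        · exact Or.inr ⟨h1, Or.inl (Or.inl hN)⟩
        · exact Or.inr ⟨h1, Or.inl (Or.inr hN)⟩
        · exact Or.inr ⟨h1, Or.inr hN⟩
  · rintro ⟨a, b, c, d⟩
    constructor
    · rintro K (⟨h1, rfl⟩ | ⟨h1, k, hk, rfl⟩ | ⟨h1, k, hk, rfl⟩ | ⟨h1, k, l, hk, rfl⟩) <;>
        simp only [g4] at * <;> omega
    · intro m hm
      simp only [g4] at hm
      by_cases hm2 : m < 2 ∧ (b + d) % 2 = 1
      · by_cases hb : 1 ≤ b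
        · by_cases hs : m = (a + c) % 2
          · exact ⟨_, Or.inr (Or.inl ⟨hb, 0, by simp, rfl⟩), by simp only [g4]; omega⟩
          · exact ⟨_, Or.inr (Or.inl ⟨hb, 3, by simp, rfl⟩), by simp only [g4]; omega⟩
        · have hd : 1 ≤ d := by omega
          by_cases hs : m = (a + c) % 2
          · exact ⟨_, Or.inr (Or.inr (Or.inr ⟨hd, 0, 0, by simp, rfl⟩)), by simp only [g4]; omega⟩
          · exact ⟨_, Or.inr (Or.inr (Or.inr ⟨hd, 1, 0, by simp, rfl⟩)), by simp only [g4]; omega⟩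
      · by_cases ha : 1 ≤ a
        · exact ⟨_, Or.inl ⟨ha, rfl⟩, by simp only [g4]; omega⟩
        · have hc : 1 ≤ c := by omega
          exact ⟨_, Or.inr (Or.inr (Or.inl ⟨hc, 0, by simp, rfl⟩)), by simp only [g4]; omega⟩
  · rintro ⟨a, b, c, d⟩
    have := all_pair a b c d
    simp only [add4]
    rw [this]

end Pool.Agent.S07620
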