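import Pool.Statements.S07922
-- import your own Pool.Agent.* helpers here

set_option autoImplicit false
open Pool Pool.MP_d26300_co

namespace Pool.Agent.S07922

/-- parent function of the first tree -/
def pT (v : ℕ) : ℕ := if v < 14 then 0 else v - 12
/-- parent function of the second tree -/
def pS (v : ℕ) : ℕ := if v ≤ 5 then 0 else v - 5

/-- graph with a parent function -/
def gr (f : ℕ → ℕ) : SimpleGraph (Fin 26) where
  Adj i j := (i.1 < j.1 ∧ f j.1 = i.1) ∨ (j.1 < i.1 ∧ f i.1 = j.1)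
  symm := ⟨fun i j h => h.symm⟩
  loopless := ⟨fun i h => by
    rcases h with h | h
    · exact lt_irrefl _ h.1
    · exact lt_irrefl _ h.1⟩

instance (f : ℕ → ℕ) : DecidableRel (gr f).Adj := fun i j => by unfold gr; infer_instance

lemma conn (f : ℕ → ℕ) (hf : ∀ v : Fin 26, 0 < v.1 → f v.1 < v.1) : (gr f).Connected := by
  have h0 : ∀ n : ℕ, ∀ hn : n < 26, (gr f).Reachable ⟨n, hn⟩ ⟨0, by norm_num⟩ := by
    intro n
    induction n using Nat.strong_induction_on with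
    | _ n ih =>
      intro hn
      rcases Nat.eq_zero_or_pos n with h | h
      · subst h; exact SimpleGraph.Reachable.refl _
      · have h1 := hf ⟨n, hn⟩ h
        have h2 := ih (f n) h1 (lt_trans h1 hn)
        refine SimpleGraph.Reachable.trans (SimpleGraph.Adj.reachable ?_) h2
        right
        exact ⟨h1, rfl⟩
  haveI : Nonempty (Fin 26) := ⟨0⟩
  refine ⟨fun u v => ?_⟩
  exact (h0 u.1 u.2).trans (h0 v.1 v.2).symm

lemma tree (f : ℕ → ℕ) (hf : ∀ v : Fin 26, 0 < v.1 → f v.1 < v.1)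
    (hc : (gr f).edgeFinset.card = 25) : (gr f).IsTree := by
  rw [SimpleGraph.isTree_iff_connected_and_card]
  refine ⟨conn f hf, ?_⟩
  rw [Nat.card_eq_fintype_card, Nat.card_eq_fintype_card, Fintype.card_fin,
    ← SimpleGraph.edgeFinset_card, hc]

lemma treeT : (gr pT).IsTree := tree _ (by decide) (by decide +kernel)
lemma treeS : (gr pS).IsTree := tree _ (by decide) (by decide +kernel)

/-- path on five vertices -/
def A5 : Matrix (Fin 5) (Fin 5) ℝ :=
  !![0, 1, 0, 0, 0; 1, 0, 1, 0, 0; 0, 1, 0, 1, 0; 0, 0, 1, 0, 1; 0, 0, 0, 1, 0]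

/-- path on two vertices -/
def A2 : Matrix (Fin 2) (Fin 2) ℝ := !![0, 1; 1, 0]

lemma det_A2 (x : ℝ) : (Matrix.scalar _ x - A2).det = x ^ 2 - 1 := by
  rw [Matrix.det_fin_two]
  simp [A2]
  ring

lemma det_A5 (x : ℝ) : (Matrix.scalar _ x - A5).det = x * (x ^ 2 - 1) * (x ^ 2 - 3) := by
  simp [Matrix.det_succ_row_zero, Fin.sum_univ_succ, A5, Fin.succAbove]
  ring

lemma blockdet {m p : Type} [Fintype m] [DecidableEq m] [Fintype p] [DecidableEq p]
    (B : Matrix p p ℝ) (C : Matrix p m ℝ) (N : Matrix m m ℝ) (Y : Matrix m p ℝ) (x d : ℝ)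
    (hY : (Matrix.scalar _ x - N) * Y = d • C.transpose) :
    (Matrix.scalar _ x - Matrix.fromBlocks B C C.transpose N).det * d ^ (Fintype.card p) =
      (d • (Matrix.scalar _ x - B) - C * Y).det * (Matrix.scalar _ x - N).det := by
  have key : (Matrix.scalar _ x - Matrix.fromBlocks B C C.transpose N) *
      Matrix.fromBlocks (d • (1 : Matrix p p ℝ)) 0 Y 1 =
      Matrix.fromBlocks (d • (Matrix.scalar _ x - B) - C * Y) (-C) 0 (Matrix.scalar _ x - N) := by
    have : (Matrix.scalar (p ⊕ m) x - Matrix.fromBlocks B C C.transpose N) =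
        Matrix.fromBlocks (Matrix.scalar _ x - B) (-C) (-C.transpose) (Matrix.scalar _ x - N) := by
      ext i j
      rcases i with i | i <;> rcases j with j | j <;>
        simp [Matrix.scalar_apply, Matrix.diagonal_apply, Matrix.fromBlocks]
    rw [this, Matrix.fromBlocks_multiply]
    congr 1
    · simp [sub_eq_add_neg]
    · simp
    · rw [hY]; simp
    · simp
  have h2 := congrArg Matrix.det key
  rw [Matrix.det_mul, Matrix.det_fromBlocks_zero₁₂, Matrix.det_fromBlocks_zero₂₁] at h2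
  simp only [Matrix.det_smul, Matrix.det_one, mul_one] at h2
  exact h2

lemma det_bd {m o : Type} [Fintype m] [DecidableEq m] [Fintype o] [DecidableEq o]
    (A : Matrix m m ℝ) (x : ℝ) :
    (Matrix.scalar _ x - Matrix.blockDiagonal (fun _ : o => A)).det =
      (Matrix.scalar _ x - A).det ^ (Fintype.card o) := by
  have : (Matrix.scalar _ x - Matrix.blockDiagonal (fun _ : o => A)) =
      Matrix.blockDiagonal (fun _ : o => Matrix.scalar _ x - A) := by
    ext ⟨i, k⟩ ⟨j, l⟩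
    simp only [Matrix.sub_apply, Matrix.blockDiagonal_apply, Matrix.scalar_apply,
      Matrix.diagonal_apply, Prod.mk.injEq]
    by_cases hkl : k = l <;> by_cases hij : i = j <;> simp [hkl, hij]
  rw [this, Matrix.det_blockDiagonal]
  simp

/-- index equivalence -/
def eS : Fin 1 ⊕ (Fin 5 × Fin 5) ≃ Fin 26 :=
  (Equiv.sumCongr (Equiv.refl _) finProdFinEquiv).trans finSumFinEquiv

/-- index equivalence -/
def eT : Fin 2 ⊕ (Fin 2 × Fin 12) ≃ Fin 26 :=
  (Equiv.sumCongr (Equiv.refl _) finProdFinEquiv).trans finSumFinEquiv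

/-- border -/
def CS : Matrix (Fin 1) (Fin 5 × Fin 5) ℝ := fun _ q => if q.1 = 0 then 1 else 0

/-- border -/
def CT : Matrix (Fin 2) (Fin 2 × Fin 12) ℝ := fun i q => if i = 0 ∧ q.1 = 0 then 1 else 0

/-- adjacency of the five path -/
def a5 (i j : Fin 5) : Bool := decide (i.1 + 1 = j.1) || decide (j.1 + 1 = i.1)

lemma A5_eq (i j : Fin 5) : A5 i j = if a5 i j then 1 else 0 := by
  fin_cases i <;> fin_cases j <;> simp [A5, a5]

lemma A2_eq (i j : Fin 2) : A2 i j = if i ≠ j then 1 else 0 := by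
  fin_cases i <;> fin_cases j <;> simp [A2]

lemma S_mat : ((gr pS).adjMatrix ℝ).submatrix eS eS =
    Matrix.fromBlocks 0 CS CS.transpose (Matrix.blockDiagonal (fun _ : Fin 5 => A5)) := by
  have h11 : ∀ i j : Fin 1, ¬ (gr pS).Adj (eS (Sum.inl i)) (eS (Sum.inl j)) := by decide +kernel
  have h12 : ∀ (i : Fin 1) (j : Fin 5 × Fin 5), (gr pS).Adj (eS (Sum.inl i)) (eS (Sum.inr j)) ↔
    j.1 = 0 := by decide +kernel
  have h21 : ∀ (i : Fin 1) (j : Fin 5 × Fin 5), (gr pS).Adj (eS (Sum.inr j)) (eS (Sum.inl i)) ↔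
    j.1 = 0 := by decide +kernel
  have h22 : ∀ i j : Fin 5 × Fin 5, (gr pS).Adj (eS (Sum.inr i)) (eS (Sum.inr j)) ↔
    (i.2 = j.2 ∧ a5 i.1 j.1 = true) := by decide +kernel
  ext i j
  rcases i with i | i <;> rcases j with j | j
  · simp [SimpleGraph.adjMatrix_apply, h11]
  · simp only [Matrix.submatrix_apply, SimpleGraph.adjMatrix_apply, Matrix.fromBlocks_apply₁₂, CS,
      h12]
  · simp only [Matrix.submatrix_apply, SimpleGraph.adjMatrix_apply, Matrix.fromBlocks_apply₂₁, CS,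
      Matrix.transpose_apply, h21]
  · simp only [Matrix.submatrix_apply, SimpleGraph.adjMatrix_apply, Matrix.fromBlocks_apply₂₂, h22,
      Matrix.blockDiagonal_apply, A5_eq]
    by_cases h : i.2 = j.2 <;> simp [h]

lemma T_mat : ((gr pT).adjMatrix ℝ).submatrix eT eT =
    Matrix.fromBlocks A2 CT CT.transpose (Matrix.blockDiagonal (fun _ : Fin 12 => A2)) := by
  have h11 : ∀ i j : Fin 2, (gr pT).Adj (eT (Sum.inl i)) (eT (Sum.inl j)) ↔ i ≠ j := by
    decide +kernel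
  have h12 : ∀ (i : Fin 2) (j : Fin 2 × Fin 12), (gr pT).Adj (eT (Sum.inl i)) (eT (Sum.inr j)) ↔
    (i = 0 ∧ j.1 = 0) := by decide +kernel
  have h21 : ∀ (i : Fin 2) (j : Fin 2 × Fin 12), (gr pT).Adj (eT (Sum.inr j)) (eT (Sum.inl i)) ↔
    (i = 0 ∧ j.1 = 0) := by decide +kernel
  have h22 : ∀ i j : Fin 2 × Fin 12, (gr pT).Adj (eT (Sum.inr i)) (eT (Sum.inr j)) ↔
    (i.2 = j.2 ∧ i.1 ≠ j.1) := by decide +kernel
  ext i j
  rcases i with i | i <;> rcases j with j | j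
  · simp only [Matrix.submatrix_apply, SimpleGraph.adjMatrix_apply, Matrix.fromBlocks_apply₁₁, h11,
      A2_eq]
  · simp only [Matrix.submatrix_apply, SimpleGraph.adjMatrix_apply, Matrix.fromBlocks_apply₁₂, CT,
      h12]
  · simp only [Matrix.submatrix_apply, SimpleGraph.adjMatrix_apply, Matrix.fromBlocks_apply₂₁, CT,
      Matrix.transpose_apply, h21]
  · simp only [Matrix.submatrix_apply, SimpleGraph.adjMatrix_apply, Matrix.fromBlocks_apply₂₂, h22,
      Matrix.blockDiagonal_apply, A2_eq]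
    by_cases h : i.2 = j.2 <;> simp [h]

lemma bd_mul {m o p : Type} [Fintype m] [DecidableEq m] [Fintype o] [DecidableEq o]
    (A : Matrix m m ℝ) (x : ℝ) (y e : m → ℝ) (w : p → ℝ) (d : ℝ)
    (hy : ∀ i, x * y i - ∑ j, A i j * y j = d * e i) :
    (Matrix.scalar _ x - Matrix.blockDiagonal (fun _ : o => A)) *
      (Matrix.of (fun (q : m × o) (c : p) => y q.1 * w c)) =
      d • (Matrix.of (fun (q : m × o) (c : p) => e q.1 * w c)) := by
  ext ⟨i, k⟩ c
  rw [Matrix.sub_mul]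
  simp only [Matrix.sub_apply, Matrix.smul_apply, Matrix.of_apply, smul_eq_mul, Matrix.scalar_apply,
    Matrix.diagonal_mul]
  rw [Matrix.mul_apply, Fintype.sum_prod_type]
  simp only [Matrix.blockDiagonal_apply, Matrix.of_apply, ite_mul, zero_mul, Finset.sum_ite_eq,
    Finset.mem_univ, if_true]
  rw [← mul_assoc, ← mul_assoc, ← hy i, sub_mul, Finset.sum_mul]
  congr 1
  apply Finset.sum_congr rfl
  intro j _
  ring

lemma charpoly_sub {m : Type} [Fintype m] [DecidableEq m] (e : m ≃ Fin 26)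
    (M : Matrix (Fin 26) (Fin 26) ℝ) : (M.submatrix e e).charpoly = M.charpoly := by
  have := Matrix.charpoly_reindex e.symm M
  rw [← this]
  rfl

lemma S_eval (x : ℝ) : ((gr pS).adjMatrix ℝ).charpoly.eval x * (x * (x ^ 2 - 1) * (x ^ 2 - 3)) =
    (x ^ 6 - 9 * x ^ 4 + 18 * x ^ 2 - 5) * (x * (x ^ 2 - 1) * (x ^ 2 - 3)) ^ 5 := by
  have h1 : ((gr pS).adjMatrix ℝ).charpoly.eval x =
    (Matrix.scalar _ x - Matrix.fromBlocks 0 CS CS.transpose
      (Matrix.blockDiagonal (fun _ : Fin 5 => A5))).det := by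
    rw [← charpoly_sub eS, S_mat, Matrix.eval_charpoly]
  have hy : ∀ i, x * (![x ^ 4 - 3 * x ^ 2 + 1, x ^ 3 - 2 * x, x ^ 2 - 1, x, 1] : Fin 5 → ℝ) i -
      ∑ j, A5 i j * (![x ^ 4 - 3 * x ^ 2 + 1, x ^ 3 - 2 * x, x ^ 2 - 1, x, 1] : Fin 5 → ℝ) j =
      (x * (x ^ 2 - 1) * (x ^ 2 - 3)) * (![1, 0, 0, 0, 0] : Fin 5 → ℝ) i := by
    intro i
    fin_cases i <;> simp [Fin.sum_univ_succ, A5] <;> ring
  have hb := bd_mul (o := Fin 5) A5 x _ _ (fun _ : Fin 1 => (1 : ℝ)) _ hy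
  have hc : (Matrix.of (fun (q : Fin 5 × Fin 5) (c : Fin 1) =>
      (![1, 0, 0, 0, 0] : Fin 5 → ℝ) q.1 * (1 : ℝ))) = CS.transpose := by
    ext ⟨i, k⟩ c
    simp only [Matrix.of_apply, CS, Matrix.transpose_apply]
    fin_cases i <;> simp
  rw [hc] at hb
  have h2 := blockdet 0 CS _ _ _ _ hb
  rw [Fintype.card_fin, pow_one, det_bd, det_A5, Fintype.card_fin] at h2
  rw [h1, h2]
  congr 1
  rw [Matrix.det_fin_one]
  simp only [Matrix.sub_apply, Matrix.smul_apply, Matrix.mul_apply, Fintype.sum_prod_type, CS,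
    Matrix.of_apply]
  simp [Fin.sum_univ_succ]
  ring

lemma T_eval (x : ℝ) : ((gr pT).adjMatrix ℝ).charpoly.eval x * (x ^ 2 - 1) ^ 2 =
    ((x ^ 2 - 1) * (x ^ 4 - 14 * x ^ 2 + 1)) * (x ^ 2 - 1) ^ 12 := by
  have h1 : ((gr pT).adjMatrix ℝ).charpoly.eval x =
    (Matrix.scalar _ x - Matrix.fromBlocks A2 CT CT.transpose
      (Matrix.blockDiagonal (fun _ : Fin 12 => A2))).det := by
    rw [← charpoly_sub eT, T_mat, Matrix.eval_charpoly]
  have hy : ∀ i, x * (![x, 1] : Fin 2 → ℝ) i -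
      ∑ j, A2 i j * (![x, 1] : Fin 2 → ℝ) j = (x ^ 2 - 1) * (![1, 0] : Fin 2 → ℝ) i := by
    intro i
    fin_cases i <;> simp [A2] <;> ring
  have hb := bd_mul (o := Fin 12) A2 x _ _ (![1, 0] : Fin 2 → ℝ) _ hy
  have hc : (Matrix.of (fun (q : Fin 2 × Fin 12) (c : Fin 2) =>
      (![1, 0] : Fin 2 → ℝ) q.1 * (![1, 0] : Fin 2 → ℝ) c)) = CT.transpose := by
    ext ⟨i, k⟩ c
    simp only [Matrix.of_apply, CT, Matrix.transpose_apply]
    fin_cases i <;> fin_cases c <;> simp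
  rw [hc] at hb
  have h2 := blockdet A2 CT _ _ _ _ hb
  rw [Fintype.card_fin, det_bd, det_A2, Fintype.card_fin] at h2
  rw [h1, h2]
  congr 1
  rw [Matrix.det_fin_two]
  simp only [Matrix.sub_apply, Matrix.smul_apply, Matrix.mul_apply, Fintype.sum_prod_type, CT,
    Matrix.of_apply]
  simp [A2]
  ring

/-- sum functional -/
noncomputable def en (p : Polynomial ℝ) : ℝ := (p.roots.map (fun x : ℝ => |x|)).sum

/-- product functional -/
noncomputable def pr (p : Polynomial ℝ) : ℝ := (p.roots.map (fun x : ℝ => |x|)).prod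

lemma en_mul {p q : Polynomial ℝ} (h : p * q ≠ 0) : en (p * q) = en p + en q := by
  unfold en
  rw [Polynomial.roots_mul h, Multiset.map_add, Multiset.sum_add]

lemma pr_mul {p q : Polynomial ℝ} (h : p * q ≠ 0) : pr (p * q) = pr p * pr q := by
  unfold pr
  rw [Polynomial.roots_mul h, Multiset.map_add, Multiset.prod_add]

lemma en_pow (p : Polynomial ℝ) (k : ℕ) : en (p ^ k) = k * en p := by
  unfold en
  rw [Polynomial.roots_pow, Multiset.map_nsmul, Multiset.sum_nsmul, nsmul_eq_mul]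

lemma pr_pow (p : Polynomial ℝ) (k : ℕ) : pr (p ^ k) = (pr p) ^ k := by
  unfold pr
  rw [Polynomial.roots_pow, Multiset.map_nsmul, Multiset.prod_nsmul]

lemma en_X : en Polynomial.X = 0 := by
  unfold en
  rw [Polynomial.roots_X]; simp

lemma pr_X : pr Polynomial.X = 0 := by
  unfold pr
  rw [Polynomial.roots_X]; simp

lemma sq_ne (c : ℝ) : (Polynomial.X ^ 2 - Polynomial.C c : Polynomial ℝ) ≠ 0 :=
  Polynomial.X_pow_sub_C_ne_zero (by norm_num) c

lemma sq_fac (a : ℝ) : (Polynomial.X ^ 2 - Polynomial.C (a ^ 2) : Polynomial ℝ) =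
      (Polynomial.X - Polynomial.C a) * (Polynomial.X - Polynomial.C (-a)) := by
  simp only [Polynomial.C_neg, Polynomial.C_pow]
  ring

lemma en_sq {a : ℝ} (ha : 0 ≤ a) : en (Polynomial.X ^ 2 - Polynomial.C (a ^ 2)) = 2 * a := by
  rw [sq_fac, en_mul (mul_ne_zero (Polynomial.X_sub_C_ne_zero _) (Polynomial.X_sub_C_ne_zero _))]
  unfold en
  rw [Polynomial.roots_X_sub_C, Polynomial.roots_X_sub_C]
  simp [abs_of_nonneg ha]
  ring

lemma pr_sq {a : ℝ} (ha : 0 ≤ a) : pr (Polynomial.X ^ 2 - Polynomial.C (a ^ 2)) = a ^ 2 := by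
  rw [sq_fac, pr_mul (mul_ne_zero (Polynomial.X_sub_C_ne_zero _) (Polynomial.X_sub_C_ne_zero _))]
  unfold pr
  rw [Polynomial.roots_X_sub_C, Polynomial.roots_X_sub_C]
  simp
  ring

lemma en_sqrt {c : ℝ} (hc : 0 ≤ c) : en (Polynomial.X ^ 2 - Polynomial.C c) = 2 * Real.sqrt c := by
  have h := en_sq (Real.sqrt_nonneg c)
  rwa [Real.sq_sqrt hc] at h

lemma pr_sqrt {c : ℝ} (hc : 0 ≤ c) : pr (Polynomial.X ^ 2 - Polynomial.C c) = c := by
  have h := pr_sq (Real.sqrt_nonneg c)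
  rwa [Real.sq_sqrt hc] at h

lemma S_poly (p : Polynomial ℝ) (h : ∀ x : ℝ, p.eval x * (x * (x ^ 2 - 1) * (x ^ 2 - 3)) =
    (x ^ 6 - 9 * x ^ 4 + 18 * x ^ 2 - 5) * (x * (x ^ 2 - 1) * (x ^ 2 - 3)) ^ 5) :
    p = (Polynomial.X ^ 6 - Polynomial.C 9 * Polynomial.X ^ 4 + Polynomial.C 18 * Polynomial.X ^ 2
      - Polynomial.C 5) * (Polynomial.X * (Polynomial.X ^ 2 - Polynomial.C 1) *
        (Polynomial.X ^ 2 - Polynomial.C 3)) ^ 4 := by
  have hne : (Polynomial.X * (Polynomial.X ^ 2 - Polynomial.C 1) *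
        (Polynomial.X ^ 2 - Polynomial.C 3) : Polynomial ℝ) ≠ 0 :=
    mul_ne_zero (mul_ne_zero Polynomial.X_ne_zero (sq_ne _)) (sq_ne _)
  apply mul_right_cancel₀ hne
  apply Polynomial.funext
  intro x
  simp only [Polynomial.eval_mul, Polynomial.eval_pow, Polynomial.eval_X, Polynomial.eval_sub,
    Polynomial.eval_C, Polynomial.eval_add]
  rw [h x]
  ring

lemma T_poly (p : Polynomial ℝ) (h : ∀ x : ℝ, p.eval x * (x ^ 2 - 1) ^ 2 =
    ((x ^ 2 - 1) * (x ^ 4 - 14 * x ^ 2 + 1)) * (x ^ 2 - 1) ^ 12) :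
    p = ((Polynomial.X ^ 2 - Polynomial.C ((2 + Real.sqrt 3) ^ 2)) *
      (Polynomial.X ^ 2 - Polynomial.C ((2 - Real.sqrt 3) ^ 2))) *
      (Polynomial.X ^ 2 - Polynomial.C 1) ^ 11 := by
  have hne : ((Polynomial.X ^ 2 - Polynomial.C 1) ^ 2 : Polynomial ℝ) ≠ 0 :=
    pow_ne_zero _ (sq_ne _)
  apply mul_right_cancel₀ hne
  apply Polynomial.funext
  intro x
  simp only [Polynomial.eval_mul, Polynomial.eval_pow, Polynomial.eval_X, Polynomial.eval_sub,
    Polynomial.eval_C]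
  rw [h x]
  have h3 : Real.sqrt 3 ^ 2 = 3 := Real.sq_sqrt (by norm_num)
  have h4 : (x ^ 2 - (2 + Real.sqrt 3) ^ 2) * (x ^ 2 - (2 - Real.sqrt 3) ^ 2) =
      x ^ 4 - 14 * x ^ 2 + 1 := by
    have e : (x ^ 2 - (2 + Real.sqrt 3) ^ 2) * (x ^ 2 - (2 - Real.sqrt 3) ^ 2) =
      x ^ 4 - 2 * x ^ 2 * (4 + Real.sqrt 3 ^ 2) + (4 - Real.sqrt 3 ^ 2) ^ 2 := by ring
    rw [e, h3]; ring
  rw [h4]
  ring

lemma sextic : ∃ y₁ y₂ y₃ : ℝ, 0.3 < y₁ ∧ 2.25 < y₂ ∧ 6 < y₃ ∧
    (Polynomial.X ^ 6 - Polynomial.C 9 * Polynomial.X ^ 4 + Polynomial.C 18 * Polynomial.X ^ 2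
      - Polynomial.C 5 : Polynomial ℝ) =
    (Polynomial.X ^ 2 - Polynomial.C y₁) * ((Polynomial.X ^ 2 - Polynomial.C y₂) *
      (Polynomial.X ^ 2 - Polynomial.C y₃)) := by
  have hc : Continuous (fun x : ℝ => x ^ 3 - 9 * x ^ 2 + 18 * x - 5) := by continuity
  obtain ⟨r₁, ⟨h1, h1'⟩, h1z⟩ := intermediate_value_Ioo (a := (0.3:ℝ)) (b := 1) (by norm_num)
    hc.continuousOn (show (0:ℝ) ∈ Set.Ioo _ _ by constructor <;> norm_num)
  obtain ⟨r₂, ⟨h2, h2'⟩, h2z⟩ := intermediate_value_Ioo' (a := (2.25:ℝ)) (b := 3) (by norm_num)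
    hc.continuousOn (show (0:ℝ) ∈ Set.Ioo _ _ by constructor <;> norm_num)
  obtain ⟨r₃, ⟨h3, h3'⟩, h3z⟩ := intermediate_value_Ioo (a := (6:ℝ)) (b := 7) (by norm_num)
    hc.continuousOn (show (0:ℝ) ∈ Set.Ioo _ _ by constructor <;> norm_num)
  refine ⟨r₁, r₂, r₃, h1, h2, h3, ?_⟩
  simp only at h1z h2z h3z
  have e12 : r₁ ^ 2 + r₁ * r₂ + r₂ ^ 2 - 9 * (r₁ + r₂) + 18 = 0 := by
    have hne : r₁ - r₂ ≠ 0 := by linarith
    apply mul_left_cancel₀ hne
    linear_combination h1z - h2z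
  have e23 : r₂ ^ 2 + r₂ * r₃ + r₃ ^ 2 - 9 * (r₂ + r₃) + 18 = 0 := by
    have hne : r₂ - r₃ ≠ 0 := by linarith
    apply mul_left_cancel₀ hne
    linear_combination h2z - h3z
  have e1 : r₁ + r₂ + r₃ = 9 := by
    have hne : r₁ - r₃ ≠ 0 := by linarith
    apply mul_left_cancel₀ hne
    linear_combination e12 - e23
  have e2 : r₁ * r₂ + r₂ * r₃ + r₁ * r₃ = 18 := by
    have h : r₃ = 9 - r₁ - r₂ := by linarith
    subst h
    linear_combination (-1) * e12
  have e3 : r₁ * r₂ * r₃ = 5 := by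
    have h : r₃ = 9 - r₁ - r₂ := by linarith
    subst h
    linear_combination h1z - r₁ * e12
  apply Polynomial.funext
  intro x
  simp only [Polynomial.eval_mul, Polynomial.eval_pow, Polynomial.eval_X, Polynomial.eval_sub,
    Polynomial.eval_C, Polynomial.eval_add]
  linear_combination (x ^ 4) * e1 - x ^ 2 * e2 + e3

lemma S_fin (p : Polynomial ℝ)
    (h : p = (Polynomial.X ^ 6 - Polynomial.C 9 * Polynomial.X ^ 4 +
      Polynomial.C 18 * Polynomial.X ^ 2
      - Polynomial.C 5) * (Polynomial.X * (Polynomial.X ^ 2 - Polynomial.C 1) *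
        (Polynomial.X ^ 2 - Polynomial.C 3)) ^ 4) : pr p = 0 ∧ 30 < en p := by
  obtain ⟨y₁, y₂, y₃, h1, h2, h3, hy⟩ := sextic
  have hne : (Polynomial.X * (Polynomial.X ^ 2 - Polynomial.C 1) *
        (Polynomial.X ^ 2 - Polynomial.C 3) : Polynomial ℝ) ≠ 0 :=
    mul_ne_zero (mul_ne_zero Polynomial.X_ne_zero (sq_ne _)) (sq_ne _)
  have hne2 : (Polynomial.X ^ 2 - Polynomial.C y₁) * ((Polynomial.X ^ 2 - Polynomial.C y₂) *
      (Polynomial.X ^ 2 - Polynomial.C y₃)) ≠ 0 :=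
    mul_ne_zero (sq_ne _) (mul_ne_zero (sq_ne _) (sq_ne _))
  rw [hy] at h
  subst h
  constructor
  · rw [pr_mul (mul_ne_zero hne2 (pow_ne_zero _ hne)), pr_pow, pr_mul hne,
      pr_mul (left_ne_zero_of_mul hne), pr_X]
    simp
  · rw [en_mul (mul_ne_zero hne2 (pow_ne_zero _ hne)), en_pow, en_mul hne,
      en_mul (left_ne_zero_of_mul hne), en_X, en_mul hne2, en_mul (right_ne_zero_of_mul hne2),
      en_sqrt (by linarith), en_sqrt (by linarith), en_sqrt (by linarith), en_sqrt (by norm_num),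
      en_sqrt (by norm_num), Real.sqrt_one]
    have s1 : 0.54 < Real.sqrt y₁ := Real.lt_sqrt_of_sq_lt (by norm_num; linarith)
    have s2 : 1.5 < Real.sqrt y₂ := Real.lt_sqrt_of_sq_lt (by norm_num; linarith)
    have s3 : 2.4 < Real.sqrt y₃ := Real.lt_sqrt_of_sq_lt (by norm_num; linarith)
    have s4 : 1.7 < Real.sqrt 3 := Real.lt_sqrt_of_sq_lt (by norm_num)
    push_cast
    linarith

lemma T_fin (p : Polynomial ℝ)
    (h : p = ((Polynomial.X ^ 2 - Polynomial.C ((2 + Real.sqrt 3) ^ 2)) *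
      (Polynomial.X ^ 2 - Polynomial.C ((2 - Real.sqrt 3) ^ 2))) *
      (Polynomial.X ^ 2 - Polynomial.C 1) ^ 11) : pr p = 1 ∧ en p = 30 := by
  subst h
  have hne : (Polynomial.X ^ 2 - Polynomial.C ((2 + Real.sqrt 3) ^ 2)) *
      (Polynomial.X ^ 2 - Polynomial.C ((2 - Real.sqrt 3) ^ 2)) ≠ 0 :=
    mul_ne_zero (sq_ne _) (sq_ne _)
  have h3 : Real.sqrt 3 ^ 2 = 3 := Real.sq_sqrt (by norm_num)
  have h3' : Real.sqrt 3 ≤ 2 := by
    rw [Real.sqrt_le_left (by norm_num)]; norm_num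
  have h4 := Real.sqrt_nonneg 3
  constructor
  · rw [pr_mul (mul_ne_zero hne (pow_ne_zero _ (sq_ne _))), pr_pow, pr_mul hne,
      pr_sq (by linarith), pr_sq (by linarith), pr_sqrt (by norm_num)]
    rw [← mul_pow, show (2 + Real.sqrt 3) * (2 - Real.sqrt 3) = 4 - Real.sqrt 3 ^ 2 by ring, h3]
    norm_num
  · rw [en_mul (mul_ne_zero hne (pow_ne_zero _ (sq_ne _))), en_pow, en_mul hne,
      en_sq (by linarith), en_sq (by linarith), en_sqrt (by norm_num), Real.sqrt_one]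
    push_cast
    ring

lemma S_all : pr ((gr pS).adjMatrix ℝ).charpoly = 0 ∧ 30 < en ((gr pS).adjMatrix ℝ).charpoly :=
  S_fin _ (S_poly _ S_eval)

lemma T_all : pr ((gr pT).adjMatrix ℝ).charpoly = 1 ∧ en ((gr pT).adjMatrix ℝ).charpoly = 30 :=
  T_fin _ (T_poly _ T_eval)

/-- The negation of the preceding statement: For trees T, S on the same even number of vertices: if the product of absolute adjacency eigenvalues is 1 for T and 0 for S, then the sum of absolute eigenvalues (energy) of T is strictly larger than that of S. -/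
theorem result :
    ¬ (∀ (n : ℕ) (T S : SimpleGraph (Fin n)) [DecidableRel T.Adj] [DecidableRel S.Adj],
      Even n → T.IsTree → S.IsTree →
      ((T.adjMatrix ℝ).charpoly.roots.map (fun x : ℝ => |x|)).prod = 1 →
      ((S.adjMatrix ℝ).charpoly.roots.map (fun x : ℝ => |x|)).prod = 0 →
      ((S.adjMatrix ℝ).charpoly.roots.map (fun x : ℝ => |x|)).sum <
        ((T.adjMatrix ℝ).charpoly.roots.map (fun x : ℝ => |x|)).sum) := by
  intro h
  have h' : en ((gr pS).adjMatrix ℝ).charpoly < en ((gr pT).adjMatrix ℝ).charpoly :=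
    h 26 (gr pT) (gr pS) (by decide) treeT treeS T_all.1 S_all.1
  rw [T_all.2] at h'
  exact absurd h' (not_lt.mpr S_all.2.le)

end Pool.Agent.S07922
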