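import Pool.Statements.S09115
import Pool.Agent.Hst.Ex

set_option autoImplicit false
open Pool Pool.MP_6c8a84_gt

namespace Pool.Agent.S09115

/-- There is a metric space X on which every homotopy starting at the identity is stationary, yet some continuous open surjection g from a metric space Z onto X admits a homotopy starting at g that moves some point. -/
theorem result :
    ∃ (X : Type) (_ : MetricSpace X),
      (∀ h : X × unitInterval → X, Continuous h →
          (∀ x : X, h (x, (0 : unitInterval)) = x) →
          ∀ (a : X) (t : unitInterval), h (a, t) = a) ∧
      ∃ (Z : Type) (_ : MetricSpace Z) (g : Z → X),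
        Continuous g ∧ IsOpenMap g ∧ Function.Surjective g ∧
        ∃ (a : Z) (h : Z × unitInterval → X), Continuous h ∧
          (∀ z : Z, h (z, (0 : unitInterval)) = g z) ∧
          ∃ t : unitInterval, h (a, t) ≠ g a := by
  exact Pool.Agent.Hst.main

end Pool.Agent.S09115
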