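import Pool.Statements.S13402
-- import your own Pool.Agent.* helpers here

set_option autoImplicit false
open MeasureTheory ProbabilityTheory
open Pool Pool.MP_aa6114_pr

namespace Pool.Agent.S13402

/-- The uniform probability measure on `Fin 4 → Bool` (four independent fair coins). -/
noncomputable def coin : Measure Bool := (PMF.uniformOfFintype Bool).toMeasure

instance : IsProbabilityMeasure coin := by unfold coin; infer_instance

noncomputable def nu : Measure (Fin 4 → Bool) := Measure.pi (fun _ => coin)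

instance : IsProbabilityMeasure nu := by unfold nu; infer_instance

/-- Values: `X 0 ∈ {1,4}`, `X 1 ∈ {0,5}`, `X 2 = 2`, `X 3 ∈ {3,6}`. -/
def val : Fin 4 → Bool → ℕ := fun i b =>
  if b then ![1, 0, 2, 3] i else ![4, 5, 2, 6] i

lemma coin_single (b : Bool) : coin {b} = 2⁻¹ := by
  unfold coin
  rw [PMF.toMeasure_apply_singleton _ _ (measurableSet_singleton b)]
  simp

lemma nu_single (f : Fin 4 → Bool) : nu {f} = (16 : ENNReal)⁻¹ := by
  unfold nu
  rw [Measure.pi_singleton]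
  simp only [coin_single, Finset.prod_const, Finset.card_univ, Fintype.card_fin]
  rw [← ENNReal.inv_pow]
  norm_num

lemma nu_finset (s : Finset (Fin 4 → Bool)) : nu (s : Set (Fin 4 → Bool)) = s.card * (16 : ENNReal)⁻¹ := by
  rw [← sum_measure_singleton]
  simp [nu_single]

def rv (i : Fin 4) (ω : Fin 4 → Bool) : ℝ := (val i (ω i) : ℝ)

lemma rv_lt (i j : Fin 4) (ω : Fin 4 → Bool) : rv i ω < rv j ω ↔ val i (ω i) < val j (ω j) := by
  unfold rv; exact Nat.cast_lt

def SS : Finset (Fin 4 × Fin 4) := {(0, 3), (1, 3)}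

def FP : Finset (Fin 4 → Bool) := Finset.univ.filter (fun ω =>
  val 0 (ω 0) < val 3 (ω 3) ∧ val 1 (ω 1) < val 3 (ω 3))
def FPB : Finset (Fin 4 → Bool) := Finset.univ.filter (fun ω =>
  (val 0 (ω 0) < val 3 (ω 3) ∧ val 1 (ω 1) < val 3 (ω 3)) ∧ val 0 (ω 0) < val 2 (ω 2))
def FPA : Finset (Fin 4 → Bool) := Finset.univ.filter (fun ω =>
  (val 0 (ω 0) < val 3 (ω 3) ∧ val 1 (ω 1) < val 3 (ω 3)) ∧ val 0 (ω 0) < val 1 (ω 1))
def FPAB : Finset (Fin 4 → Bool) := Finset.univ.filter (fun ω =>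
  ((val 0 (ω 0) < val 3 (ω 3) ∧ val 1 (ω 1) < val 3 (ω 3)) ∧ val 0 (ω 0) < val 2 (ω 2))
    ∧ val 0 (ω 0) < val 1 (ω 1))

lemma cFP : FP.card = 10 := by decide +kernel
lemma cFPB : FPB.card = 6 := by decide +kernel
lemma cFPA : FPA.card = 4 := by decide +kernel
lemma cFPAB : FPAB.card = 2 := by decide +kernel

lemma sP : {ω | (∀ p ∈ SS, rv p.1 ω < rv p.2 ω) ∧
    (∀ p ∈ (∅ : Finset (Fin 4 × Fin 4)), rv p.1 ω ≤ rv p.2 ω)} = (FP : Set (Fin 4 → Bool)) := by
  ext ω
  simp only [Set.mem_setOf_eq, SS, FP, Finset.coe_filter, Finset.mem_univ, true_and,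
    Finset.mem_insert, Finset.mem_singleton, forall_eq_or_imp, forall_eq, rv_lt,
    Finset.notMem_empty, false_imp_iff, implies_true, and_true]

lemma sPB : ((FP : Set (Fin 4 → Bool)) ∩ {ω | rv 0 ω < rv 2 ω}) = (FPB : Set (Fin 4 → Bool)) := by
  ext ω
  simp only [Set.mem_inter_iff, Set.mem_setOf_eq, FP, FPB, Finset.coe_filter, Finset.mem_univ,
    true_and, rv_lt]

lemma sPA : ((FP : Set (Fin 4 → Bool)) ∩ {ω | rv 0 ω < rv 1 ω}) = (FPA : Set (Fin 4 → Bool)) := by
  ext ω
  simp only [Set.mem_inter_iff, Set.mem_setOf_eq, FP, FPA, Finset.coe_filter, Finset.mem_univ,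
    true_and, rv_lt]

lemma sPAB : ((FPB : Set (Fin 4 → Bool)) ∩ {ω | rv 0 ω < rv 1 ω}) = (FPAB : Set (Fin 4 → Bool)) := by
  ext ω
  simp only [Set.mem_inter_iff, Set.mem_setOf_eq, FPB, FPAB, Finset.coe_filter, Finset.mem_univ,
    true_and, rv_lt]

lemma final_ineq : ¬ ((10 * (16 : ENNReal)⁻¹)⁻¹ * (4 * (16 : ENNReal)⁻¹)
    ≤ (6 * (16 : ENNReal)⁻¹)⁻¹ * (2 * (16 : ENNReal)⁻¹)) := by
  intro h
  have h16 : (16 : ENNReal)⁻¹ = ENNReal.ofReal (1/16) := by
    rw [ENNReal.ofReal_div_of_pos (by norm_num)]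
    simp
  have e1 : (10 * (16 : ENNReal)⁻¹) = ENNReal.ofReal (10/16) := by
    rw [h16, show (10:ENNReal) = ENNReal.ofReal 10 by simp, ← ENNReal.ofReal_mul (by norm_num)]; norm_num
  have e2 : (4 * (16 : ENNReal)⁻¹) = ENNReal.ofReal (4/16) := by
    rw [h16, show (4:ENNReal) = ENNReal.ofReal 4 by simp, ← ENNReal.ofReal_mul (by norm_num)]; norm_num
  have e3 : (6 * (16 : ENNReal)⁻¹) = ENNReal.ofReal (6/16) := by
    rw [h16, show (6:ENNReal) = ENNReal.ofReal 6 by simp, ← ENNReal.ofReal_mul (by norm_num)]; norm_num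
  have e4 : (2 * (16 : ENNReal)⁻¹) = ENNReal.ofReal (2/16) := by
    rw [h16, show (2:ENNReal) = ENNReal.ofReal 2 by simp, ← ENNReal.ofReal_mul (by norm_num)]; norm_num
  rw [e1, e2, e3, e4, ← ENNReal.ofReal_inv_of_pos (by norm_num),
    ← ENNReal.ofReal_inv_of_pos (by norm_num), ← ENNReal.ofReal_mul (by norm_num),
    ← ENNReal.ofReal_mul (by norm_num), ENNReal.ofReal_le_ofReal_iff (by norm_num)] at h
  norm_num at h


/-- The negation of the preceding statement: For independent real random variables and any finite set of pairwise strict or weak inequality constraints P, P(X_a<X_b given P) ≤ P(X_a<X_b given P and X_a<X_c) whenever the second conditioning event has positive probability. -/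
theorem result :
    ¬ (∀ (Ω : Type) [MeasurableSpace Ω] (μ : Measure Ω) [IsProbabilityMeasure μ]
      (n : ℕ) (X : Fin n → Ω → ℝ),
      (∀ i, Measurable (X i)) →
      iIndepFun X μ →
      ∀ (a b c : Fin n), a ≠ b → a ≠ c → b ≠ c →
      ∀ (S W : Finset (Fin n × Fin n)),
        μ ({ω | (∀ p ∈ S, X p.1 ω < X p.2 ω) ∧ (∀ p ∈ W, X p.1 ω ≤ X p.2 ω)}
            ∩ {ω | X a ω < X c ω}) ≠ 0 →
        ProbabilityTheory.cond μ
            {ω | (∀ p ∈ S, X p.1 ω < X p.2 ω) ∧ (∀ p ∈ W, X p.1 ω ≤ X p.2 ω)}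
            {ω | X a ω < X b ω}
          ≤ ProbabilityTheory.cond μ
            ({ω | (∀ p ∈ S, X p.1 ω < X p.2 ω) ∧ (∀ p ∈ W, X p.1 ω ≤ X p.2 ω)}
              ∩ {ω | X a ω < X c ω})
            {ω | X a ω < X b ω}) := by
  intro H
  have h := H (Fin 4 → Bool) nu 4 rv
    (fun i => measurable_of_finite _)
    (by
      have := iIndepFun_pi (μ := fun _ : Fin 4 => coin)
        (X := fun (i : Fin 4) (b : Bool) => ((val i b : ℕ) : ℝ))
        (fun i => (measurable_of_finite _).aemeasurable)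
      exact this)
    0 1 2 (by decide) (by decide) (by decide) SS ∅
  rw [sP, sPB, cond_apply (Set.toFinite _).measurableSet, cond_apply (Set.toFinite _).measurableSet,
    sPA, sPAB, nu_finset, nu_finset, nu_finset, nu_finset, cFP, cFPA, cFPB, cFPAB] at h
  exact final_ineq (by simpa using h (by simp))

end Pool.Agent.S13402
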